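import Pool.Agent.Lib.MP_1a91b9_ntT.S5.Defs

/-!
# JOB S5-Heights: a 2-divisible group of points is finite

Naive height: `h(0) = 0`, `h(x, y) = Height.logHeight₁ x` (or `logHeight ![x, 1]`).
`h(2 P) ≥ 4 h(P) - C`: for `P = (x, y)` with `2 P ≠ 0` the abscissa of `2 P` is
`(x⁴ - 2 x) / (4 x³ + 1)` (slope `3 x² / (2 y + 1)`), see `Height.logHeight_eval_ge'` in
Mathlib.NumberTheory.Height.MvPolynomial with the forms `F₀ = X⁴ - 2 X Z³`, `F₁ = 4 X³ Z + Z⁴` and
the identities (of degree 7, to be found: `F₀, F₁` are coprime over `ℚ`) expressing `X ^ 7` and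
`Z ^ 7` as combinations of `F₀, F₁` with cubic coefficients. If `2 P = 0` then `4 x³ + 1 = 0`:
finitely many `x`.
`Northcott`: `Height.logHeight₁` has the Northcott property (Mathlib.NumberTheory.Height.NumberField)
and every `x` has at most two `y`.
So `AddGroup.fg_of_descent` / `AddCommGroup.fg_of_descent` (Mathlib.GroupTheory.Descent, with
`f = 2 •`, `s = {0}`) gives that the group is finitely generated. A finitely generated abelian
group `G` with `2 G = G` is finite (`AddCommGroup.equiv_free_prod_directSum_zmod`, or: the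
torsion-free quotient is free of finite rank and 2-divisible, hence zero).
-/

set_option autoImplicit false

namespace Pool.Agent.Lib.MP_1a91b9_ntT.S5

open IsDedekindDomain NumberField WithZero Module

/-- a finitely generated 2-divisible abelian group is finite -/
theorem finite_of_fg_of_div {G : Type*} [AddCommGroup G] (hf : AddGroup.FG G)
    (h : ∀ x : G, ∃ y : G, y + y = x) : Finite G := by
  classical
  haveI := hf
  obtain ⟨n, ι, hι, p, hp, e, ⟨f⟩⟩ := AddCommGroup.equiv_free_prod_directSum_zmod G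
  have hn : IsEmpty (Fin n) := by
    refine ⟨fun i => ?_⟩
    obtain ⟨y, hy⟩ := h (f.symm (Finsupp.single i 1, 0))
    have h1 : f y + f y = (Finsupp.single i 1, 0) := by
      rw [← map_add, hy, AddEquiv.apply_symm_apply]
    have h2 := congrArg (fun z => (Prod.fst z) i) h1
    simp only [Prod.fst_add, Finsupp.add_apply, Finsupp.single_eq_same] at h2
    omega
  haveI : ∀ i, NeZero (p i ^ e i) := fun i => ⟨pow_ne_zero _ (hp i).ne_zero⟩
  haveI : Finite (DirectSum ι fun i => ZMod (p i ^ e i)) :=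
    Finite.of_equiv _ (DirectSum.addEquivProd (fun i => ZMod (p i ^ e i))).toEquiv.symm
  exact Finite.of_equiv _ f.toEquiv.symm

section HT2

open WeierstrassCurve MvPolynomial

variable {N : Type*} [Field N] [NumberField N]

/-- naive height -/
private noncomputable def HT2_h : (E27 N).toAffine.Point → ℝ
  | .zero => 0
  | .some x _ _ => Height.logHeight₁ x

/-- the abscissa -/
private def HT2_x : (E27 N).toAffine.Point → Option N
  | .zero => none
  | .some x _ _ => some x

private theorem HT2_fiber (o : Option N) :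
    ((HT2_x : (E27 N).toAffine.Point → Option N) ⁻¹' {o}).Finite := by
  rcases Set.eq_empty_or_nonempty ((HT2_x : (E27 N).toAffine.Point → Option N) ⁻¹' {o}) with h | h
  · rw [h]
    exact Set.finite_empty
  · obtain ⟨P₀, hP₀⟩ := h
    refine (Set.toFinite {P₀, -P₀}).subset fun P hP => ?_
    have he : HT2_x P = HT2_x P₀ := hP.trans hP₀.symm
    rcases P with _ | ⟨x, y, hxy⟩
    · rcases P₀ with _ | ⟨x₀, y₀, h₀⟩
      · exact Or.inl rfl
      · simp [HT2_x] at he
    · rcases P₀ with _ | ⟨x₀, y₀, h₀⟩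
      · simp [HT2_x] at he
      · have hx : x = x₀ := by simpa [HT2_x] using he
        exact (Affine.Point.X_eq_iff (h₁ := hxy) (h₂ := h₀)).1 hx

private theorem HT2_northcott : Northcott (HT2_h : (E27 N).toAffine.Point → ℝ) := by
  refine ⟨fun B => ?_⟩
  have h1 : {x : N | Height.logHeight₁ x ≤ B}.Finite := NumberField.finite_setOfPred_logHeight₁_le N B
  have h2 : (insert none (Option.some '' {x : N | Height.logHeight₁ x ≤ B})).Finite :=
    (h1.image _).insert _
  refine (h2.preimage' (f := (HT2_x : (E27 N).toAffine.Point → Option N))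
    (fun o _ => HT2_fiber o)).subset fun P hP => ?_
  rcases P with _ | ⟨x, y, hxy⟩
  · exact Set.mem_insert _ _
  · exact Set.mem_insert_of_mem _ ⟨x, hP, rfl⟩

/-- the cubic coefficients -/
private noncomputable def HT2_q (a : Fin 2 × Fin 2) : MvPolynomial (Fin 2) N :=
  (![![X 0 ^ 3 + C (2 / 9) * X 1 ^ 3, C (4 / 9) * (X 0 * X 1 ^ 2)],
    ![C (16 / 9) * (X 0 ^ 2 * X 1), X 1 ^ 3 - C (4 / 9) * X 0 ^ 3]] :
      Fin 2 → Fin 2 → MvPolynomial (Fin 2) N) a.1 a.2

private theorem HT2_q_hom (a : Fin 2 × Fin 2) : (HT2_q (N := N) a).IsHomogeneous 3 := by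
  obtain ⟨i, j⟩ := a
  fin_cases i <;> fin_cases j
  · exact (isHomogeneous_X_pow 0 3).add ((isHomogeneous_X_pow 1 3).C_mul _)
  · exact ((isHomogeneous_X N 0).mul (isHomogeneous_X_pow 1 2)).C_mul _
  · exact ((isHomogeneous_X_pow 0 2).mul (isHomogeneous_X N 1)).C_mul _
  · exact (isHomogeneous_X_pow 1 3).sub ((isHomogeneous_X_pow 0 3).C_mul _)

private theorem HT2_quot : ∃ C₁ : ℝ, ∀ t : N,
    C₁ + 4 * Height.logHeight₁ t ≤ Height.logHeight₁ ((t ^ 4 - 2 * t) / (4 * t ^ 3 + 1)) := by
  obtain ⟨C₁, hC⟩ := Height.logHeight_eval_ge' (K := N) (M := 3) (N := 4) HT2_q_hom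
  refine ⟨C₁, fun t => ?_⟩
  have h1 := hC (fun j => C ((![t ^ 4 - 2 * t, 4 * t ^ 3 + 1] : Fin 2 → N) j)) (x := ![t, 1]) (by
    intro k
    fin_cases k
    · simp [HT2_q, Fin.sum_univ_two]
      ring
    · simp [HT2_q, Fin.sum_univ_two]
      ring)
  rw [Height.logHeight₁_div_eq_logHeight, Height.logHeight₁_eq_logHeight]
  have h2 : (fun j => (C ((![t ^ 4 - 2 * t, 4 * t ^ 3 + 1] : Fin 2 → N) j) :
      MvPolynomial (Fin 2) N).eval ![t, 1]) = ![t ^ 4 - 2 * t, 4 * t ^ 3 + 1] := by
    funext j
    rw [eval_C]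
  rw [h2] at h1
  exact_mod_cast h1

private theorem HT2_dbl [DecidableEq N] : ∃ c : ℝ, 0 ≤ c ∧ ∀ P : (E27 N).toAffine.Point,
    4 * HT2_h P - c ≤ HT2_h (P + P) := by
  obtain ⟨C₁, hC⟩ := HT2_quot (N := N)
  refine ⟨max 0 (max (-C₁) (4 / 3 * Height.logHeight₁ (-1 / 4 : N))), le_max_left _ _, fun P => ?_⟩
  have hm0 : (0 : ℝ) ≤ max 0 (max (-C₁) (4 / 3 * Height.logHeight₁ (-1 / 4 : N))) := le_max_left _ _
  have hm1 : -C₁ ≤ max 0 (max (-C₁) (4 / 3 * Height.logHeight₁ (-1 / 4 : N))) :=
    (le_max_left _ _).trans (le_max_right _ _)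
  have hm2 : 4 / 3 * Height.logHeight₁ (-1 / 4 : N) ≤
      max 0 (max (-C₁) (4 / 3 * Height.logHeight₁ (-1 / 4 : N))) :=
    (le_max_right _ _).trans (le_max_right _ _)
  rcases P with _ | ⟨x, y, hxy⟩
  · have h0 : (Affine.Point.zero + Affine.Point.zero : (E27 N).toAffine.Point) =
        Affine.Point.zero := add_zero (0 : (E27 N).toAffine.Point)
    rw [h0]
    change 4 * (0 : ℝ) - _ ≤ 0
    linarith
  · have heq : y ^ 2 + y = x ^ 3 := by
      have h1 := (Affine.equation_iff (W := (E27 N).toAffine) x y).1 hxy.1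
      simpa using h1
    by_cases hy : y = (E27 N).toAffine.negY x y
    · rw [Affine.Point.add_self_of_Y_eq hy]
      change 4 * Height.logHeight₁ x - _ ≤ 0
      have h2 : 2 * y + 1 = 0 := by
        have : y = -y - 0 * x - 1 := hy
        linear_combination this
      have h3 : x ^ 3 = -1 / 4 := by
        rw [← heq]
        linear_combination (1 / 4) * (2 * y + 1) * h2
      have h4 := Height.logHeight₁_pow x 3
      rw [h3] at h4
      push_cast at h4
      linarith
    · rw [Affine.Point.add_self_of_Y_ne hy]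
      change 4 * Height.logHeight₁ x - _ ≤ Height.logHeight₁ ((E27 N).toAffine.addX x x
        ((E27 N).toAffine.slope x x y y))
      have h2 : 2 * y + 1 ≠ 0 := by
        intro h
        apply hy
        change y = -y - 0 * x - 1
        linear_combination h
      have h5 : 4 * x ^ 3 + 1 = (2 * y + 1) ^ 2 := by
        rw [← heq]
        ring
      have h3 : (E27 N).toAffine.addX x x ((E27 N).toAffine.slope x x y y) =
          (x ^ 4 - 2 * x) / (4 * x ^ 3 + 1) := by
        have h6 : (E27 N).toAffine.slope x x y y = 3 * x ^ 2 / (2 * y + 1) := by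
          rw [Affine.slope_of_Y_ne rfl hy]
          congr 1
          · simp
          · change y - (-y - 0 * x - 1) = 2 * y + 1
            ring
        rw [h6, Affine.addX, h5]
        have h7 : (E27 N).toAffine.a₁ = 0 := rfl
        have h8 : (E27 N).toAffine.a₂ = 0 := rfl
        rw [h7, h8]
        field_simp
        linear_combination (2 * x) * h5
      rw [h3]
      have h4 := hC x
      linarith

end HT2

theorem finite_of_div {N : Type*} [Field N] [NumberField N] [DecidableEq N]
    (h : ∀ P : (E27 N).toAffine.Point, ∃ Q : (E27 N).toAffine.Point, Q + Q = P) :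
    Finite (E27 N).toAffine.Point := by
  obtain ⟨c, hc0, hc⟩ := HT2_dbl (N := N)
  have : Northcott (HT2_h : (E27 N).toAffine.Point → ℝ) := HT2_northcott
  let f : (E27 N).toAffine.Point →+ (E27 N).toAffine.Point :=
    { toFun := fun P => P + P
      map_zero' := add_zero 0
      map_add' := fun P Q => by abel }
  refine finite_of_fg_of_div (AddGroup.fg_of_descent (f := f) (s := {0}) (h := HT2_h) (a := 1)
    (b := 4) (c := c) ?_ (by norm_num) (by norm_num) (Set.finite_singleton _) ?_ ?_ ?_) h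
  · rintro U _ ⟨P, hP, rfl⟩
    exact U.add_mem hP hP
  · rw [Set.eq_univ_iff_forall]
    intro P
    obtain ⟨Q, hQ⟩ := h P
    exact Set.mem_add.2 ⟨0, rfl, P, ⟨Q, hQ⟩, zero_add P⟩
  · rintro g rfl P
    rw [zero_add, one_mul]
    linarith
  · intro P
    exact hc P

end Pool.Agent.Lib.MP_1a91b9_ntT.S5
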