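import Pool.Agent.Lib.MP_1a91b9_ntT.S5.Defs

/-!
# JOB S5-QuadBasic: existence of the automorphism of a quadratic extension
-/

set_option autoImplicit false

namespace Pool.Agent.Lib.MP_1a91b9_ntT.S5

open IsDedekindDomain NumberField WithZero Module

/-- `1, δ` is a basis of `L` over `K`, and `σ (a + b δ) = a - b δ` is an automorphism (see
`exists_conj` in Pool/Agent/Lib/MP_1a91b9_nt/QuadField.lean, or use that `L / K` is Galois). -/
theorem exists_quad {K L : Type*} [Field K] [CharZero K] [Field L] [Algebra K L] (d : K) (δ : L)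
    (hδ : δ ^ 2 = algebraMap K L d) (h2 : finrank K L = 2)
    (hne : ∀ x : K, algebraMap K L x ≠ δ) : ∃ σ : L ≃ₐ[K] L, Quad K L d δ σ := by
  have hquad : Algebra.IsQuadraticExtension K L := ⟨h2⟩
  have hfd : FiniteDimensional K L := FiniteDimensional.of_finrank_pos (by rw [h2]; norm_num)
  have hgal : IsGalois K L := inferInstance
  have hcL : CharZero L := charZero_of_injective_algebraMap (algebraMap K L).injective
  have h0 : δ ≠ 0 := by
    intro h
    exact hne 0 (by rw [map_zero, h])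
  have hd0 : d ≠ 0 := by
    rintro rfl
    rw [map_zero] at hδ
    exact h0 (pow_eq_zero_iff (two_ne_zero) |>.1 hδ)
  have hex : ∃ σ : L ≃ₐ[K] L, σ δ = -δ := by
    by_contra hcon
    push Not at hcon
    have h1 : ∀ σ : Gal(L/K), σ δ = δ := by
      intro σ
      have h2 : (σ δ) ^ 2 = δ ^ 2 := by
        rw [← map_pow, hδ, AlgEquiv.commutes]
      rcases sq_eq_sq_iff_eq_or_eq_neg.mp h2 with h | h
      · exact h
      · exact absurd h (hcon σ)
    obtain ⟨x, hx⟩ := (IsGalois.mem_range_algebraMap_iff_fixed δ).mpr h1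
    exact hne x hx
  obtain ⟨σ, hσ⟩ := hex
  have hcard : Nat.card Gal(L/K) = 2 := by
    rw [IsGalois.card_aut_eq_finrank, h2]
  have hσ1 : (σ : Gal(L/K)) ≠ 1 := by
    intro h
    have h3 : σ δ = δ := by
      rw [h]
      rfl
    rw [hσ] at h3
    have h4 : (2 : L) * δ = 0 := by linear_combination (-1 : L) * h3
    rcases mul_eq_zero.1 h4 with h5 | h5
    · exact two_ne_zero h5
    · exact h0 h5
  have hinv : ∀ x : L, σ (σ x) = x := by
    intro x
    have h3 : (σ : Gal(L/K)) ^ Nat.card Gal(L/K) = 1 := pow_card_eq_one'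
    rw [hcard, sq] at h3
    have h4 := DFunLike.congr_fun h3 x
    exact h4
  have hfix : ∀ x : L, σ x = x → ∃ y : K, algebraMap K L y = x := by
    intro x hx
    have h3 : ∀ τ : Gal(L/K), τ x = x := by
      intro τ
      by_cases ht : τ = 1
      · rw [ht]
        rfl
      · obtain ⟨y, _, hy⟩ := (Nat.card_eq_two_iff' (1 : Gal(L/K))).1 hcard
        have e1 : τ = y := hy τ ht
        have e2 : σ = y := hy σ hσ1
        rw [e1, ← e2]
        exact hx
    exact (IsGalois.mem_range_algebraMap_iff_fixed x).mpr h3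
  refine ⟨σ, ⟨hδ, h2, hσ, h0, hinv, hfix, ?_⟩⟩
  intro x
  obtain ⟨a, ha⟩ := hfix (x + σ x) (by rw [map_add, hinv, add_comm])
  obtain ⟨b, hb⟩ := hfix ((x - σ x) * δ) (by rw [map_mul, map_sub, hinv, hσ]; ring)
  have hdL : algebraMap K L d ≠ 0 := by
    rw [← hδ]
    exact pow_ne_zero 2 h0
  refine ⟨a / 2, b / (2 * d), ?_⟩
  rw [map_div₀, map_div₀, map_mul, map_ofNat, ha, hb, ← hδ]
  field_simp
  ring

/-- `x` in `K` which is a square in `L = K(√d)` is a square or `d` times a square in `K` -/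
theorem Quad.isSquare_or {K L : Type*} [Field K] [CharZero K] [Field L] [Algebra K L] {d : K}
    {δ : L} {σ : L ≃ₐ[K] L} (h : Quad K L d δ σ) (x : K) (hx : IsSquare (algebraMap K L x)) :
    IsSquare x ∨ ∃ q : K, x = q ^ 2 * d := by
  obtain ⟨y, hy⟩ := hx
  have h0 : σ (algebraMap K L x) = algebraMap K L x := σ.commutes x
  rw [hy, map_mul] at h0
  have h1 : (σ y) ^ 2 = y ^ 2 := by
    linear_combination h0
  rcases sq_eq_sq_iff_eq_or_eq_neg.mp h1 with h2 | h2
  · obtain ⟨z, hz⟩ := h.fixed y h2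
    left
    refine ⟨z, ?_⟩
    apply (algebraMap K L).injective
    rw [hy, map_mul, hz]
  · right
    obtain ⟨q, hq⟩ := h.fixed (y / δ) (by rw [map_div₀, h2, h.conj, neg_div_neg_eq])
    refine ⟨q, ?_⟩
    apply (algebraMap K L).injective
    have h3 : y = algebraMap K L q * δ := by
      rw [hq, div_mul_cancel₀ _ h.ne]
    rw [hy, map_mul, map_pow, ← h.sq, h3]
    ring

/-- Hilbert 90 for a quadratic extension: if `γ * σ γ = 1`, take `ε = 1 + σ γ` if `γ ≠ -1`, and
`ε = δ` if `γ = -1`; then `σ ε = γ * ε`. -/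
theorem Quad.hilbert90 {K L : Type*} [Field K] [CharZero K] [Field L] [Algebra K L] {d : K}
    {δ : L} {σ : L ≃ₐ[K] L} (h : Quad K L d δ σ) (γ : L) (hγ : γ * σ γ = 1) :
    ∃ ε : L, ε ≠ 0 ∧ σ ε = γ * ε := by
  by_cases h1 : γ = -1
  · exact ⟨δ, h.ne, by rw [h.conj, h1]; ring⟩
  · refine ⟨1 + σ γ, ?_, ?_⟩
    · intro h2
      apply h1
      have h3 : σ γ = -1 := by linear_combination h2
      have h4 := congrArg σ h3
      rw [h.invol, map_neg, map_one] at h4
      exact h4
    · rw [map_add, map_one, h.invol]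
      linear_combination -hγ

end Pool.Agent.Lib.MP_1a91b9_ntT.S5
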