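import Pool.Agent.Lib.MP_1a91b9_ntT.S5.CubBasic

/-!
# JOB S5-Half: if `4 x + 2 θ` is a square, the point `(x, y)` is twice a point

Write `4 x + 2 θ = (a + b θ + c θ²)²`. Comparing coordinates (`Cub.indep`):
`a² + 4 b c = 4 x`, `a b + c² = 1`, `b² + 2 a c = 0`. `c ≠ 0` (otherwise `b = 0` and `a b + c² = 0`).
So `a = - b² / (2 c)` and `2 c³ - b³ = 2 c`. The point `Q = (x₁, y₁)`, `x₁ = - b / (2 c)`,
`y₁ = (1 / c - 1) / 2` is on the curve: `4 x₁³ + 1 = (2 y₁ + 1)²`, i.e.
`1 - b³ / (2 c³) = 1 / c²`. The abscissa of `2 Q` is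
`(9 x₁⁴ / (2 y₁ + 1)²) - 2 x₁ = (x₁⁴ - 2 x₁) / (4 x₁³ + 1)
 = c² (b⁴ / (16 c⁴) + b / c) = b⁴ / (16 c²) + b c = (a² + 4 b c) / 4 = x`. So `Q + Q = ± P`; replace
`Q` by `-Q` if necessary (`Affine.Point.add_self_of_Y_ne`, negation is `y ↦ - y - 1`; two points
with the same abscissa are equal or opposite: `Affine.Y_eq_of_X_eq`).
-/

set_option autoImplicit false

namespace Pool.Agent.Lib.MP_1a91b9_ntT.S5

open IsDedekindDomain NumberField WithZero Module

/-- coordinates of a square root of `4 x + 2 θ` -/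
private theorem S5_HF_coords {N A : Type*} [Field N] [CharZero N] [Field A] [Algebra N A]
    {θ : A} (h : Cub N A θ) (x : N) (hs : IsSquare (4 * algebraMap N A x + 2 * θ)) :
    ∃ a b c : N, a ^ 2 + 4 * b * c = 4 * x ∧ a * b + c ^ 2 = 1 ∧ b ^ 2 + 2 * a * c = 0 := by
  obtain ⟨r, hr⟩ := hs
  obtain ⟨a, b, c, hrep⟩ := h.repr r
  refine ⟨a, b, c, ?_⟩
  have h3 : θ ^ 3 = 2 := h.cube
  have key : algebraMap N A (a ^ 2 + 4 * b * c - 4 * x) +
      algebraMap N A (2 * a * b + 2 * c ^ 2 - 2) * θ +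
      algebraMap N A (b ^ 2 + 2 * a * c) * θ ^ 2 = 0 := by
    simp only [map_add, map_sub, map_mul, map_pow, map_ofNat]
    rw [hrep] at hr
    linear_combination (-1 : A) * hr - (2 * algebraMap N A b * algebraMap N A c +
      (algebraMap N A c) ^ 2 * θ) * h3
  obtain ⟨e1, e2, e3⟩ := h.indep _ _ _ key
  have h2 : (2 : N) ≠ 0 := two_ne_zero
  refine ⟨by linear_combination e1, ?_, e3⟩
  apply mul_left_cancel₀ h2
  linear_combination e2

/-- points on the curve with the same abscissa -/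
private theorem S5_HF_double {N : Type*} [Field N] [DecidableEq N] [CharZero N] (x : N)
    (a b c : N) (h0 : a ^ 2 + 4 * b * c = 4 * x) (h1 : a * b + c ^ 2 = 1)
    (h2 : b ^ 2 + 2 * a * c = 0) :
    ∃ Q : (E27 N).toAffine.Point, ∃ (y : N) (hxy : (E27 N).toAffine.Nonsingular x y),
      Q + Q = WeierstrassCurve.Affine.Point.some x y hxy := by
  have two : (2 : N) ≠ 0 := two_ne_zero
  have hc : c ≠ 0 := by
    rintro rfl
    have hb : b = 0 := by
      have : b ^ 2 = 0 := by linear_combination h2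
      exact pow_eq_zero_iff (two_ne_zero) |>.mp this
    subst hb
    simp at h1
  -- `2 c³ - b³ = 2 c`
  have h3 : b ^ 3 = 2 * c ^ 3 - 2 * c := by
    linear_combination b * h2 - 2 * c * h1
  have hns : (E27 N).toAffine.Nonsingular (-b / (2 * c)) ((1 / c - 1) / 2) := by
    rw [WeierstrassCurve.Affine.nonsingular_iff, WeierstrassCurve.Affine.equation_iff]
    refine ⟨?_, Or.inr ?_⟩
    · field_simp
      linear_combination h3
    · intro hh
      have : 1 / c = 0 := by linear_combination hh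
      exact one_div_ne_zero hc this
  have hy : (1 / c - 1) / 2 ≠ (E27 N).toAffine.negY (-b / (2 * c)) ((1 / c - 1) / 2) := by
    simp only [WeierstrassCurve.Affine.negY]
    intro hh
    have : 1 / c = 0 := by linear_combination hh
    exact one_div_ne_zero hc this
  have hadd := WeierstrassCurve.Affine.Point.add_self_of_Y_ne (h₁ := hns) hy
  have hX : (E27 N).toAffine.addX (-b / (2 * c)) (-b / (2 * c))
      ((E27 N).toAffine.slope (-b / (2 * c)) (-b / (2 * c)) ((1 / c - 1) / 2)
        ((1 / c - 1) / 2)) = x := by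
    rw [WeierstrassCurve.Affine.slope_of_Y_ne rfl hy]
    simp only [WeierstrassCurve.Affine.negY, WeierstrassCurve.Affine.addX]
    have e1 : (1 / c - 1) / 2 - (-((1 / c - 1) / 2) - 0 * (-b / (2 * c)) - 1) = 1 / c := by ring
    rw [e1]
    have ha : a = - b ^ 2 / (2 * c) := by
      field_simp
      linear_combination h2
    have hx : x = b ^ 4 / (16 * c ^ 2) + b * c := by
      apply mul_left_cancel₀ (show (4 : N) ≠ 0 by norm_num)
      rw [← h0, ha]
      field_simp
      ring
    rw [hx]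
    field_simp
    linear_combination 128 * b * h3
  have aux : ∀ (P : (E27 N).toAffine.Point) (X Y : N) (h : (E27 N).toAffine.Nonsingular X Y),
      X = x → P + P = WeierstrassCurve.Affine.Point.some X Y h →
      ∃ Q : (E27 N).toAffine.Point, ∃ (y : N) (hxy : (E27 N).toAffine.Nonsingular x y),
        Q + Q = WeierstrassCurve.Affine.Point.some x y hxy := by
    rintro P X Y h rfl h'
    exact ⟨P, Y, h, h'⟩
  exact aux _ _ _ _ hX hadd

theorem exists_half {N A : Type*} [Field N] [DecidableEq N] [CharZero N] [Field A] [Algebra N A]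
    {θ : A} (h : Cub N A θ) (x y : N) (hxy : (E27 N).toAffine.Nonsingular x y)
    (hs : IsSquare (4 * algebraMap N A x + 2 * θ)) :
    ∃ Q : (E27 N).toAffine.Point, Q + Q = WeierstrassCurve.Affine.Point.some x y hxy := by
  obtain ⟨a, b, c, h0, h1, h2⟩ := S5_HF_coords h x hs
  obtain ⟨Q, y', hxy', hQ⟩ := S5_HF_double x a b c h0 h1 h2
  rcases WeierstrassCurve.Affine.Y_eq_of_X_eq hxy'.1 hxy.1 rfl with h | h
  · subst h
    exact ⟨Q, hQ⟩
  · refine ⟨-Q, ?_⟩
    have : -Q + -Q = -(Q + Q) := by abel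
    rw [this, hQ, WeierstrassCurve.Affine.Point.neg_some]
    subst h
    congr 1
    exact WeierstrassCurve.Affine.negY_negY ..

end Pool.Agent.Lib.MP_1a91b9_ntT.S5
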