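import Pool.Agent.Lib.MP_1a91b9_ntT.S5.Defs

/-!
# JOB S5-Zm: squares in the value group `ℤᵐ⁰`

Every non-zero element of `ℤᵐ⁰ = WithZero (Multiplicative ℤ)` is `exp n` for a unique `n : ℤ`
(`WithZero.exp`, `WithZero.log`), `exp (m + n) = exp m * exp n`, `exp` is strictly increasing.
`exp n` is a square iff `n` is even: all statements reduce to parity of integers.
-/

set_option autoImplicit false

namespace Pool.Agent.Lib.MP_1a91b9_ntT.S5

open IsDedekindDomain NumberField WithZero Module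

private theorem Zm_cases (a : ℤᵐ⁰) : a = 0 ∨ ∃ n : ℤ, a = exp n := by
  by_cases h : a = 0
  · exact Or.inl h
  · exact Or.inr ⟨log a, (exp_log h).symm⟩

private theorem Zm_pow (n : ℤ) (e : ℕ) : (exp n : ℤᵐ⁰) ^ e = exp ((e : ℤ) * n) := by
  rw [← exp_nsmul, nsmul_eq_mul]

theorem isSquare_exp (n : ℤ) : IsSquare (exp n : ℤᵐ⁰) ↔ Even n := by
  constructor
  · rintro ⟨r, hr⟩
    rcases Zm_cases r with rfl | ⟨m, rfl⟩
    · rw [mul_zero] at hr
      exact absurd hr exp_ne_zero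
    · rw [← exp_add, exp_inj] at hr
      exact ⟨m, hr⟩
  · rintro ⟨m, rfl⟩
    exact ⟨exp m, exp_add m m⟩

/-- odd roots -/
theorem isSquare_of_pow_odd (a : ℤᵐ⁰) (e : ℕ) (he : Odd e) (h : IsSquare (a ^ e)) :
    IsSquare a := by
  rcases Zm_cases a with rfl | ⟨n, rfl⟩
  · exact ⟨0, (mul_zero 0).symm⟩
  · rw [Zm_pow, isSquare_exp, Int.even_mul] at h
    rw [isSquare_exp]
    rcases h with h | h
    · exfalso
      rw [Int.even_coe_nat] at h
      exact (Nat.not_even_iff_odd.2 he) h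
    · exact h

theorem isSquare_pow_odd (a : ℤᵐ⁰) (e : ℕ) (h : IsSquare a) : IsSquare (a ^ e) := by
  exact h.pow e

theorem isSquare_of_mul {a b : ℤᵐ⁰} (hb : b ≠ 0) (h : IsSquare b) (hab : IsSquare (a * b)) :
    IsSquare a := by
  rcases Zm_cases a with rfl | ⟨n, rfl⟩
  · exact ⟨0, (mul_zero 0).symm⟩
  · rcases Zm_cases b with rfl | ⟨m, rfl⟩
    · exact absurd rfl hb
    · rw [← exp_add, isSquare_exp] at hab
      rw [isSquare_exp] at h ⊢
      rw [Int.even_add] at hab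
      exact hab.2 h

theorem isSquare_inv {a : ℤᵐ⁰} (h : IsSquare a) : IsSquare a⁻¹ := by
  exact h.inv

/-- a square less than one is at most `exp (-2)` -/
theorem isSquare_lt_one {a : ℤᵐ⁰} (h : IsSquare a) (h1 : a < 1) : a ≤ exp (-2 : ℤ) := by
  rcases Zm_cases a with rfl | ⟨n, rfl⟩
  · exact zero_le
  · rw [isSquare_exp] at h
    rw [← exp_zero, exp_lt_exp] at h1
    rw [exp_le_exp]
    obtain ⟨m, hm⟩ := h
    omega

theorem lt_one_iff {a : ℤᵐ⁰} : a < 1 ↔ a ≤ exp (-1 : ℤ) := by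
  rcases Zm_cases a with rfl | ⟨n, rfl⟩
  · constructor
    · intro _
      exact zero_le
    · intro _
      exact zero_lt_one
  · rw [← exp_zero, exp_lt_exp, exp_le_exp]
    omega

/-- used for points with a denominator: `b² = a³` -/
theorem exists_of_sq_eq_cube {a b : ℤᵐ⁰} (ha : a ≠ 0) (h : b ^ 2 = a ^ 3) :
    ∃ m : ℤ, a = exp (2 * m) ∧ b = exp (3 * m) := by
  rcases Zm_cases a with rfl | ⟨n, rfl⟩
  · exact absurd rfl ha
  · rcases Zm_cases b with rfl | ⟨k, rfl⟩
    · rw [zero_pow two_ne_zero, Zm_pow] at h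
      exact absurd h.symm exp_ne_zero
    · rw [Zm_pow, Zm_pow, exp_inj] at h
      push_cast at h
      refine ⟨n / 2, ?_, ?_⟩
      · rw [exp_inj]
        omega
      · rw [exp_inj]
        omega

/-- `b ^ 2 = a ^ 2` etc. -/
theorem pow_left_inj' {a b : ℤᵐ⁰} {n : ℕ} (hn : n ≠ 0) (h : a ^ n = b ^ n) : a = b := by
  rcases Zm_cases a with rfl | ⟨x, rfl⟩
  · rcases Zm_cases b with rfl | ⟨y, rfl⟩
    · rfl
    · rw [zero_pow hn, Zm_pow] at h
      exact absurd h.symm exp_ne_zero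
  · rcases Zm_cases b with rfl | ⟨y, rfl⟩
    · rw [zero_pow hn, Zm_pow] at h
      exact absurd h exp_ne_zero
    · rw [Zm_pow, Zm_pow, exp_inj] at h
      have hn' : (n : ℤ) ≠ 0 := by exact_mod_cast hn
      rw [mul_left_cancel₀ hn' h]

/-- if `a ^ (2 e) = exp (3 m)` then `m` is even (with `exp (3 m)` written `b ^ 3`) -/
theorem isSquare_of_cube_eq_sq_pow {a b : ℤᵐ⁰} {e : ℕ} (hb : b ≠ 0)
    (h : (a ^ 2) ^ e = b ^ 3) : IsSquare b := by
  rcases Zm_cases b with rfl | ⟨k, rfl⟩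
  · exact absurd rfl hb
  · rcases Zm_cases a with rfl | ⟨n, rfl⟩
    · rw [zero_pow two_ne_zero, Zm_pow] at h
      rcases Nat.eq_zero_or_pos e with rfl | he
      · rw [pow_zero, ← exp_zero, exp_inj] at h
        push_cast at h
        rw [isSquare_exp]
        exact ⟨0, by omega⟩
      · rw [zero_pow he.ne'] at h
        exact absurd h.symm exp_ne_zero
    · rw [Zm_pow, Zm_pow, Zm_pow, exp_inj] at h
      push_cast at h
      rw [isSquare_exp]
      have h1 : Even ((3 : ℤ) * k) := by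
        rw [← h]
        exact ⟨(e : ℤ) * n, by ring⟩
      rw [Int.even_mul] at h1
      rcases h1 with h1 | h1
      · exact absurd h1 (by decide)
      · exact h1

end Pool.Agent.Lib.MP_1a91b9_ntT.S5
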