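import Pool.Agent.Lib.MP_1a91b9_ntT.S5.Places
import Pool.Agent.Lib.MP_1a91b9_ntT.S5.Zm

/-!
# JOB S5-NormPar: parity from the norm, when there is only one place

Let `w` be the only place of `A` over `v = below N w`.
(1) If `u : A` and `w(u) ≤ 1` then there is `c : 𝓞 N`, `c ∉ v`, with `c u` an algebraic integer.
    Proof: `J = {c : 𝓞 A | c u ∈ 𝓞 A}` is an ideal of `𝓞 A` not contained in `w`
    (`HeightOneSpectrum.exists_primeCompl_mul_eq_of_integer`: `a u = b` with `a ∉ w`).
    If `J ∩ 𝓞 N ⊆ v` then some prime `Q ⊇ J` of `𝓞 A` has `Q ∩ 𝓞 N = v`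
    (`Ideal.exists_ideal_over_prime_of_isIntegral`), so `Q = w` by uniqueness, contradiction.
(2) Hence `w(u) ≤ 1` implies `v(norm u) ≤ 1`: `norm (c u) = c ^ [A:N] * norm u` is in `𝓞 N`
    (`Algebra.isIntegral_norm`) and `v(c) = 1`.
(3) Hence `w(u) = 1` implies `v(norm u) = 1` (apply (2) to `u` and `u⁻¹`).
(4) `α ≠ 0`, `[A : N] = 3`. Let `π : N` have `v(π) = exp (-1)`, `e = ram N w`, so
    `w(π) = exp (-e)`; let `w(α) = exp (-m)`. Then `u = α ^ e * π ^ (-m)` (zpow) has `w(u) = 1`, so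
    `v(norm α) ^ e = v(π) ^ (3 m) = exp (-3 m)`. If `norm α` is a square then `3 m` is even.
-/

set_option autoImplicit false

namespace Pool.Agent.Lib.MP_1a91b9_ntT.S5

open IsDedekindDomain NumberField WithZero Module

variable {N A : Type*} [Field N] [NumberField N] [Field A] [NumberField A] [Algebra N A]

/-- the ideal of denominators of `u` -/
private def NP_den (u : A) : Ideal (𝓞 A) where
  carrier := {c | ∃ b : 𝓞 A, (algebraMap (𝓞 A) A c) * u = algebraMap (𝓞 A) A b}
  add_mem' := by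
    rintro c c' ⟨b, hb⟩ ⟨b', hb'⟩
    exact ⟨b + b', by rw [map_add, map_add, add_mul, hb, hb']⟩
  zero_mem' := ⟨0, by rw [map_zero, zero_mul]⟩
  smul_mem' := by
    rintro r c ⟨b, hb⟩
    exact ⟨r * b, by rw [smul_eq_mul, map_mul, map_mul, mul_assoc, hb]⟩

private theorem NP_den_exists (w : HeightOneSpectrum (𝓞 A))
    (hu : ∀ w' : HeightOneSpectrum (𝓞 A), below N w' = below N w → w' = w) (u : A)
    (h : w.valuation A u ≤ 1) : ∃ c : 𝓞 N, c ∉ (below N w).asIdeal ∧
      ∃ b : 𝓞 A, algebraMap N A (algebraMap (𝓞 N) N c) * u = algebraMap (𝓞 A) A b := by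
  by_contra hcon
  push Not at hcon
  have hle : (NP_den u).comap (algebraMap (𝓞 N) (𝓞 A)) ≤ (below N w).asIdeal := by
    intro c hc
    by_contra hcv
    rw [Ideal.mem_comap] at hc
    obtain ⟨b, hb⟩ := hc
    refine hcon c hcv b ?_
    rw [← hb, ← IsScalarTower.algebraMap_apply (𝓞 N) N A,
      ← IsScalarTower.algebraMap_apply (𝓞 N) (𝓞 A) A]
  haveI := (below N w).isPrime
  obtain ⟨Q, hQJ, hQp, hQc⟩ := Ideal.exists_ideal_over_prime_of_isIntegral
    (below N w).asIdeal (NP_den u) hle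
  have hQ0 : Q ≠ ⊥ := by
    intro hQ0
    apply (below N w).ne_bot
    rw [← hQc, hQ0, Ideal.comap_bot_of_injective]
    exact FaithfulSMul.algebraMap_injective (𝓞 N) (𝓞 A)
  have h1 : (⟨Q, hQp, hQ0⟩ : HeightOneSpectrum (𝓞 A)) = w := by
    apply hu
    ext1
    exact hQc
  have h2 : Q = w.asIdeal := by rw [← h1]
  obtain ⟨n, d, hd⟩ := HeightOneSpectrum.exists_primeCompl_mul_eq_of_integer w u h
  have h3 : (d : 𝓞 A) ∈ NP_den u := ⟨n, by rw [mul_comm]; exact hd⟩
  have h4 : (d : 𝓞 A) ∈ w.asIdeal := h2.le (hQJ h3)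
  exact d.2 h4

private theorem NP_norm_le (w : HeightOneSpectrum (𝓞 A))
    (hu : ∀ w' : HeightOneSpectrum (𝓞 A), below N w' = below N w → w' = w) (u : A)
    (h : w.valuation A u ≤ 1) : (below N w).valuation N (Algebra.norm N u) ≤ 1 := by
  obtain ⟨c, hc, b, hb⟩ := NP_den_exists w hu u h
  have h1 : Algebra.norm N (algebraMap (𝓞 A) A b) =
      (algebraMap (𝓞 N) N c) ^ finrank N A * Algebra.norm N u := by
    rw [← hb, map_mul, Algebra.norm_algebraMap]
  have h2 : IsIntegral ℤ (Algebra.norm N (algebraMap (𝓞 A) A b)) :=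
    Algebra.isIntegral_norm N (RingOfIntegers.isIntegral_coe b)
  have h3 : (below N w).valuation N (Algebra.norm N (algebraMap (𝓞 A) A b)) ≤ 1 :=
    (below N w).valuation_le_one (K := N) (⟨_, h2⟩ : 𝓞 N)
  have h4 : (below N w).valuation N (algebraMap (𝓞 N) N c) = 1 :=
    ((below N w).valuation_eq_one_iff_notMem (K := N)).2 hc
  rw [h1, map_mul, map_pow, h4, one_pow, one_mul] at h3
  exact h3

theorem norm_unit_of_unique (w : HeightOneSpectrum (𝓞 A))
    (hu : ∀ w' : HeightOneSpectrum (𝓞 A), below N w' = below N w → w' = w) (u : A)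
    (h : w.valuation A u = 1) : (below N w).valuation N (Algebra.norm N u) = 1 := by
  have h1 := NP_norm_le w hu u h.le
  have h2 := NP_norm_le w hu u⁻¹ (by rw [map_inv₀, h, inv_one])
  have hu0 : u ≠ 0 := by
    rintro rfl
    rw [map_zero] at h
    exact zero_ne_one h
  have h3 : Algebra.norm N u * Algebra.norm N u⁻¹ = 1 := by
    rw [← map_mul, mul_inv_cancel₀ hu0, map_one]
  have h4 : (below N w).valuation N (Algebra.norm N u) *
      (below N w).valuation N (Algebra.norm N u⁻¹) = 1 := by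
    rw [← map_mul, h3, map_one]
  refine le_antisymm h1 ?_
  rw [← h4]
  exact mul_le_of_le_one_right' h2

theorem even_of_unique (h3 : finrank N A = 3) (w : HeightOneSpectrum (𝓞 A))
    (hu : ∀ w' : HeightOneSpectrum (𝓞 A), below N w' = below N w → w' = w) (α : A) (h0 : α ≠ 0)
    (hn : IsSquare (Algebra.norm N α)) : IsSquare (w.valuation A α) := by
  obtain ⟨r, hr⟩ := hn
  have hw0 : w.valuation A α ≠ 0 := (Valuation.ne_zero_iff _).2 h0
  obtain ⟨y, hy⟩ := (below N w).valuation_surjective N ((w.valuation A α)⁻¹)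
  have h1 : w.valuation A (α ^ ram N w * algebraMap N A y) = 1 := by
    rw [map_mul, map_pow, val_below, hy, ← mul_pow, mul_inv_cancel₀ hw0, one_pow]
  have h2 := norm_unit_of_unique w hu _ h1
  rw [map_mul, map_pow, Algebra.norm_algebraMap, h3, map_mul, map_pow, map_pow, hy, inv_pow,
    hr, map_mul, ← pow_two] at h2
  refine isSquare_of_cube_eq_sq_pow (a := (below N w).valuation N r) (e := ram N w) hw0 ?_
  exact (mul_inv_eq_one₀ (pow_ne_zero 3 hw0)).1 h2

end Pool.Agent.Lib.MP_1a91b9_ntT.S5
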