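import Pool.Agent.Lib.MP_1a91b9_ntT.S5.Places
import Pool.Agent.Lib.MP_1a91b9_ntT.S5.Zm

/-!
# JOB S5-Three: places above 3

Let `w` be a place of `A` with `w(3) < 1`, `v = below N w`, and let `v(3) = exp n` with `n` not
divisible by 3. Put `η = θ - 2`. Then `η ^ 3 = -6 (η + 1) ^ 2`
(`(η + 2) ^ 3 = 2` expands to `η³ + 6 η² + 12 η + 6 = 0`). `θ` is integral, so `w(η) ≤ 1`, and
`w(η)^3 = w(6) w(η + 1)^2 < 1`, so `w(η) < 1`, `w(η + 1) = 1`, `w(2) = 1` (as `w(3) < 1`:
`1 = 3 - 2`) and `w(η) ^ 3 = w(3) = v(3) ^ e`, `e = ram N w`. So `3` divides `n e`, so `3 ∣ e`; as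
`0 < e ≤ finrank N A = 3`, `e = 3` and `unique_of_ram` applies.
-/

set_option autoImplicit false

namespace Pool.Agent.Lib.MP_1a91b9_ntT.S5

open IsDedekindDomain NumberField WithZero Module

theorem unique_three {N A : Type*} [Field N] [NumberField N] [Field A] [NumberField A]
    [Algebra N A] {θ : A} (h : Cub N A θ) (w w' : HeightOneSpectrum (𝓞 A))
    (h3 : w.valuation A 3 < 1) (ht : ∀ m : ℤ, (below N w).valuation N 3 ≠ exp (3 * m))
    (h' : below N w' = below N w) : w' = w := by
  have hint : ∀ n : ℕ, w.valuation A (n : A) ≤ 1 := by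
    intro n
    have h1 := w.valuation_le_one (K := A) ((n : 𝓞 A))
    simpa using h1
  have hV2 : w.valuation A 2 = 1 := by
    have h2 : w.valuation A 2 ≤ 1 := by
      have := hint 2
      simpa using this
    by_contra hne
    have h2' : w.valuation A 2 < 1 := lt_of_le_of_ne h2 hne
    have h1 : w.valuation A (3 - 2) < 1 := Valuation.map_sub_lt _ h3 h2'
    have e : (3 : A) - 2 = 1 := by norm_num
    rw [e, map_one] at h1
    exact lt_irrefl _ h1
  have hVθ : w.valuation A θ = 1 := by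
    refine pow_left_inj' (n := 3) (by norm_num) ?_
    rw [← map_pow, h.cube, hV2, one_pow]
  set η : A := θ - 2 with hη
  have hcub : η ^ 3 = -(6 * (1 + η) ^ 2) := by
    have e : η ^ 3 = θ ^ 3 - 6 * θ ^ 2 + 12 * θ - 8 := by rw [hη]; ring
    rw [e, h.cube, hη]
    ring
  have hVη1 : w.valuation A η ≤ 1 := Valuation.map_sub_le (v := w.valuation A) hVθ.le hV2.le
  have hV1η : w.valuation A (1 + η) ≤ 1 :=
    (Valuation.map_add_le (v := w.valuation A) (map_one _).le hVη1)
  have hV6 : w.valuation A 6 = w.valuation A 3 := by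
    have e : (6 : A) = 2 * 3 := by norm_num
    rw [e, map_mul, hV2, one_mul]
  have hpow : w.valuation A η ^ 3 = w.valuation A 3 * w.valuation A (1 + η) ^ 2 := by
    rw [← map_pow, hcub, Valuation.map_neg, map_mul, map_pow, hV6]
  have hVηlt : w.valuation A η < 1 := by
    by_contra hge
    have h1 : w.valuation A η = 1 := le_antisymm hVη1 (not_lt.1 hge)
    rw [h1, one_pow] at hpow
    have h2 : w.valuation A 3 * w.valuation A (1 + η) ^ 2 ≤ w.valuation A 3 * 1 :=
      mul_le_mul' le_rfl (pow_le_one' hV1η 2)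
    rw [← hpow, mul_one] at h2
    exact absurd (lt_of_le_of_lt h2 h3) (lt_irrefl _)
  have hV1 : w.valuation A (1 + η) = 1 := Valuation.map_one_add_of_lt _ hVηlt
  rw [hV1, one_pow, mul_one] at hpow
  have h3N : w.valuation A 3 = (below N w).valuation N 3 ^ ram N w := by
    have e : algebraMap N A 3 = 3 := map_ofNat (algebraMap N A) 3
    rw [← val_below, e]
  set b := (below N w).valuation N 3 with hb
  have h30 : (3 : N) ≠ 0 := by norm_num
  have hb0 : b ≠ 0 := by
    rw [hb]
    exact (Valuation.ne_zero_iff _).2 h30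
  have hVη0 : w.valuation A η ≠ 0 := by
    intro h0
    rw [h0, h3N, zero_pow (by norm_num)] at hpow
    exact pow_ne_zero _ hb0 hpow.symm
  have hlog : 3 * log (w.valuation A η) = (ram N w : ℤ) * log b := by
    have h1 := congrArg log (hpow.trans h3N)
    rw [log_pow, log_pow] at h1
    simpa using h1
  have hn3 : ¬ (3 : ℤ) ∣ log b := by
    rintro ⟨m, hm⟩
    exact ht m (by rw [← hm, exp_log hb0])
  have hdvd : (3 : ℤ) ∣ (ram N w : ℤ) := by
    have h1 : (3 : ℤ) ∣ (ram N w : ℤ) * log b := ⟨_, hlog.symm⟩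
    exact (Int.prime_three.dvd_or_dvd h1).resolve_right hn3
  have hdvd' : 3 ∣ ram N w := by exact_mod_cast hdvd
  have hle := ram_le N w
  have hpos := ram_pos N w
  refine unique_of_ram N w w' ?_ h'
  rw [h.deg] at hle ⊢
  omega

end Pool.Agent.Lib.MP_1a91b9_ntT.S5
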