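import Pool.Agent.Lib.MP_1a91b9_ntT.S5.SelBasic
import Pool.Agent.Lib.MP_1a91b9_ntT.S5.Three
import Pool.Agent.Lib.MP_1a91b9_ntT.S5.NormPar

/-!
# JOB S5-Image: the image of a point satisfies the Selmer condition

`x y : N`, `y² + y = x³`, `α = 4 x + 2 θ : A`, so `(2 y + 1)² = 4 x³ + 1` and
`16 (2 y + 1)² = α β`, `β = (4 x)² - 8 x θ + 4 θ²`.
-/

set_option autoImplicit false

namespace Pool.Agent.Lib.MP_1a91b9_ntT.S5

open IsDedekindDomain NumberField WithZero Module

variable {N A : Type*} [Field N] [NumberField N] [Field A] [NumberField A] [Algebra N A] {θ : A}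

/-- `α = 0` would give `θ = -2 x`, against `h.gen`. -/
theorem image_ne_zero (h : Cub N A θ) (x : N) : 4 * algebraMap N A x + 2 * θ ≠ 0 := by
  intro h0
  refine h.gen (-2 * x) ?_
  have h2 : (2 : A) ≠ 0 := two_ne_zero
  apply mul_left_cancel₀ h2
  rw [map_mul, map_neg, map_ofNat]
  linear_combination -h0

/-- `Cub.norm_eq` with `(a, b, c) = (4 x, 2, 0)`: `64 x³ + 16 = (4 (2 y + 1))²`. -/
theorem image_norm (h : Cub N A θ) (x y : N) (hxy : y ^ 2 + y = x ^ 3) :
    IsSquare (Algebra.norm N (4 * algebraMap N A x + 2 * θ)) := by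
  have h1 := h.norm_eq (4 * x) 2 0
  have h2 : algebraMap N A (4 * x) + algebraMap N A 2 * θ + algebraMap N A 0 * θ ^ 2 =
      4 * algebraMap N A x + 2 * θ := by
    rw [map_mul, map_ofNat, map_ofNat, map_zero]
    ring
  rw [h2] at h1
  refine ⟨4 * (2 * y + 1), ?_⟩
  rw [h1]
  linear_combination -64 * hxy

/-- Put `X = 4 x`. If `w(X) > 1`: `w(α) = w(X)` (`w(2 θ) = 1`, as `w(θ)³ = w(2) = 1`) and
`w(4(2y+1))² = w(X³ + 16) = w(X)³`, so `w(X)` is a square (`exists_of_sq_eq_cube`).
If `w(X) ≤ 1` then `w(α) ≤ 1`; if `w(α) = 1` done; if `w(α) < 1`: `β = α (X - 4 θ) + 12 θ²`, so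
`w(β) = w(12 θ²) = 1` and `w(α) = w(α β) = w(4 (2y+1))²`. -/
theorem image_val (h : Cub N A θ) (x y : N) (hxy : y ^ 2 + y = x ^ 3)
    (w : HeightOneSpectrum (𝓞 A)) (h2 : w.valuation A 2 = 1) (h3 : w.valuation A 3 = 1) :
    IsSquare (w.valuation A (4 * algebraMap N A x + 2 * θ)) := by
  have hθ : w.valuation A θ = 1 := by
    apply pow_left_inj' (n := 3) (by norm_num)
    rw [← map_pow, h.cube, h2, one_pow]
  set X : A := 4 * algebraMap N A x with hX
  set Y : A := 4 * (2 * algebraMap N A y + 1) with hY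
  have hxy' : (algebraMap N A y) ^ 2 + algebraMap N A y = (algebraMap N A x) ^ 3 := by
    rw [← map_pow, ← map_pow, ← map_add, hxy]
  have hYX : Y ^ 2 = X ^ 3 + 16 := by
    rw [hX, hY]
    linear_combination 64 * hxy'
  have h16 : w.valuation A 16 = 1 := by
    rw [show (16 : A) = 2 ^ 4 by norm_num, map_pow, h2, one_pow]
  have h4 : w.valuation A 4 = 1 := by
    rw [show (4 : A) = 2 ^ 2 by norm_num, map_pow, h2, one_pow]
  have h2θ : w.valuation A (2 * θ) = 1 := by rw [map_mul, h2, hθ, one_mul]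
  rcases lt_or_ge 1 (w.valuation A X) with hX1 | hX1
  · have h5 : w.valuation A (X + 2 * θ) = w.valuation A X := by
      apply Valuation.map_add_eq_of_lt_left
      rw [h2θ]
      exact hX1
    rw [h5]
    have h6 : w.valuation A (X ^ 3 + 16) = w.valuation A (X ^ 3) := by
      apply Valuation.map_add_eq_of_lt_left
      rw [h16, map_pow]
      exact one_lt_pow₀ hX1 (by norm_num)
    have h7 : w.valuation A Y ^ 2 = w.valuation A X ^ 3 := by
      rw [← map_pow, hYX, h6, map_pow]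
    obtain ⟨m, hm, _⟩ := exists_of_sq_eq_cube (ne_of_gt (lt_trans zero_lt_one hX1)) h7
    rw [hm, isSquare_exp]
    exact even_two_mul m
  · have h5 : w.valuation A (X + 2 * θ) ≤ 1 :=
      (Valuation.map_add _ _ _).trans (max_le hX1 h2θ.le)
    rcases h5.eq_or_lt with h6 | h6
    · rw [h6]
      exact ⟨1, (mul_one 1).symm⟩
    · have h7 : w.valuation A (X - 4 * θ) ≤ 1 := by
        refine (Valuation.map_sub _ _ _).trans (max_le hX1 ?_)
        rw [map_mul, h4, hθ, one_mul]
      have h8 : w.valuation A (12 * θ ^ 2) = 1 := by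
        rw [show (12 : A) = 4 * 3 by norm_num, map_mul, map_mul, h4, h3, map_pow, hθ]
        simp
      have h9 : w.valuation A ((X + 2 * θ) * (X - 4 * θ)) < w.valuation A (12 * θ ^ 2) := by
        rw [h8, map_mul]
        calc w.valuation A (X + 2 * θ) * w.valuation A (X - 4 * θ)
            ≤ w.valuation A (X + 2 * θ) * 1 := mul_le_mul_right h7 _
          _ < 1 := by rw [mul_one]; exact h6
      have h10 : w.valuation A ((X + 2 * θ) * (X - 4 * θ) + 12 * θ ^ 2) = 1 := by
        rw [Valuation.map_add_eq_of_lt_right _ h9, h8]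
      refine ⟨w.valuation A Y, ?_⟩
      rw [← map_mul, show Y * Y = (X + 2 * θ) * ((X + 2 * θ) * (X - 4 * θ) + 12 * θ ^ 2) by
        linear_combination hYX - 8 * h.cube, map_mul, h10, mul_one]

/-- Let `v = below N w`, `w(θ) = exp (-a)`, `a ≥ 1`, `w(2) = exp (-3 a)`.
Case `w(x) ≤ 1`: `s = θ⁻²`, `α s² - 1 = x θ²` (`α = 2 θ (1 + 2 x / θ) = θ⁴ (1 + x θ²)`).
Case `w(x) > 1`, so `v(x) > 1`: then `v(y)² = v(x)³` so `v(x) = exp (2 m)`, `m ≥ 1`, and
`v(4 x) = exp (2 m - 2) ≥ 1` (`v(2) = exp (-1)`), so `w(4 x) ≥ 1` (`val_below`); `s = x / (2 y)`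
satisfies `α s² = (1 + 1 / y) (1 + θ / (2 x))`, since `4 x s² = x³ / y² = 1 + 1 / y`.
`w(1 / y) ≤ exp (-3)` (`w(y)² = w(x)³`), and
`w(θ / (2 x)) = w(2 θ) / w(4 x) ≤ w(2 θ) = exp (-4 a) ≤ exp (-2)`. -/
theorem image_two (h : Cub N A θ) (x y : N) (hxy : y ^ 2 + y = x ^ 3)
    (hunr : ∀ v : HeightOneSpectrum (𝓞 N), v.valuation N 2 < 1 →
      v.valuation N 2 = exp (-1 : ℤ))
    (w : HeightOneSpectrum (𝓞 A)) (h2 : w.valuation A 2 < 1) :
    ∃ s : A, w.valuation A ((4 * algebraMap N A x + 2 * θ) * s ^ 2 - 1) ≤ exp (-2 : ℤ) := by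
  have hθ0 : θ ≠ 0 := h.ne_zero
  set V := w.valuation A with hV
  have hVθ : V θ ^ 3 = V 2 := by rw [← map_pow, h.cube]
  have hVθ1 : V θ < 1 := by
    by_contra hc
    push Not at hc
    have h1 : 1 ≤ V θ ^ 3 := one_le_pow₀ hc
    rw [hVθ] at h1
    exact absurd h2 (not_lt.mpr h1)
  have hVθe : V θ ≤ exp (-1 : ℤ) := lt_one_iff.mp hVθ1
  rcases le_or_gt (V (algebraMap N A x)) 1 with hx | hx
  · refine ⟨(θ⁻¹) ^ 2, ?_⟩
    have e1 : (4 * algebraMap N A x + 2 * θ) * ((θ⁻¹) ^ 2) ^ 2 - 1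
        = θ ^ 2 * algebraMap N A x := by
      have h4 : (4 : A) = θ ^ 6 := by
        calc (4 : A) = 2 ^ 2 := by norm_num
          _ = (θ ^ 3) ^ 2 := by rw [h.cube]
          _ = θ ^ 6 := by ring
      rw [h4, h.cube.symm]
      field_simp
      ring
    rw [e1, map_mul, map_pow]
    calc V θ ^ 2 * V (algebraMap N A x) ≤ (exp (-1 : ℤ)) ^ 2 * 1 :=
          mul_le_mul' (pow_le_pow_left₀ zero_le hVθe 2) hx
      _ = exp (-2 : ℤ) := by rw [mul_one, ← exp_nsmul]; norm_num
  · set v := (below N w).valuation N with hv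
    have hval : ∀ t : N, V (algebraMap N A t) = v t ^ ram N w := fun t => val_below N w t
    have he : 0 < ram N w := ram_pos N w
    have hvx : 1 < v x := by
      by_contra hc
      push Not at hc
      rw [hval] at hx
      exact absurd hx (not_lt.mpr (pow_le_one₀ zero_le hc))
    have hv2 : v 2 < 1 := by
      by_contra hc
      push Not at hc
      have h1 : V (algebraMap N A 2) = v 2 ^ ram N w := hval 2
      rw [map_ofNat] at h1
      rw [h1] at h2
      exact absurd h2 (not_lt.mpr (one_le_pow₀ hc))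
    have hv2' : v 2 = exp (-1 : ℤ) := hunr _ hv2
    have hvx0 : v x ≠ 0 := (lt_trans zero_lt_one hvx).ne'
    have hx0 : x ≠ 0 := by
      rintro rfl
      simp at hvx0
    have hvy : 1 < v y := by
      by_contra hc
      push Not at hc
      have h1 : v (y ^ 2 + y) ≤ 1 := by
        refine le_trans (v.map_add _ _) (max_le ?_ hc)
        rw [map_pow]
        exact pow_le_one₀ zero_le hc
      rw [hxy, map_pow] at h1
      have h3 : 1 < v x ^ 3 := one_lt_pow₀ hvx (by norm_num)
      exact absurd h3 (not_lt.mpr h1)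
    have hy0 : y ≠ 0 := by
      rintro rfl
      simp at hvy
    have hvyx : v y ^ 2 = v x ^ 3 := by
      have h1 : v y < v (y ^ 2) := by
        rw [map_pow, pow_two]
        exact lt_mul_of_one_lt_left (lt_trans zero_lt_one hvy) hvy
      have h3 : v (y ^ 2 + y) = v (y ^ 2) := Valuation.map_add_eq_of_lt_left v h1
      rw [hxy, map_pow, map_pow] at h3
      exact h3.symm
    obtain ⟨m, hm1, hm2⟩ := exists_of_sq_eq_cube hvx0 hvyx
    have hm : 1 ≤ m := by
      rw [hm1, ← exp_zero, exp_lt_exp] at hvx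
      omega
    have hX0 : algebraMap N A x ≠ 0 := (map_ne_zero _).mpr hx0
    have hY0 : algebraMap N A y ≠ 0 := (map_ne_zero _).mpr hy0
    have hXY : (algebraMap N A y) ^ 2 + algebraMap N A y = (algebraMap N A x) ^ 3 := by
      rw [← map_pow, ← map_pow, ← map_add, hxy]
    have h4x : 1 ≤ V (4 * algebraMap N A x) := by
      have h1 : (4 : A) * algebraMap N A x = algebraMap N A (4 * x) := by
        rw [map_mul, map_ofNat]
      rw [h1, hval]
      apply one_le_pow₀
      have h4 : (4 : N) = 2 ^ 2 := by norm_num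
      rw [map_mul, h4, map_pow, hv2', hm1, ← exp_nsmul, ← exp_add, ← exp_zero, exp_le_exp]
      simp only [nsmul_eq_mul, Nat.cast_ofNat]
      omega
    refine ⟨algebraMap N A x / (2 * algebraMap N A y), ?_⟩
    have e1 : (4 * algebraMap N A x + 2 * θ) * (algebraMap N A x / (2 * algebraMap N A y)) ^ 2 - 1
        = (algebraMap N A y)⁻¹ + (2 * θ) * (4 * algebraMap N A x)⁻¹ +
          (2 * θ) * (4 * algebraMap N A x)⁻¹ * (algebraMap N A y)⁻¹ := by
      have e2 : (4 * algebraMap N A x + 2 * θ) *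
          (algebraMap N A x / (2 * algebraMap N A y)) ^ 2 =
          (4 * algebraMap N A x + 2 * θ) * (algebraMap N A x) ^ 3 /
            (4 * algebraMap N A x * (algebraMap N A y) ^ 2) := by
        field_simp
        norm_num
      rw [e2, ← hXY]
      field_simp
      ring
    have b1 : V ((algebraMap N A y)⁻¹) ≤ exp (-2 : ℤ) := by
      rw [map_inv₀, hval, hm2, ← exp_nsmul, ← exp_neg, exp_le_exp, nsmul_eq_mul]
      have h1 : (1 : ℤ) ≤ (ram N w : ℤ) := by exact_mod_cast he
      nlinarith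
    have b2 : V ((2 * θ) * (4 * algebraMap N A x)⁻¹) ≤ exp (-2 : ℤ) := by
      rw [map_mul, map_inv₀]
      have h1 : V (2 * θ) ≤ exp (-2 : ℤ) := by
        rw [map_mul, ← hVθ, ← pow_succ]
        calc V θ ^ (3 + 1) ≤ (exp (-1 : ℤ)) ^ (3 + 1) := pow_le_pow_left₀ zero_le hVθe _
          _ = exp (-4 : ℤ) := by rw [← exp_nsmul]; norm_num
          _ ≤ exp (-2 : ℤ) := by rw [exp_le_exp]; norm_num
      calc V (2 * θ) * (V (4 * algebraMap N A x))⁻¹ ≤ exp (-2 : ℤ) * 1 :=
            mul_le_mul' h1 (inv_le_one_of_one_le₀ h4x)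
        _ = exp (-2 : ℤ) := mul_one _
    have b3 : V ((2 * θ) * (4 * algebraMap N A x)⁻¹ * (algebraMap N A y)⁻¹) ≤ exp (-2 : ℤ) := by
      rw [map_mul V ((2 * θ) * (4 * algebraMap N A x)⁻¹)]
      have h1 : V ((algebraMap N A y)⁻¹) ≤ 1 := by
        refine le_trans b1 ?_
        rw [← exp_zero, exp_le_exp]
        norm_num
      calc _ ≤ exp (-2 : ℤ) * 1 := mul_le_mul' b2 h1
        _ = exp (-2 : ℤ) := mul_one _
    rw [e1]
    exact le_trans (V.map_add _ _) (max_le (le_trans (V.map_add _ _) (max_le b1 b2)) b3)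

/-- everything together. `val` at `w(2) < 1` follows from `image_two`
(`w(α s²) = 1`), at `w(3) < 1` from `unique_three` and `even_of_unique`, otherwise `image_val`. -/
theorem image_sel (h : Cub N A θ) (hunr : ∀ v : HeightOneSpectrum (𝓞 N), v.valuation N 2 < 1 →
      v.valuation N 2 = exp (-1 : ℤ))
    (ht : ∀ v : HeightOneSpectrum (𝓞 N), v.valuation N 3 < 1 →
      ∀ m : ℤ, v.valuation N 3 ≠ exp (3 * m))
    (x y : N) (hxy : y ^ 2 + y = x ^ 3) :
    Sel N A (4 * algebraMap N A x + 2 * θ) := by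
  have h0 := image_ne_zero h x
  refine ⟨h0, image_norm h x y hxy, ?_, fun w h2 => image_two h x y hxy hunr w h2⟩
  intro w
  set V := w.valuation A with hV
  have hle2 : V 2 ≤ 1 := by
    have h1 := w.valuation_le_one (K := A) (2 : 𝓞 A)
    exact h1
  have hle3 : V 3 ≤ 1 := by
    have h1 := w.valuation_le_one (K := A) (3 : 𝓞 A)
    exact h1
  rcases lt_or_eq_of_le hle2 with h2 | h2
  · obtain ⟨s, hs⟩ := image_two h x y hxy hunr w h2
    rw [← hV] at hs
    have hlt : V ((4 * algebraMap N A x + 2 * θ) * s ^ 2 - 1) < 1 := by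
      refine lt_of_le_of_lt hs ?_
      rw [← exp_zero, exp_lt_exp]
      norm_num
    have h1 : V ((4 * algebraMap N A x + 2 * θ) * s ^ 2) = 1 := by
      have h3 : (4 * algebraMap N A x + 2 * θ) * s ^ 2 =
          1 + ((4 * algebraMap N A x + 2 * θ) * s ^ 2 - 1) := by ring
      rw [h3]
      exact Valuation.map_one_add_of_lt V hlt
    rw [map_mul, map_pow] at h1
    have hs0 : V s ^ 2 ≠ 0 := by
      intro h3
      rw [h3, mul_zero] at h1
      exact zero_ne_one h1
    refine isSquare_of_mul (b := V s ^ 2) hs0 ⟨V s, pow_two _⟩ ?_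
    rw [h1]
    exact ⟨1, (mul_one 1).symm⟩
  · rcases lt_or_eq_of_le hle3 with h3 | h3
    · have hb : (below N w).valuation N 3 < 1 := by
        by_contra hc
        push Not at hc
        have h1 : V (algebraMap N A 3) = (below N w).valuation N 3 ^ ram N w := val_below N w 3
        rw [map_ofNat] at h1
        rw [h1] at h3
        exact absurd h3 (not_lt.mpr (one_le_pow₀ hc))
      exact even_of_unique h.deg w (fun w' hw' => unique_three h w w' h3 (ht _ hb) hw') _ h0
        (image_norm h x y hxy)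
    · exact image_val h x y hxy w h2 h3

end Pool.Agent.Lib.MP_1a91b9_ntT.S5
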