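import Pool.Agent.Lib.MP_1a91b9_ntT.S5.Defs

/-!
# JOB S5-Places: basic facts on places in an extension `L / K` of number fields

Mathlib: `HeightOneSpectrum.valuation_liesOver` (in `NumberTheory/RamificationInertia/Valuation`),
`Ideal.IsDedekindDomain.ramificationIdx'_ne_zero_of_liesOver`,
`Ideal.exists_maximal_ideal_liesOver_of_isIntegral`,
`ramificationIdx'_eq_ramificationIdx'`, `Ideal.sum_ramification_inertia`
(`NumberTheory/RamificationInertia/Basic`, deprecated but usable) or
`Ideal.sum_ramification_inertia_eq_finrank` (`RingTheory/RamificationInertia/Basic`).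
See also Pool/Agent/Lib/MP_1a91b9_nt/S4Place.lean, QuadField.lean for examples.
-/

set_option autoImplicit false

namespace Pool.Agent.Lib.MP_1a91b9_ntT.S5

open IsDedekindDomain NumberField WithZero Module

variable (K : Type*) {L : Type*} [Field K] [NumberField K] [Field L] [NumberField L] [Algebra K L]

private theorem PL_over (w : HeightOneSpectrum (𝓞 L)) : w.asIdeal.LiesOver (below K w).asIdeal :=
  ⟨rfl⟩

theorem mem_below (w : HeightOneSpectrum (𝓞 L)) (x : 𝓞 K) :
    x ∈ (below K w).asIdeal ↔ algebraMap (𝓞 K) (𝓞 L) x ∈ w.asIdeal := by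
  exact Iff.rfl

theorem val_below (w : HeightOneSpectrum (𝓞 L)) (x : K) :
    w.valuation L (algebraMap K L x) = (below K w).valuation K x ^ ram K w := by
  have := PL_over K w
  exact (HeightOneSpectrum.valuation_liesOver L (below K w) w x).symm

theorem ram_pos (w : HeightOneSpectrum (𝓞 L)) : 0 < ram K w := by
  have := PL_over K w
  exact Nat.pos_of_ne_zero
    (Ideal.IsDedekindDomain.ramificationIdx'_ne_zero_of_liesOver w.asIdeal (below K w).ne_bot)

theorem exists_above (L : Type*) [Field L] [NumberField L] [Algebra K L]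
    (v : HeightOneSpectrum (𝓞 K)) : ∃ w : HeightOneSpectrum (𝓞 L), below K w = v := by
  have : v.asIdeal.IsMaximal := v.isMaximal
  obtain ⟨Q, hQm, hQ⟩ := Ideal.exists_maximal_ideal_liesOver_of_isIntegral (S := 𝓞 L) v.asIdeal
  have hne : Q ≠ ⊥ := Ideal.ne_bot_of_liesOver_of_ne_bot v.ne_bot Q
  refine ⟨⟨Q, hQm.isPrime, hne⟩, ?_⟩
  apply HeightOneSpectrum.ext
  exact hQ.over.symm

/-- `Σ e f = [L : K]` -/
theorem ram_le (w : HeightOneSpectrum (𝓞 L)) : ram K w ≤ finrank K L := by
  have := PL_over K w
  have : (below K w).asIdeal.IsMaximal := (below K w).isMaximal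
  have hb := (below K w).ne_bot
  have hsum := Ideal.sum_ramification_inertia (𝓞 L) K L hb
  have hw := PL_over K w
  have h1 : w.asIdeal ∈ IsDedekindDomain.primesOverFinset (below K w).asIdeal (𝓞 L) :=
    (IsDedekindDomain.mem_primesOverFinset_iff hb _).mpr ⟨w.isPrime, hw⟩
  rw [← Finset.add_sum_erase _ _ h1] at hsum
  have f1 : 0 < (below K w).asIdeal.inertiaDeg' w.asIdeal := Ideal.inertiaDeg'_pos _ _
  have h5 : (below K w).asIdeal.ramificationIdx' w.asIdeal ≤
      (below K w).asIdeal.ramificationIdx' w.asIdeal * (below K w).asIdeal.inertiaDeg' w.asIdeal :=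
    Nat.le_mul_of_pos_right _ f1
  show (below K w).asIdeal.ramificationIdx' w.asIdeal ≤ finrank K L
  omega

/-- `Σ e f = [L : K]`: a totally ramified place is the only one over its restriction. -/
theorem unique_of_ram (w w' : HeightOneSpectrum (𝓞 L)) (h : ram K w = finrank K L)
    (h' : below K w' = below K w) : w' = w := by
  by_contra hne
  have hw := PL_over K w
  have hw' : w'.asIdeal.LiesOver (below K w).asIdeal := h' ▸ PL_over K w'
  have : (below K w).asIdeal.IsMaximal := (below K w).isMaximal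
  have hb := (below K w).ne_bot
  have hsum := Ideal.sum_ramification_inertia (𝓞 L) K L hb
  have h1 : w.asIdeal ∈ IsDedekindDomain.primesOverFinset (below K w).asIdeal (𝓞 L) :=
    (IsDedekindDomain.mem_primesOverFinset_iff hb _).mpr ⟨w.isPrime, hw⟩
  have h2 : w'.asIdeal ∈ (IsDedekindDomain.primesOverFinset (below K w).asIdeal (𝓞 L)).erase w.asIdeal := by
    rw [Finset.mem_erase]
    exact ⟨fun h3 => hne (HeightOneSpectrum.ext h3),
      (IsDedekindDomain.mem_primesOverFinset_iff hb _).mpr ⟨w'.isPrime, hw'⟩⟩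
  rw [← Finset.add_sum_erase _ _ h1, ← Finset.add_sum_erase _ _ h2] at hsum
  have e1 : 0 < (below K w).asIdeal.ramificationIdx' w.asIdeal := Nat.pos_of_ne_zero
    (Ideal.IsDedekindDomain.ramificationIdx'_ne_zero_of_liesOver w.asIdeal hb)
  have e2 : 0 < (below K w).asIdeal.ramificationIdx' w'.asIdeal := Nat.pos_of_ne_zero
    (Ideal.IsDedekindDomain.ramificationIdx'_ne_zero_of_liesOver w'.asIdeal hb)
  have f1 : 0 < (below K w).asIdeal.inertiaDeg' w.asIdeal := Ideal.inertiaDeg'_pos _ _
  have f2 : 0 < (below K w).asIdeal.inertiaDeg' w'.asIdeal := Ideal.inertiaDeg'_pos _ _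
  have h4 : (below K w).asIdeal.ramificationIdx' w.asIdeal = finrank K L := h
  have h5 : finrank K L ≤ (below K w).asIdeal.ramificationIdx' w.asIdeal *
      (below K w).asIdeal.inertiaDeg' w.asIdeal := by
    rw [h4]
    exact Nat.le_mul_of_pos_right _ f1
  have h6 : 0 < (below K w).asIdeal.ramificationIdx' w'.asIdeal *
      (below K w).asIdeal.inertiaDeg' w'.asIdeal := Nat.mul_pos e2 f2
  omega

theorem below_below (K : Type*) {L M : Type*} [Field K] [NumberField K] [Field L] [NumberField L]
    [Field M] [NumberField M] [Algebra K L] [Algebra K M] [Algebra L M] [IsScalarTower K L M]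
    (w : HeightOneSpectrum (𝓞 M)) : below K (below L w) = below K w := by
  apply HeightOneSpectrum.ext
  ext x
  rw [mem_below, mem_below, mem_below]
  have h : algebraMap (𝓞 L) (𝓞 M) (algebraMap (𝓞 K) (𝓞 L) x) = algebraMap (𝓞 K) (𝓞 M) x := by
    apply RingOfIntegers.ext
    exact (IsScalarTower.algebraMap_apply K L M (x : K)).symm
  rw [h]

end Pool.Agent.Lib.MP_1a91b9_ntT.S5
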