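import Pool.Agent.Lib.MP_1a91b9_ntT.S5.StepDefs
import Pool.Agent.Lib.MP_1a91b9_ntT.S5.Places
import Pool.Agent.Lib.MP_1a91b9_ntT.S5.Zm
import Pool.Agent.Lib.MP_1a91b9_ntT.S5.QuadBasic

/-!
# JOB S5-CubExist: existence of the cubic fields
-/

set_option autoImplicit false

namespace Pool.Agent.Lib.MP_1a91b9_ntT.S5

open IsDedekindDomain NumberField WithZero Module

universe u

private theorem ce1_not_unit (N : Type u) [Field N] [NumberField N] :
    ¬ IsUnit (2 : 𝓞 N) := by
  intro hu
  obtain ⟨b, hb⟩ := hu.exists_right_inv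
  have h1 : (2 : N) * (b : N) = 1 := by
    have := congrArg (algebraMap (𝓞 N) N) hb
    rw [map_mul, map_one, map_ofNat] at this
    exact this
  have h2 : (b : N) = algebraMap ℚ N (1 / 2) := by
    have h20 : (2 : N) ≠ 0 := two_ne_zero
    rw [map_div₀, map_one, map_ofNat]
    field_simp
    rw [mul_comm]
    exact h1
  have h3 : IsIntegral ℤ (b : N) := b.2
  rw [h2, isIntegral_algebraMap_iff (algebraMap ℚ N).injective] at h3
  obtain ⟨z, hz⟩ := (IsIntegrallyClosed.isIntegral_iff (R := ℤ) (K := ℚ)).mp h3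
  have h4 : (2 : ℚ) * (z : ℚ) = 1 := by
    have : (z : ℚ) = 1 / 2 := by simpa using hz
    rw [this]; norm_num
  have h5 : (2 : ℤ) * z = 1 := by exact_mod_cast h4
  omega

/-- There is a place `v` above 2 (`exists_above ℚ N` of the place 2 of `ℚ`, or: `2` is not a unit of
`𝓞 N`, take a maximal ideal containing `2`). If `x ^ 3 = 2` then `v(x) ^ 3 = exp (-1)`. -/
theorem not_cube (N : Type u) [Field N] [NumberField N]
    (h : ∀ v : HeightOneSpectrum (𝓞 N), v.valuation N 2 < 1 → v.valuation N 2 = exp (-1 : ℤ))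
    (x : N) : x ^ 3 ≠ 2 := by
  intro hx
  have hne : (Ideal.span {(2 : 𝓞 N)}) ≠ ⊤ := by
    intro ht
    exact ce1_not_unit N (Ideal.span_singleton_eq_top.mp ht)
  obtain ⟨M, hM, hle⟩ := Ideal.exists_le_maximal _ hne
  have hM2 : (2 : 𝓞 N) ∈ M := hle (Ideal.mem_span_singleton_self _)
  have h20 : (2 : 𝓞 N) ≠ 0 := two_ne_zero
  let v : HeightOneSpectrum (𝓞 N) := ⟨M, hM.isPrime, fun hb => by
    rw [hb, Ideal.mem_bot] at hM2
    exact h20 hM2⟩
  have hv2 : v.valuation N 2 < 1 := by
    have := (v.valuation_lt_one_iff_mem (K := N) (2 : 𝓞 N)).mpr hM2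
    have e2 : algebraMap (𝓞 N) N 2 = 2 := map_ofNat _ 2
    rw [← e2]
    exact this
  have hv := h v hv2
  have hc : (v.valuation N x) ^ 3 = exp (-1 : ℤ) := by
    rw [← map_pow, hx, hv]
  have hx0 : v.valuation N x ≠ 0 := by
    intro h0
    rw [h0, zero_pow (by norm_num)] at hc
    exact exp_ne_zero hc.symm
  have he : v.valuation N x = exp (log (v.valuation N x)) := (exp_log hx0).symm
  rw [he, ← exp_nsmul] at hc
  have := exp_injective hc
  simp at this
  omega

/-- `A = AdjoinRoot (X ^ 3 - 2)`; `X ^ 3 - 2` is irreducible as it has no root. -/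
theorem exists_cub (N : Type u) [Field N] [NumberField N] (h : ∀ x : N, x ^ 3 ≠ 2) :
    ∃ (A : Type u) (_ : Field A) (_ : NumberField A) (_ : Algebra N A) (θ : A), Cub N A θ := by
  have hirr : Irreducible (Polynomial.X ^ 3 - Polynomial.C (2 : N)) :=
    X_pow_sub_C_irreducible_of_prime Nat.prime_three h
  have : Fact (Irreducible (Polynomial.X ^ 3 - Polynomial.C (2 : N))) := ⟨hirr⟩
  have hne : (Polynomial.X ^ 3 - Polynomial.C (2 : N)) ≠ 0 := hirr.ne_zero
  have : FiniteDimensional N (AdjoinRoot (Polynomial.X ^ 3 - Polynomial.C (2 : N))) :=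
    (AdjoinRoot.powerBasis hne).finite
  have : CharZero (AdjoinRoot (Polynomial.X ^ 3 - Polynomial.C (2 : N))) :=
    charZero_of_injective_algebraMap (algebraMap N _).injective
  have : NumberField (AdjoinRoot (Polynomial.X ^ 3 - Polynomial.C (2 : N))) :=
    { to_charZero := inferInstance
      to_finiteDimensional := by
        have : IsScalarTower ℚ N (AdjoinRoot (Polynomial.X ^ 3 - Polynomial.C (2 : N))) :=
          inferInstance
        exact FiniteDimensional.trans ℚ N _ }
  refine ⟨AdjoinRoot (Polynomial.X ^ 3 - Polynomial.C (2 : N)), inferInstance, inferInstance,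
    inferInstance, AdjoinRoot.root _, ?_, ?_, ?_⟩
  · have := AdjoinRoot.eval₂_root (Polynomial.X ^ 3 - Polynomial.C (2 : N))
    simp only [Polynomial.eval₂_sub, Polynomial.eval₂_pow, Polynomial.eval₂_X,
      Polynomial.eval₂_C] at this
    rw [sub_eq_zero] at this
    rw [this]
    exact map_ofNat (AdjoinRoot.of (Polynomial.X ^ 3 - Polynomial.C (2 : N))) 2
  · rw [(AdjoinRoot.powerBasis hne).finrank]
    simp [AdjoinRoot.powerBasis_dim]
  · intro x hx
    apply h x
    have h1 := AdjoinRoot.eval₂_root (Polynomial.X ^ 3 - Polynomial.C (2 : N))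
    simp only [Polynomial.eval₂_sub, Polynomial.eval₂_pow, Polynomial.eval₂_X,
      Polynomial.eval₂_C] at h1
    rw [sub_eq_zero, ← hx] at h1
    apply (algebraMap N (AdjoinRoot (Polynomial.X ^ 3 - Polynomial.C (2 : N)))).injective
    rw [map_pow, h1]
    simp

open IntermediateField in
private theorem CE2_min {N A' : Type u} [Field N] [Field A'] [Algebra N A'] (h : ∀ x : N, x ^ 3 ≠ 2)
    {θ' : A'} (hθ : θ' ^ 3 = 2) : IsIntegral N θ' ∧ finrank N (N⟮θ'⟯) = 3 := by
  have hirr : Irreducible (Polynomial.X ^ 3 - Polynomial.C (2 : N)) :=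
    X_pow_sub_C_irreducible_of_prime Nat.prime_three h
  have hmon : (Polynomial.X ^ 3 - Polynomial.C (2 : N)).Monic :=
    Polynomial.monic_X_pow_sub_C _ (by norm_num)
  have hroot : Polynomial.aeval θ' (Polynomial.X ^ 3 - Polynomial.C (2 : N)) = 0 := by
    simp [hθ, map_ofNat]
  have hint : IsIntegral N θ' := ⟨_, hmon, by rwa [Polynomial.aeval_def] at hroot⟩
  refine ⟨hint, ?_⟩
  rw [IntermediateField.adjoin.finrank hint, ← minpoly.eq_of_irreducible_of_monic hirr hroot hmon,
    Polynomial.natDegree_X_pow_sub_C]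

/-- no square root of an element of `N` in a cubic extension, unless it is in `N` -/
private theorem CE2_sq {N A : Type u} [Field N] [Field A] [Algebra N A] (hA : finrank N A = 3)
    {d : N} {x : A} (hx : x ^ 2 = algebraMap N A d) : ∃ y : N, algebraMap N A y = x := by
  have hfin : FiniteDimensional N A := Module.finite_of_finrank_pos (by omega)
  have hint : IsIntegral N x := IsIntegral.of_finite N x
  have h1 : minpoly N x ∣ Polynomial.X ^ 2 - Polynomial.C d := by
    apply minpoly.dvd
    simp [hx]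
  have hne : (Polynomial.X ^ 2 - Polynomial.C d) ≠ 0 :=
    (Polynomial.monic_X_pow_sub_C d (by norm_num : (2 : ℕ) ≠ 0)).ne_zero
  have h2 : (minpoly N x).natDegree ≤ 2 := by
    have := Polynomial.natDegree_le_of_dvd h1 hne
    rwa [Polynomial.natDegree_X_pow_sub_C] at this
  have h3 : (minpoly N x).natDegree ∣ 3 := by
    rw [← hA]
    exact minpoly.degree_dvd hint
  have h4 : (minpoly N x).natDegree = 1 := by
    rcases (Nat.dvd_prime Nat.prime_three).1 h3 with h5 | h5
    · exact h5
    · omega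
  exact minpoly.natDegree_eq_one_iff.1 h4

open IntermediateField in
private theorem CE2_aux {N N' A' : Type u} [Field N] [NumberField N] [Field N'] [NumberField N']
    [Field A'] [NumberField A'] [Algebra N N'] [Algebra N' A'] [Algebra N A']
    [IsScalarTower N N' A'] {d : N} {δ : N'}
    {σ : N' ≃ₐ[N] N'} (hQ : Quad N N' d δ σ) (h : ∀ x : N, x ^ 3 ≠ 2) {θ' : A'}
    (hC : Cub N' A' θ') :
    ∃ τ : A' ≃ₐ[N⟮θ'⟯] A', StepData (AdjoinSimple.gen N θ') d δ σ τ := by
  obtain ⟨hint, hdeg⟩ := CE2_min h hC.cube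
  have hfin : FiniteDimensional N A' := by
    have h1 : FiniteDimensional N N' := Module.finite_of_finrank_pos (by rw [hQ.deg]; norm_num)
    have h2 : FiniteDimensional N' A' := Module.finite_of_finrank_pos (by rw [hC.deg]; norm_num)
    exact Module.Finite.trans N' A'
  have h6 : finrank N A' = 6 := by
    rw [← Module.finrank_mul_finrank N N' A', hQ.deg, hC.deg]
  have h2 : finrank (N⟮θ'⟯) A' = 2 := by
    have h3 := Module.finrank_mul_finrank N (N⟮θ'⟯) A'
    rw [h6, hdeg] at h3
    omega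
  have hinj : Function.Injective (algebraMap N' A') := (algebraMap N' A').injective
  have hinjN : Function.Injective (algebraMap N N') := (algebraMap N N').injective
  have hsq : (algebraMap N' A' δ) ^ 2 =
      algebraMap (N⟮θ'⟯) A' (algebraMap N (N⟮θ'⟯) d) := by
    rw [← map_pow, hQ.sq, ← IsScalarTower.algebraMap_apply, ← IsScalarTower.algebraMap_apply]
  have hne : ∀ x : N⟮θ'⟯, algebraMap (N⟮θ'⟯) A' x ≠ algebraMap N' A' δ := by
    intro x hx
    have hx2 : x ^ 2 = algebraMap N (N⟮θ'⟯) d := by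
      apply (algebraMap (N⟮θ'⟯) A').injective
      rw [map_pow, hx, hsq]
    obtain ⟨y, hy⟩ := CE2_sq hdeg hx2
    rw [← hy, ← IsScalarTower.algebraMap_apply, IsScalarTower.algebraMap_apply N N' A'] at hx
    have h7 := hinj hx
    have h8 := hQ.conj
    rw [← h7, AlgEquiv.commutes] at h8
    have h9 : (2 : N') * algebraMap N N' y = 0 := by linear_combination h8
    rcases mul_eq_zero.1 h9 with h10 | h10
    · exact absurd h10 two_ne_zero
    · exact hQ.ne (h7 ▸ h10)
  obtain ⟨τ, hτ⟩ := exists_quad (algebraMap N (N⟮θ'⟯) d) (algebraMap N' A' δ) hsq h2 hne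
  refine ⟨τ, ?_⟩
  have hgen : algebraMap (N⟮θ'⟯) A' (AdjoinSimple.gen N θ') = θ' :=
    AdjoinSimple.algebraMap_gen N θ'
  refine ⟨inferInstance, inferInstance, ⟨?_, hdeg, ?_⟩, ?_, hQ, hτ, ?_⟩
  · apply (algebraMap (N⟮θ'⟯) A').injective
    rw [map_pow, hgen, hC.cube, map_ofNat]
  · intro x hx
    apply h x
    apply (algebraMap N A').injective
    rw [map_pow, map_ofNat, IsScalarTower.algebraMap_apply N (N⟮θ'⟯) A', hx, hgen, hC.cube]
  · rw [hgen]
    exact hC
  · intro x
    obtain ⟨a, b, hab⟩ := hQ.repr x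
    have hfix : ∀ t : N, τ (algebraMap N' A' (algebraMap N N' t)) =
        algebraMap N' A' (algebraMap N N' t) := by
      intro t
      rw [← IsScalarTower.algebraMap_apply, IsScalarTower.algebraMap_apply N (N⟮θ'⟯) A',
        AlgEquiv.commutes]
    rw [hab]
    simp only [map_add, map_mul, hfix, hτ.conj, hQ.conj, AlgEquiv.commutes, map_neg]

/-- The square of fields: `A = N⟮θ'⟯` as an intermediate field of `A' / N`. `[A : N] = 3` as
`X ^ 3 - 2` has no root in `N`; `[A' : N] = 6`, so `[A' : A] = 2`; `δ` is not in `A` since `2` does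
not divide `3` (`x ∈ A`, `x ^ 2 ∈ N`, `x ∉ N` would give a subfield of degree 2 of `A`), so
`exists_quad` gives `τ`. `comm`: both sides are `N`-algebra homomorphisms `N' → A'` which agree
on `δ`, and every element of `N'` is `a + b δ` (`quad.repr`). -/
theorem exists_stepData {N N' A' : Type u} [Field N] [NumberField N] [Field N'] [NumberField N']
    [Field A'] [NumberField A'] [Algebra N N'] [Algebra N' A'] {d : N} {δ : N'}
    {σ : N' ≃ₐ[N] N'} (hQ : Quad N N' d δ σ) (h : ∀ x : N, x ^ 3 ≠ 2) {θ' : A'}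
    (hC : Cub N' A' θ') :
    ∃ (A : Type u) (_ : Field A) (_ : NumberField A) (_ : Algebra N A) (_ : Algebra A A')
      (_ : Algebra N A') (θ : A) (τ : A' ≃ₐ[A] A'),
      algebraMap A A' θ = θ' ∧ StepData θ d δ σ τ := by
  let i1 : Algebra N A' := ((algebraMap N' A').comp (algebraMap N N')).toAlgebra
  have i2 : IsScalarTower N N' A' := IsScalarTower.of_algebraMap_eq (fun _ => rfl)
  obtain ⟨τ, hτ⟩ := CE2_aux hQ h hC
  exact ⟨IntermediateField.adjoin N {θ'}, inferInstance, inferInstance, inferInstance, inferInstance,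
    i1, IntermediateField.AdjoinSimple.gen N θ', τ, IntermediateField.AdjoinSimple.algebraMap_gen N θ', hτ⟩

end Pool.Agent.Lib.MP_1a91b9_ntT.S5
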