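import Pool.Agent.Lib.MP_1a91b9_ntT.S5.SelBasic
import Pool.Agent.Lib.MP_1a91b9_ntT.S5.QuadBasic

/-!
# JOB S5-SelFixed: a non-trivial class gives a non-trivial class fixed by `τ`

Let `α` satisfy the Selmer condition over `N'`, not a square. `β = α * τ α` is fixed by `τ`, so it
is the image of some `β₀ : A` (`D.quad'.fixed`), and it satisfies the Selmer condition
(`Sel.mul`, `Sel.conj`). If `β` is not a square, take `β₀`. Otherwise `β = ρ²`, `γ := ρ / α`,
`τ α = α γ²`. Applying `τ` twice: `(γ * τ γ)² = 1`, so `γ * τ γ = 1` or `-1`.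
Case `-1`: let `b = norm γ : N'` (norm from `A'` to `N'`); `norm (-1) = (-1) ^ 3 = -1` so
`b * σ b = -1` (`norm_conj`). `norm α = ν ^ 2` with `ν : N'` non-zero;
`(σ ν) ^ 2 = norm (τ α) = ν ^ 2 * b ^ 2`, so `σ ν = ± ν b`, and applying `σ`:
`ν = ± σ ν * σ b = (± 1)² ν * b * σ b = - ν`: contradiction.
Case `1`: Hilbert 90 gives `ε ≠ 0` with `τ ε = γ * ε`; then `α / ε²` is fixed by `τ`
(`τ (α / ε²) = α γ² / (γ² ε²)`), so it is the image of some `α₀ : A`; it satisfies `Sel`
(`Sel.mul_sq`) and is not a square.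
-/

set_option autoImplicit false

namespace Pool.Agent.Lib.MP_1a91b9_ntT.S5

open IsDedekindDomain NumberField WithZero Module

theorem exists_sel_fixed {N N' A A' : Type*} [Field N] [NumberField N] [Field N'] [NumberField N']
    [Field A] [NumberField A] [Field A'] [NumberField A']
    [Algebra N N'] [Algebra N A] [Algebra N' A'] [Algebra A A'] [Algebra N A']
    {θ : A} {d : N} {δ : N'} {σ : N' ≃ₐ[N] N'} {τ : A' ≃ₐ[A] A'} (D : StepData θ d δ σ τ)
    (α : A') (h : Sel N' A' α) (hns : ¬ IsSquare α) :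
    ∃ α₀ : A, Sel N' A' (algebraMap A A' α₀) ∧ ¬ IsSquare (algebraMap A A' α₀) := by
  have hα := h.ne_zero
  have hτ : ∀ x : A', τ (τ x) = x := D.quad'.invol
  have hfix : τ (α * τ α) = α * τ α := by
    rw [map_mul, hτ, mul_comm]
  obtain ⟨β₀, hβ₀⟩ := D.quad'.fixed (α * τ α) hfix
  have hβS : Sel N' A' (α * τ α) := h.mul (h.conj D)
  by_cases hsq : IsSquare (α * τ α)
  · obtain ⟨ρ, hρ⟩ := hsq
    have hβ0 : α * τ α ≠ 0 := hβS.ne_zero
    have hρ0 : ρ ≠ 0 := by
      rintro rfl
      rw [mul_zero] at hρ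
      exact hβ0 hρ
    obtain ⟨γ, hγdef⟩ : ∃ γ : A', γ = ρ / α := ⟨_, rfl⟩
    have hρα : ρ = γ * α := by
      rw [hγdef, div_mul_cancel₀ _ hα]
    have hτα : τ α = α * γ ^ 2 := by
      have h1 : α * τ α = α * (α * γ ^ 2) := by
        rw [hρ, hρα]
        ring
      exact mul_left_cancel₀ hα h1
    have hsq1 : (γ * τ γ) ^ 2 = 1 := by
      have h1 : α = α * (γ * τ γ) ^ 2 := by
        conv_lhs => rw [← hτ α, hτα, map_mul, map_pow, hτα]
        ring
      have h2 : α * 1 = α * (γ * τ γ) ^ 2 := by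
        rw [mul_one]
        exact h1
      exact (mul_left_cancel₀ hα h2).symm
    have hcases : γ * τ γ = 1 ∨ γ * τ γ = -1 := by
      have h1 : (γ * τ γ - 1) * (γ * τ γ + 1) = 0 := by
        linear_combination hsq1
      rcases mul_eq_zero.1 h1 with h2 | h2
      · exact Or.inl (sub_eq_zero.1 h2)
      · exact Or.inr (eq_neg_of_add_eq_zero_left h2)
    rcases hcases with hγ | hγ
    · obtain ⟨ε, hε, hτε⟩ := D.quad'.hilbert90 γ hγ
      have hγ0 : γ ≠ 0 := by
        rintro rfl
        rw [zero_mul] at hγ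
        exact zero_ne_one hγ
      have hfix2 : τ (α * (ε⁻¹) ^ 2) = α * (ε⁻¹) ^ 2 := by
        rw [map_mul, map_pow, map_inv₀, hτε, hτα, mul_inv]
        field_simp
      obtain ⟨α₀, hα₀⟩ := D.quad'.fixed _ hfix2
      refine ⟨α₀, ?_, ?_⟩
      · rw [hα₀]
        exact h.mul_sq (inv_ne_zero hε)
      · rw [hα₀]
        rintro ⟨r, hr⟩
        apply hns
        refine ⟨r * ε, ?_⟩
        have h1 : α = (α * (ε⁻¹) ^ 2) * ε ^ 2 := by
          field_simp
        rw [h1, hr]
        ring
    · exfalso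
      have h3 : Module.finrank N' A' = 3 := D.cub'.deg
      have hfin : Module.Finite N' A' := Module.finite_of_finrank_pos (by rw [h3]; norm_num)
      have hb : Algebra.norm N' γ * σ (Algebra.norm N' γ) = -1 := by
        rw [← D.norm_conj γ, ← map_mul, hγ]
        have e : (-1 : A') = algebraMap N' A' (-1) := by
          rw [map_neg, map_one]
        rw [e, Algebra.norm_algebraMap, h3]
        norm_num
      obtain ⟨ν, hν⟩ := h.norm
      have hν0 : ν ≠ 0 := by
        rintro rfl
        rw [mul_zero] at hν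
        exact hα (Algebra.norm_eq_zero_iff.1 hν)
      have h4 : σ ν * σ ν = (ν * Algebra.norm N' γ) * (ν * Algebra.norm N' γ) := by
        rw [← map_mul, ← hν, ← D.norm_conj α, hτα, map_mul, map_pow, hν]
        ring
      have h5 : ν = -ν := by
        rcases mul_self_eq_mul_self_iff.1 h4 with h6 | h6
        · have h7 := congrArg σ h6
          rw [D.quad.invol, map_mul, h6] at h7
          linear_combination h7 + ν * hb
        · have h7 := congrArg σ h6
          rw [D.quad.invol, map_neg, map_mul, h6] at h7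
          linear_combination h7 + ν * hb
      have h8 : (2 : N') * ν = 0 := by
        linear_combination h5
      rcases mul_eq_zero.1 h8 with h9 | h9
      · exact two_ne_zero h9
      · exact hν0 h9
  · refine ⟨β₀, ?_, ?_⟩
    · rw [hβ₀]
      exact hβS
    · rw [hβ₀]
      exact hsq

end Pool.Agent.Lib.MP_1a91b9_ntT.S5
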