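import Pool.Agent.Lib.MP_1a91b9_ntT.S5.SelDesc
import Pool.Agent.Lib.MP_1a91b9_ntT.S5.SelFixed
import Pool.Agent.Lib.MP_1a91b9_ntT.S5.CubExist

/-!
# JOB S5-Step: the step of the induction
-/

set_option autoImplicit false

namespace Pool.Agent.Lib.MP_1a91b9_ntT.S5

open IsDedekindDomain NumberField WithZero Module

universe u

/-- `v'(2) < 1`, `v = below N v'`: `v(2) < 1` so `v(2) = exp (-1)`, and `ram N v' = 1` by
`Quad.ram_one_two`. -/
theorem step_unr {N N' : Type*} [Field N] [NumberField N] [Field N'] [NumberField N']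
    [Algebra N N'] {d : N} {δ : N'} {σ : N' ≃ₐ[N] N'} (hQ : Quad N N' d δ σ)
    (hc : StepCond N d)
    (h : ∀ v : HeightOneSpectrum (𝓞 N), v.valuation N 2 < 1 → v.valuation N 2 = exp (-1 : ℤ)) :
    ∀ v : HeightOneSpectrum (𝓞 N'), v.valuation N' 2 < 1 → v.valuation N' 2 = exp (-1 : ℤ) := by
  intro w hw
  have hb := val_below N w (2 : N)
  rw [map_ofNat] at hb
  have h2 : (below N w).valuation N 2 < 1 := by
    by_contra hc'
    rw [not_lt] at hc'
    rw [hb] at hw
    exact absurd hw (not_lt.2 (one_le_pow_of_one_le' hc' _))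
  obtain ⟨a, ha, hd⟩ := hc.two _ h2
  have he := hQ.ram_one_two w hw a ha hd
  rw [hb, he, pow_one, h _ h2]

/-- `v'(3) = v(3) ^ e` with `e = 1` or `2` (`Quad.ram_cases`) -/
theorem step_tame {N N' : Type*} [Field N] [NumberField N] [Field N'] [NumberField N']
    [Algebra N N'] {d : N} {δ : N'} {σ : N' ≃ₐ[N] N'} (hQ : Quad N N' d δ σ)
    (h : ∀ v : HeightOneSpectrum (𝓞 N), v.valuation N 3 < 1 →
      ∀ m : ℤ, v.valuation N 3 ≠ exp (3 * m)) :
    ∀ v : HeightOneSpectrum (𝓞 N'), v.valuation N' 3 < 1 →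
      ∀ m : ℤ, v.valuation N' 3 ≠ exp (3 * m) := by
  intro w hw m hm
  have hb := val_below N w (3 : N)
  rw [map_ofNat] at hb
  have h3 : (below N w).valuation N 3 < 1 := by
    by_contra hc'
    rw [not_lt] at hc'
    rw [hb] at hw
    exact absurd hw (not_lt.2 (one_le_pow_of_one_le' hc' _))
  have hne : (below N w).valuation N 3 ≠ 0 := by
    rw [Valuation.ne_zero_iff]
    norm_num
  obtain ⟨k, hk⟩ : ∃ k : ℤ, (below N w).valuation N 3 = exp k := ⟨_, (exp_log hne).symm⟩
  have hp : exp (ram N w * k : ℤ) = exp (3 * m) := by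
    rw [← hm, hb, hk, ← exp_nsmul, nsmul_eq_mul]
  have hp' : (ram N w : ℤ) * k = 3 * m := exp_injective hp
  rcases hQ.ram_cases w with he | ⟨he, -⟩
  · rw [he] at hp'
    refine h _ h3 m ?_
    rw [hk]
    congr 1
    push_cast at hp'
    omega
  · rw [he] at hp'
    refine h _ h3 (m / 2) ?_
    rw [hk]
    congr 1
    push_cast at hp'
    omega

/-- Given `A'`, `θ'`, `α` with `Sel N' A' α`, suppose `α` is not a square. Take the square of fields
(`exists_stepData`, `not_cube`) and `α₀ : A` from `exists_sel_fixed`. `norm α₀` becomes a square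
in `N'` (`norm_base`), so it is a square or `q² d` with `q : N` (`Quad.isSquare_or`). In the first
case `sel_descend` and the hypothesis `hN.sel` show that `α₀` is a square in `A`: contradiction.
In the second case replace `α₀` by `α₁ = d α₀` (`d` in `N`): its image in `A'` is `α₀ δ²`, so it
satisfies `Sel N' A'` (`Sel.mul_sq`) and `norm α₁ = d³ norm α₀ = (d² q)²`. So `α₁` is a square in
`A`, and `α₀ = α₁ / δ²` is a square in `A'`: contradiction. -/
theorem good_step {N N' : Type u} [Field N] [NumberField N] [Field N'] [NumberField N']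
    [Algebra N N'] (d : N) (δ : N') (hδ : δ ^ 2 = algebraMap N N' d) (h2 : finrank N N' = 2)
    (hne : ∀ x : N, algebraMap N N' x ≠ δ) (hc : StepCond N d) (hN : Good N) : Good N' := by
  obtain ⟨σ, hQ⟩ := exists_quad d δ hδ h2 hne
  refine ⟨step_unr hQ hc hN.unr, step_tame hQ hN.tame, ?_⟩
  intro A' _ _ _ θ' hC α hα
  by_contra hns
  obtain ⟨A, i1, i2, i3, i4, i5, θ, τ, hθ, D⟩ :=
    exists_stepData hQ (fun x => not_cube N hN.unr x) hC
  obtain ⟨α₀, h0, hns0⟩ := exists_sel_fixed D α hα hns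
  have hsq : IsSquare (algebraMap N N' (Algebra.norm N α₀)) := by
    rw [← D.norm_base α₀]
    exact h0.norm
  rcases hQ.isSquare_or _ hsq with hn | ⟨q, hq⟩
  · have h1 := hN.sel A θ D.cub α₀ (sel_descend D hN.tame hc α₀ h0 hn)
    exact hns0 (h1.map (algebraMap A A'))
  · have hδ0 : algebraMap N' A' δ ≠ 0 := D.quad'.ne
    have he : algebraMap A A' (algebraMap N A d * α₀) =
        algebraMap A A' α₀ * (algebraMap N' A' δ) ^ 2 := by
      rw [map_mul, D.quad'.sq, mul_comm]
    have h1 : Sel N' A' (algebraMap A A' (algebraMap N A d * α₀)) := by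
      rw [he]
      exact h0.mul_sq hδ0
    have hn : IsSquare (Algebra.norm N (algebraMap N A d * α₀)) := by
      rw [map_mul, Algebra.norm_algebraMap, D.cub.deg, hq]
      exact ⟨d ^ 2 * q, by ring⟩
    obtain ⟨r, hr⟩ := hN.sel A θ D.cub _ (sel_descend D hN.tame hc _ h1 hn)
    refine hns0 ⟨algebraMap A A' r / algebraMap N' A' δ, ?_⟩
    rw [hr, map_mul] at he
    field_simp
    rw [← he]
    ring

end Pool.Agent.Lib.MP_1a91b9_ntT.S5
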