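import Pool.Agent.Lib.MP_1a91b9_ntT.S5.Base
import Pool.Agent.Lib.MP_1a91b9_ntT.S5.Step
import Pool.Agent.Lib.MP_1a91b9_ntT.S5.Half
import Pool.Agent.Lib.MP_1a91b9_ntT.S5.Heights
import Pool.Agent.Lib.MP_1a91b9_ntT.S5.Image

/-!
# The main theorem of the 2-descent
-/

set_option autoImplicit false

namespace Pool.Agent.Lib.MP_1a91b9_ntT.S5

open IsDedekindDomain NumberField WithZero Module

universe u

theorem Good.two_div {N : Type u} [Field N] [NumberField N] [DecidableEq N] (h : Good N)
    (P : (E27 N).toAffine.Point) : ∃ Q : (E27 N).toAffine.Point, Q + Q = P := by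
  obtain ⟨A, _, _, _, θ, hθ⟩ := exists_cub N (not_cube N h.unr)
  rcases P with _ | ⟨x, y, hxy⟩
  · exact ⟨0, by rw [add_zero]; rfl⟩
  · have he : y ^ 2 + y = x ^ 3 := by
      have h1 := hxy.1
      rw [WeierstrassCurve.Affine.equation_iff] at h1
      simpa [E27] using h1
    exact exists_half hθ x y hxy (h.sel A θ hθ _ (image_sel hθ h.unr h.tame x y he))

theorem Good.finite {N : Type u} [Field N] [NumberField N] (h : Good N) :
    Finite (E27 N).toAffine.Point := by
  classical
  exact finite_of_div h.two_div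

end Pool.Agent.Lib.MP_1a91b9_ntT.S5
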