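import Pool.Agent.Lib.MP_1a91b9_ntT.Base
import Pool.Agent.Lib.MP_1a91b9_ntT.S5.Main

/-!
# The towers of the main theorem
-/

set_option autoImplicit false

namespace Pool.Agent.Lib.MP_1a91b9_ntT.S5

open IsDedekindDomain NumberField WithZero Module

universe u

/-- `two`: `δ = a² + 4 b`; `v(δ) = 1` since `δ` is coprime to 2 and `v(2) < 1`; `v(4 b) < 1`, so
`v(a) = 1`, and `v(δ - a²) = v(4 b) ≤ v(4)`.
`odd`: `v(δ)` is not a square, so `δ ≠ 0`, `v(δ) = exp (-n)` with `n` odd, `n = 2 k + 1`: this is
`OddAt v δ` (`HeightOneSpectrum.intValuation_le_pow_iff_mem`, `valuation_of_algebraMap`), and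
`3 ∉ v` (`valuation_lt_one_iff_mem`), so `hδ.bad` applies. -/
theorem adm_stepCond {N : Type*} [Field N] [NumberField N] (δ : 𝓞 N) (hδ : Adm N δ) :
    StepCond N (δ : N) := by
  constructor
  · intro v hv
    obtain ⟨a, b, hab⟩ := hδ.sq
    have h2 : (2 : 𝓞 N) ∈ v.asIdeal := by
      rw [← HeightOneSpectrum.valuation_lt_one_iff_mem (K := N)]
      show v.valuation N (algebraMap (𝓞 N) N 2) < 1
      rw [map_ofNat]
      exact hv
    have h4 : ∀ c : 𝓞 N, 4 * c ∈ v.asIdeal := by
      intro c
      have : (4 : 𝓞 N) * c = 2 * c * 2 := by ring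
      rw [this]
      exact v.asIdeal.mul_mem_left _ h2
    have hδv : δ ∉ v.asIdeal := by
      intro h
      obtain ⟨u, w, huw⟩ := hδ.odd
      apply v.isPrime.ne_top
      rw [Ideal.eq_top_iff_one, ← huw]
      exact v.asIdeal.add_mem (v.asIdeal.mul_mem_left _ h) (v.asIdeal.mul_mem_left _ h2)
    have hav : a ∉ v.asIdeal := by
      intro h
      apply hδv
      rw [hab, sq]
      exact v.asIdeal.add_mem (v.asIdeal.mul_mem_left _ h) (h4 b)
    refine ⟨(a : N), ?_, ?_⟩
    · exact (HeightOneSpectrum.valuation_eq_one_iff_notMem (K := N) v).2 hav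
    · have h5 : (δ : N) - (a : N) ^ 2 = 4 * (b : N) := by
        show algebraMap (𝓞 N) N δ - (algebraMap (𝓞 N) N a) ^ 2 = 4 * algebraMap (𝓞 N) N b
        rw [hab, map_add, map_mul, map_pow, map_ofNat]
        ring
      rw [h5, map_mul]
      calc v.valuation N 4 * v.valuation N (b : N) ≤ v.valuation N 4 * 1 :=
            mul_le_mul_right (HeightOneSpectrum.valuation_le_one v b) _
        _ = v.valuation N 4 := mul_one _
  · intro v _ h3 hsq
    refine hδ.bad v ?_ ?_
    · exact (HeightOneSpectrum.valuation_eq_one_iff_notMem (K := N) v).1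
        (by rw [map_ofNat]; exact h3)
    · have hδ0 : δ ≠ 0 := by
        rintro rfl
        apply hsq
        exact ⟨0, by simp⟩
      rw [HeightOneSpectrum.valuation_of_algebraMap, HeightOneSpectrum.intValuation_if_neg v hδ0,
        isSquare_exp, even_neg] at hsq
      have hodd : Odd ((Associates.mk v.asIdeal).count (Associates.mk (Ideal.span {δ} : Ideal (𝓞 N))).factors) := by
        rw [← Nat.not_even_iff_odd]
        intro h
        exact hsq (by exact_mod_cast h)
      obtain ⟨k, hk⟩ := hodd
      refine ⟨k, ?_, ?_⟩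
      · rw [← HeightOneSpectrum.intValuation_le_pow_iff_mem, HeightOneSpectrum.intValuation_if_neg v hδ0, hk]
      · rw [← HeightOneSpectrum.intValuation_le_pow_iff_mem, HeightOneSpectrum.intValuation_if_neg v hδ0, hk,
          exp_le_exp]
        push_cast
        omega

/-- `1, x` is a basis of `N'` over `N` -/
theorem finrank_step {N N' : Type*} [Field N] [Field N'] [Algebra N N'] (x : N')
    (hn : ¬ ∃ y : N, algebraMap N N' y = x)
    (hgen : ∀ z : N', ∃ a b : N, z = algebraMap N N' a + algebraMap N N' b * x) :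
    finrank N N' = 2 := by
  have hli : LinearIndependent N ![(1 : N'), x] := by
    rw [LinearIndependent.pair_iff]
    intro s t hst
    have ht : t = 0 := by
      by_contra ht
      apply hn
      refine ⟨-s / t, ?_⟩
      rw [Algebra.smul_def, Algebra.smul_def, mul_one] at hst
      have ht' : algebraMap N N' t ≠ 0 := by
        rw [Ne, FaithfulSMul.algebraMap_eq_zero_iff]
        exact ht
      rw [map_div₀, map_neg, div_eq_iff ht']
      linear_combination -hst
    subst ht
    rw [zero_smul, add_zero, Algebra.smul_def, mul_one, FaithfulSMul.algebraMap_eq_zero_iff] at hst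
    exact ⟨hst, rfl⟩
  have hsp : ⊤ ≤ Submodule.span N (Set.range ![(1 : N'), x]) := by
    intro z _
    obtain ⟨a, b, rfl⟩ := hgen z
    refine Submodule.add_mem _ ?_ ?_
    · have h1 : algebraMap N N' a = a • ![(1 : N'), x] 0 := by
        rw [Algebra.smul_def]
        simp
      rw [h1]
      exact Submodule.smul_mem _ _ (Submodule.subset_span ⟨0, rfl⟩)
    · have h1 : algebraMap N N' b * x = b • ![(1 : N'), x] 1 := by
        rw [Algebra.smul_def]
        simp
      rw [h1]
      exact Submodule.smul_mem _ _ (Submodule.subset_span ⟨1, rfl⟩)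
  have h := finrank_eq_card_basis (Basis.mk hli hsp)
  rw [h, Fintype.card_fin]

theorem tower_good {N : Type u} [Field N] [NumberField N] (h : Tower N) : Good N := by
  induction h with
  | base N hb => exact good_base N hb
  | step N N' δ hδ x hx hn hgen _ ih =>
    exact good_step (δ : N) x hx (finrank_step x hn hgen) (fun y hy => hn ⟨y, hy⟩)
      (adm_stepCond δ hδ) ih

/-- The points of `E` over a field of the tower are finite in number. -/
theorem finite_points_tower (N : Type u) [Field N] [NumberField N] (h : Tower N) :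
    Finite (E N).toAffine.Point :=
  (tower_good h).finite

/-- `-3 = 1² + 4 (-1)`; if `OddAt v (-3)` then `-3 ∈ v`, `3 ∈ v`. -/
theorem adm_neg_three (N : Type*) [Field N] [NumberField N] : Adm N (-3) := by
  refine ⟨⟨1, -1, by ring⟩, ⟨1, 2, by ring⟩, ?_⟩
  intro v h3 hodd
  exfalso
  obtain ⟨k, hk, -⟩ := hodd
  apply h3
  have h1 : (-3 : 𝓞 N) ∈ v.asIdeal := Ideal.pow_le_self (by omega) hk
  rw [← neg_neg (3 : 𝓞 N)]
  exact neg_mem h1

private theorem TW2_om : om ^ 2 + om + 1 = 0 := by
  have h := om_spec.geom_sum_eq_zero (by norm_num)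
  rw [Finset.sum_range_succ, Finset.sum_range_succ, Finset.sum_range_one, pow_zero, pow_one] at h
  rw [← h]
  ring

private theorem TW2_repr (k : K) : ∃ a b : ℚ, k = algebraMap ℚ K a + algebraMap ℚ K b * om := by
  have htop : Algebra.adjoin ℚ {om} = ⊤ := IsCyclotomicExtension.adjoin_primitive_root_eq_top om_spec
  have hk : k ∈ Algebra.adjoin ℚ {om} := by
    rw [htop]
    trivial
  induction hk using Algebra.adjoin_induction with
  | mem x hx =>
    rw [Set.mem_singleton_iff] at hx
    exact ⟨0, 1, by rw [hx, map_zero, map_one, zero_add, one_mul]⟩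
  | algebraMap r => exact ⟨r, 0, by rw [map_zero, zero_mul, add_zero]⟩
  | add x y _ _ hx hy =>
    obtain ⟨a, b, rfl⟩ := hx
    obtain ⟨c, d, rfl⟩ := hy
    exact ⟨a + c, b + d, by rw [map_add, map_add]; ring⟩
  | mul x y _ _ hx hy =>
    obtain ⟨a, b, rfl⟩ := hx
    obtain ⟨c, d, rfl⟩ := hy
    refine ⟨a * c - b * d, a * d + b * c - b * d, ?_⟩
    have h2 : om ^ 2 = -om - 1 := by linear_combination TW2_om
    simp only [map_add, map_sub, map_mul]
    linear_combination (algebraMap ℚ K b * algebraMap ℚ K d) * h2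

/-- Induction on `TowerK`. Base: `algebraMap K F` is bijective. Take `N = (⊥ : IntermediateField ℚ F)`
(`Tower.base`), the image `x` in `F` of `2 om + 1`: `x² = -3`, `x` is not in `N` (no rational
number has square `-3`) and `F = N + N x` (every element of `K` is `a + b om`, `a b : ℚ`:
`om_spec`, or `finrank ℚ K = 2`); `Tower.step` with `adm_neg_three`. Step: `Tower.step` with the
same data. -/
theorem towerK_tower (F : Type u) [Field F] [NumberField F] [Algebra K F] (h : TowerK F) :
    Tower F := by
  induction h with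
  | base F hb =>
    have hbase : Tower (⊥ : IntermediateField ℚ F) := by
      refine Tower.base _ ⟨(algebraMap ℚ (⊥ : IntermediateField ℚ F)).injective, fun y => ?_⟩
      obtain ⟨r, hr⟩ := IntermediateField.mem_bot.1 y.2
      exact ⟨r, Subtype.ext hr⟩
    have hx : (algebraMap K F (2 * om + 1)) ^ 2 = -3 := by
      rw [← map_pow]
      have : (2 * om + 1) ^ 2 = (-3 : K) := by linear_combination 4 * TW2_om
      rw [this, map_neg, map_ofNat]
    refine Tower.step (⊥ : IntermediateField ℚ F) F (-3) (adm_neg_three _)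
      (algebraMap K F (2 * om + 1)) ?_ ?_ ?_ hbase
    · have e : algebraMap (𝓞 (⊥ : IntermediateField ℚ F)) (⊥ : IntermediateField ℚ F) (-3) = -3 := by
        rw [map_neg, map_ofNat]
      exact hx.trans ((congrArg (algebraMap _ F) e).trans (by rw [map_neg, map_ofNat])).symm
    · rintro ⟨y, hy⟩
      obtain ⟨r, hr⟩ := IntermediateField.mem_bot.1 y.2
      have hy' : algebraMap ℚ F r = algebraMap K F (2 * om + 1) := by
        rw [← hy, hr]
        rfl
      have h3 : algebraMap ℚ F (r ^ 2) = algebraMap ℚ F (-3) := by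
        rw [map_pow, hy', hx, map_neg, map_ofNat]
      have h4 : r ^ 2 = -3 := (algebraMap ℚ F).injective h3
      nlinarith [sq_nonneg r]
    · intro z
      obtain ⟨k, rfl⟩ := hb.2 z
      obtain ⟨a, b, rfl⟩ := TW2_repr k
      refine ⟨algebraMap ℚ _ (a - b / 2), algebraMap ℚ _ (b / 2), ?_⟩
      have e1 : ∀ r : ℚ, algebraMap (⊥ : IntermediateField ℚ F) F (algebraMap ℚ _ r) =
          algebraMap K F (algebraMap ℚ K r) := by
        intro r
        rw [← IsScalarTower.algebraMap_apply ℚ (⊥ : IntermediateField ℚ F) F]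
        exact (eq_ratCast (algebraMap ℚ F) r).trans
          (eq_ratCast ((algebraMap K F).comp (algebraMap ℚ K)) r).symm
      rw [e1, e1, ← map_mul, ← map_add]
      congr 1
      rw [map_sub, map_div₀, map_ofNat]
      ring
  | step F F' δ hδ x hx hn hgen _ ih => exact Tower.step F F' δ hδ x hx hn hgen ih

theorem finite_points (F : Type u) [Field F] [NumberField F] [Algebra K F] (h : TowerK F) :
    Finite (E F).toAffine.Point :=
  finite_points_tower F (towerK_tower F h)

private theorem TW3_oddAt {F : Type*} [Field F] [NumberField F] (v : HeightOneSpectrum (𝓞 F))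
    (δ : 𝓞 F) : OddAt v δ ↔ ∃ k : ℕ, v.valuation F (δ : F) = exp (-(2 * k + 1 : ℕ) : ℤ) := by
  have hv : v.valuation F (δ : F) = v.intValuation δ := v.valuation_of_algebraMap δ
  rw [hv]
  constructor
  · rintro ⟨k, h1, h2⟩
    have hδ : δ ≠ 0 := by
      rintro rfl
      exact h2 (Ideal.zero_mem _)
    rw [← v.intValuation_le_pow_iff_mem] at h1 h2
    rw [v.intValuation_if_neg hδ] at h1 h2 ⊢
    rw [exp_le_exp] at h1 h2
    refine ⟨k, ?_⟩
    congr 1
    omega
  · rintro ⟨k, hk⟩
    refine ⟨k, ?_, ?_⟩
    · rw [← v.intValuation_le_pow_iff_mem, hk]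
    · rw [← v.intValuation_le_pow_iff_mem, hk, exp_le_exp]
      omega

private theorem TW3_quad {N F : Type*} [Field N] [NumberField N] [Field F] [NumberField F]
    [Algebra N F] (h2 : finrank N F ≤ 2) (x : 𝓞 F) :
    ∃ b c : 𝓞 N, x ^ 2 + algebraMap (𝓞 N) (𝓞 F) b * x + algebraMap (𝓞 N) (𝓞 F) c = 0 := by
  have hint : IsIntegral (𝓞 N) (x : F) := (RingOfIntegers.isIntegral_coe x).tower_top
  have hfd : FiniteDimensional N F := Module.Finite.of_restrictScalars_finite ℚ N F
  set P := minpoly (𝓞 N) (x : F) with hP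
  have hmon : P.Monic := minpoly.monic hint
  have hdeg : P.natDegree ≤ 2 := by
    have h3 := minpoly.isIntegrallyClosed_eq_field_fractions' N hint
    have h4 : (minpoly N (x : F)).natDegree ≤ finrank N F := minpoly.natDegree_le _
    rw [h3, hmon.natDegree_map] at h4
    exact h4.trans h2
  have hroot : Polynomial.aeval (x : F) P = 0 := minpoly.aeval _ _
  rw [P.as_sum_range' 3 (by omega)] at hroot
  simp only [Finset.sum_range_succ, Finset.sum_range_zero, zero_add, map_add,
    Polynomial.aeval_monomial, pow_zero, mul_one, pow_one] at hroot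
  have key : ∀ b c : 𝓞 N, (x : F) ^ 2 + algebraMap (𝓞 N) F b * (x : F) + algebraMap (𝓞 N) F c = 0 →
      x ^ 2 + algebraMap (𝓞 N) (𝓞 F) b * x + algebraMap (𝓞 N) (𝓞 F) c = 0 := by
    intro b c h
    apply RingOfIntegers.coe_injective
    rw [map_add, map_add, map_mul, map_pow, map_zero, ← IsScalarTower.algebraMap_apply,
      ← IsScalarTower.algebraMap_apply]
    exact h
  have hcases : P.natDegree = 0 ∨ P.natDegree = 1 ∨ P.natDegree = 2 := by omega
  rcases hcases with h0 | h1 | h2
  · exfalso
    have h5 : P = 1 := hmon.natDegree_eq_zero.1 h0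
    have h6 := minpoly.aeval (𝓞 N) (x : F)
    rw [← hP, h5, map_one] at h6
    exact one_ne_zero h6
  · have h7 : P.coeff 1 = 1 := by
      have := hmon.coeff_natDegree
      rwa [h1] at this
    have h8 : P.coeff 2 = 0 := Polynomial.coeff_eq_zero_of_natDegree_lt (by omega)
    rw [h7, h8, map_one, map_zero, one_mul, zero_mul, add_zero] at hroot
    refine ⟨P.coeff 0, 0, key _ _ ?_⟩
    rw [map_zero, add_zero]
    linear_combination (x : F) * hroot
  · have h7 : P.coeff 2 = 1 := by
      have := hmon.coeff_natDegree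
      rwa [h2] at this
    rw [h7, map_one, one_mul] at hroot
    refine ⟨P.coeff 1, P.coeff 0, key _ _ ?_⟩
    linear_combination hroot

private theorem TW3_finrank {N F : Type*} [Field N] [Field F] [Algebra N F] (y : F)
    (hgen : ∀ z : F, ∃ a b : N, z = algebraMap N F a + algebraMap N F b * y) :
    finrank N F ≤ 2 := by
  have h : Submodule.span N (Set.range ![(1 : F), y]) = ⊤ := by
    rw [eq_top_iff]
    rintro z -
    obtain ⟨a, b, rfl⟩ := hgen z
    rw [← Algebra.smul_def, Algebra.algebraMap_eq_smul_one]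
    refine Submodule.add_mem _ (Submodule.smul_mem _ _ (Submodule.subset_span ⟨0, rfl⟩))
      (Submodule.smul_mem _ _ (Submodule.subset_span ⟨1, rfl⟩))
  have := finrank_le_of_span_eq_top h
  simpa using this

/-- `F = N(√-3)`: `δ : 𝓞 N`, `w` a place of `F` not above 3, `v = below N w`. `F / N` is unramified at
`w`: if `√-3` is in `N` then `F = N`, otherwise `Quad.ram_one_odd`, `Quad.ram_one_two` with
`adm_stepCond (adm_neg_three N)`. So `OddAt w δ` gives `OddAt v δ` (valuations). If
`x ^ 3 - 2 ∈ w`, the class `t` of `x` in `𝓞 F / w` has `t ^ 3 = 2`, and it is of degree at most 2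
over `𝓞 N / v` since `[F : N] ≤ 2` (an element of `𝓞 F` satisfies its characteristic polynomial
over `𝓞 N`, of degree `[F : N]`), whereas `X ^ 3 - 2` has no root in `𝓞 N / v`, hence is
irreducible: contradiction. -/
theorem adm_up {N F : Type*} [Field N] [NumberField N] [Field F] [NumberField F] [Algebra N F]
    (y : F) (hy : y ^ 2 = -3)
    (hgen : ∀ z : F, ∃ a b : N, z = algebraMap N F a + algebraMap N F b * y)
    (δ : 𝓞 N) (hδ : Adm N δ) : Adm F (algebraMap (𝓞 N) (𝓞 F) δ) := by
  refine ⟨?_, ?_, ?_⟩
  · obtain ⟨a, b, h⟩ := hδ.sq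
    refine ⟨algebraMap _ _ a, algebraMap _ _ b, ?_⟩
    rw [h, map_add, map_mul, map_pow, map_ofNat]
  · have h := hδ.odd.map (algebraMap (𝓞 N) (𝓞 F))
    rwa [map_ofNat] at h
  · intro w hw3 hodd x hx
    have h3 : (3 : 𝓞 N) ∉ (below N w).asIdeal := by
      rw [mem_below, map_ofNat]
      exact hw3
    have hoddv : OddAt (below N w) δ := by
      rw [TW3_oddAt] at hodd ⊢
      obtain ⟨k, hk⟩ := hodd
      have h4 : ((algebraMap (𝓞 N) (𝓞 F) δ : 𝓞 F) : F) = algebraMap N F (δ : N) := by
        exact (IsScalarTower.algebraMap_apply (𝓞 N) (𝓞 F) F δ).symm.trans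
          (IsScalarTower.algebraMap_apply (𝓞 N) N F δ)
      rw [h4, val_below N w] at hk
      have hδ0 : δ ≠ 0 := by
        rintro rfl
        have h0 : ((0 : 𝓞 N) : N) = 0 := rfl
        rw [h0, map_zero, zero_pow (ram_pos N w).ne'] at hk
        exact exp_ne_zero hk.symm
      have hv : (below N w).valuation N (δ : N) = (below N w).intValuation δ :=
        (below N w).valuation_of_algebraMap δ
      rw [hv] at hk ⊢
      rw [(below N w).intValuation_if_neg hδ0] at hk ⊢
      set n := (Associates.mk (below N w).asIdeal).count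
        (Associates.mk (Ideal.span {δ} : Ideal (𝓞 N))).factors with hn
      rw [← exp_nsmul, exp_inj, nsmul_eq_mul] at hk
      have h5 : ram N w * n = 2 * k + 1 := by
        have h6 : ((ram N w * n : ℕ) : ℤ) = ((2 * k + 1 : ℕ) : ℤ) := by
          rw [Nat.cast_mul]
          linarith
        exact_mod_cast h6
      have h7 : Odd n := by
        have h8 : Odd (ram N w * n) := ⟨k, h5⟩
        exact (Nat.odd_mul.1 h8).2
      obtain ⟨j, hj⟩ := h7
      exact ⟨j, by rw [hj]⟩
    obtain ⟨b, c, hbc⟩ := TW3_quad (TW3_finrank y hgen) x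
    set f := algebraMap (𝓞 N) (𝓞 F) with hf
    have hbad := hδ.bad (below N w) h3 hoddv
    -- `(b² - c) x + b c - 2 ∈ w`
    have h9 : f (b ^ 2 - c) * x + f (b * c - 2) ∈ w.asIdeal := by
      have h10 : f (b ^ 2 - c) * x + f (b * c - 2) = (x ^ 3 - 2) + (f b - x) *
          (x ^ 2 + f b * x + f c) := by
        rw [map_sub, map_pow, map_sub, map_mul, map_ofNat]
        ring
      rw [h10, hbc, mul_zero, add_zero]
      exact hx
    by_cases hD : b ^ 2 - c ∈ (below N w).asIdeal
    · apply hbad b
      have h11 : f (b * c - 2) ∈ w.asIdeal := by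
        have h12 := Ideal.sub_mem _ h9 (Ideal.mul_mem_right x _ ((mem_below N w _).1 hD))
        rwa [add_sub_cancel_left] at h12
      have h13 : b * c - 2 ∈ (below N w).asIdeal := (mem_below N w _).2 h11
      have h14 : b ^ 3 - 2 = b * (b ^ 2 - c) + (b * c - 2) := by ring
      rw [h14]
      exact Ideal.add_mem _ (Ideal.mul_mem_left _ _ hD) h13
    · obtain ⟨u, i, hi, hu⟩ := (below N w).isMaximal.exists_inv hD
      apply hbad (u * (2 - b * c))
      rw [mem_below]
      -- `x ≡ z`
      have h15 : x - f (u * (2 - b * c)) ∈ w.asIdeal := by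
        have h16 : x - f (u * (2 - b * c)) = f i * x + f u * (f (b ^ 2 - c) * x + f (b * c - 2)) := by
          have h17 : x = f (u * (b ^ 2 - c) + i) * x := by rw [hu, map_one, one_mul]
          calc x - f (u * (2 - b * c)) = f (u * (b ^ 2 - c) + i) * x - f (u * (2 - b * c)) := by
                rw [← h17]
            _ = _ := by
              rw [map_add, map_mul, map_mul, map_sub f 2, map_sub f (b * c)]
              ring
        rw [h16]
        exact Ideal.add_mem _ (Ideal.mul_mem_right _ _ ((mem_below N w _).1 hi))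
          (Ideal.mul_mem_left _ _ h9)
      set z := f (u * (2 - b * c)) with hz
      have h18 : f ((u * (2 - b * c)) ^ 3 - 2) = (x ^ 3 - 2) -
          (x ^ 2 + x * z + z ^ 2) * (x - z) := by
        rw [map_sub, map_pow, map_ofNat, ← hz]
        ring
      rw [h18]
      exact Ideal.sub_mem _ hx (Ideal.mul_mem_left _ _ h15)

/-- the image of `2 om + 1` is a square root of `-3` -/
private theorem TW4_om : (2 * om + 1) ^ 2 = (-3 : K) := by
  have h1 := om_spec.isRoot_cyclotomic (by norm_num)
  rw [Polynomial.cyclotomic_three] at h1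
  simp only [Polynomial.IsRoot.def, Polynomial.eval_add, Polynomial.eval_pow, Polynomial.eval_X,
    Polynomial.eval_one] at h1
  linear_combination 4 * h1

/-- every element of `F` with square `-3` is plus or minus the image of `2 om + 1` -/
private theorem TW4_pm {F : Type*} [Field F] [Algebra K F] (y : F) (hy : y ^ 2 = -3) :
    algebraMap K F (2 * om + 1) = y ∨ algebraMap K F (2 * om + 1) = -y := by
  rw [← sq_eq_sq_iff_eq_or_eq_neg, ← map_pow, TW4_om, hy, map_neg, map_ofNat]

/-- the image of `K` is in every subfield containing `y` -/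
private theorem TW4_mem {F : Type*} [Field F] [CharZero F] [Algebra K F] (S : Subfield F) (y : F)
    (hy : y ^ 2 = -3) (hyS : y ∈ S) (z : K) : algebraMap K F z ∈ S := by
  have h0 : algebraMap K F (2 * om + 1) ∈ S := by
    rcases TW4_pm y hy with h | h
    · rw [h]; exact hyS
    · rw [h]; exact S.neg_mem hyS
  have h1 : algebraMap K F om ∈ S := by
    have h2 : algebraMap K F om = (algebraMap K F (2 * om + 1) - 1) / 2 := by
      rw [map_add, map_mul, map_one, map_ofNat]
      ring
    rw [h2]
    exact S.div_mem (S.sub_mem h0 S.one_mem) (ofNat_mem S 2)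
  have h3 : z ∈ Algebra.adjoin ℚ ({om} : Set K) := by
    have h4 := IsCyclotomicExtension.adjoin_primitive_root_eq_top (A := ℚ) (B := K) om_spec
    rw [h4]
    exact Algebra.mem_top
  induction h3 using Algebra.adjoin_induction with
  | mem x hx =>
    rw [Set.mem_singleton_iff] at hx
    rw [hx]; exact h1
  | algebraMap r =>
    have : algebraMap K F (algebraMap ℚ K r) = (r : F) := by
      rw [eq_ratCast, map_ratCast]
    rw [this]
    exact SubfieldClass.ratCast_mem S r
  | add x y _ _ h5 h6 => rw [map_add]; exact S.add_mem h5 h6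
  | mul x y _ _ h5 h6 => rw [map_mul]; exact S.mul_mem h5 h6

/-- the intermediate field of the `a + b y` -/
private def TW4_F0 (N F : Type*) [Field N] [Field F] [CharZero F] [Algebra N F] (y : F)
    (hy : y ^ 2 = -3) : IntermediateField N F where
  carrier := {z | ∃ a b : N, z = algebraMap N F a + algebraMap N F b * y}
  mul_mem' := by
    rintro _ _ ⟨a, b, rfl⟩ ⟨c, d, rfl⟩
    refine ⟨a * c - 3 * (b * d), a * d + b * c, ?_⟩
    simp only [map_add, map_sub, map_mul, map_ofNat]
    linear_combination (algebraMap N F b * algebraMap N F d) * hy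
  add_mem' := by
    rintro _ _ ⟨a, b, rfl⟩ ⟨c, d, rfl⟩
    refine ⟨a + c, b + d, ?_⟩
    simp only [map_add]
    ring
  algebraMap_mem' := fun r => ⟨r, 0, by simp⟩
  inv_mem' := by
    rintro _ ⟨a, b, rfl⟩
    by_cases h : a ^ 2 + 3 * b ^ 2 = 0
    · have h1 : (algebraMap N F a + algebraMap N F b * y) *
          (algebraMap N F a - algebraMap N F b * y) = 0 := by
        have h2 := congrArg (algebraMap N F) h
        simp only [map_add, map_mul, map_pow, map_ofNat, map_zero] at h2
        linear_combination h2 - (algebraMap N F b) ^ 2 * hy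
      rcases mul_eq_zero.1 h1 with h3 | h3
      · refine ⟨0, 0, ?_⟩
        rw [h3]; simp
      · refine ⟨(2 * a)⁻¹, 0, ?_⟩
        rw [map_inv₀, map_mul, map_ofNat, map_zero, zero_mul, add_zero]
        congr 1
        linear_combination -h3
    · refine ⟨a / (a ^ 2 + 3 * b ^ 2), - b / (a ^ 2 + 3 * b ^ 2), ?_⟩
      have h2 : algebraMap N F (a ^ 2 + 3 * b ^ 2) ≠ 0 := by
        rw [Ne, map_eq_zero]; exact h
      have h3 : algebraMap N F (a ^ 2 + 3 * b ^ 2) =
          algebraMap N F a ^ 2 + 3 * algebraMap N F b ^ 2 := by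
        simp only [map_add, map_mul, map_pow, map_ofNat]
      apply inv_eq_of_mul_eq_one_right
      rw [map_div₀, map_div₀, map_neg]
      have h4 : (algebraMap N F a + algebraMap N F b * y) *
          (algebraMap N F a / algebraMap N F (a ^ 2 + 3 * b ^ 2) +
            -algebraMap N F b / algebraMap N F (a ^ 2 + 3 * b ^ 2) * y) =
          ((algebraMap N F a + algebraMap N F b * y) *
          (algebraMap N F a - algebraMap N F b * y)) / algebraMap N F (a ^ 2 + 3 * b ^ 2) := by
        ring
      rw [h4, div_eq_one_iff_eq h2, h3]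
      linear_combination -(algebraMap N F b) ^ 2 * hy

private theorem TW4_mem_F0 {N F : Type*} [Field N] [Field F] [CharZero F] [Algebra N F] (y : F)
    (hy : y ^ 2 = -3) (z : F) :
    z ∈ TW4_F0 N F y hy ↔ ∃ a b : N, z = algebraMap N F a + algebraMap N F b * y := Iff.rfl

private theorem TW4_main {N : Type u} [Field N] [NumberField N] (h : Tower N) :
    ∀ (F : Type u) [Field F] [NumberField F] [Algebra N F] [Algebra K F] (y : F),
      y ^ 2 = -3 → (∀ z : F, ∃ a b : N, z = algebraMap N F a + algebraMap N F b * y) →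
      TowerK F := by
  induction h with
  | base N hb =>
    intro F _ _ _ _ y hy hgen
    refine TowerK.base F ⟨(algebraMap K F).injective, fun z => ?_⟩
    obtain ⟨a, b, rfl⟩ := hgen z
    obtain ⟨a, rfl⟩ := hb.2 a
    obtain ⟨b, rfl⟩ := hb.2 b
    have hr : ∀ r : ℚ, algebraMap N F (algebraMap ℚ N r) = algebraMap K F (r : K) := by
      intro r
      rw [eq_ratCast, map_ratCast, map_ratCast]
    rw [hr, hr]
    rcases TW4_pm y hy with h | h
    · refine ⟨(a : K) + (b : K) * (2 * om + 1), ?_⟩
      rw [map_add, map_mul, h]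
    · refine ⟨(a : K) - (b : K) * (2 * om + 1), ?_⟩
      rw [map_sub, map_mul, h]
      ring
  | step N N' δ hδ x hx hn hgen' _ ih =>
    intro F _ _ _ _ y hy hgen
    let algNF : Algebra N F := ((algebraMap N' F).comp (algebraMap N N')).toAlgebra
    have hcomp : ∀ a : N, algebraMap N' F (algebraMap N N' a) = algebraMap N F a := fun a => rfl
    set X : F := algebraMap N' F x with hX
    have hgen2 : ∀ z : F, ∃ a b c d : N, z = (algebraMap N F a + algebraMap N F b * y) +
        (algebraMap N F c + algebraMap N F d * y) * X := by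
      intro z
      obtain ⟨A, B, rfl⟩ := hgen z
      obtain ⟨a, b, rfl⟩ := hgen' A
      obtain ⟨c, d, rfl⟩ := hgen' B
      refine ⟨a, c, b, d, ?_⟩
      simp only [map_add, map_mul, hcomp]
      ring
    by_cases hxF : X ∈ TW4_F0 N F y hy
    · refine ih F y hy fun z => ?_
      obtain ⟨a, b, c, d, rfl⟩ := hgen2 z
      rw [← TW4_mem_F0 y hy]
      refine add_mem ⟨a, b, rfl⟩ (mul_mem ⟨c, d, rfl⟩ hxF)
    · let F0 : IntermediateField N F := TW4_F0 N F y hy
      have : NumberField F0 := inferInstance
      have hyF : y ∈ F0 := ⟨0, 1, by simp⟩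
      let φ : K →+* F0 := (algebraMap K F).codRestrict F0
        (fun z => TW4_mem F0.toSubfield y hy hyF z)
      let algKF0 : Algebra K F0 := φ.toAlgebra
      have : IsScalarTower K F0 F := IsScalarTower.of_algebraMap_eq (fun z => rfl)
      have ih0 : TowerK F0 := by
        refine ih F0 ⟨y, hyF⟩ (Subtype.ext hy) fun z => ?_
        obtain ⟨a, b, hab⟩ := (TW4_mem_F0 y hy z.1).1 z.2
        exact ⟨a, b, Subtype.ext hab⟩
      have hδ0 : Adm F0 (algebraMap (𝓞 N) (𝓞 F0) δ) := by
        refine adm_up (⟨y, hyF⟩ : F0) (Subtype.ext hy) (fun z => ?_) δ hδ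
        obtain ⟨a, b, hab⟩ := (TW4_mem_F0 y hy z.1).1 z.2
        exact ⟨a, b, Subtype.ext hab⟩
      refine TowerK.step F0 F (algebraMap (𝓞 N) (𝓞 F0) δ) hδ0 X ?_ ?_ ?_ ih0
      · rw [hX, ← map_pow, hx, hcomp]
        rfl
      · rintro ⟨y', hy'⟩
        exact hxF (hy' ▸ y'.2)
      · intro z
        obtain ⟨a, b, c, d, hz⟩ := hgen2 z
        exact ⟨⟨_, ⟨a, b, rfl⟩⟩, ⟨_, ⟨c, d, rfl⟩⟩, hz⟩

/-- `F = N(√-3)` for `N` in the tower over `ℚ`. Induction on `Tower N` (for all `F`). Base: `N = ℚ`,
`F = ℚ(√-3)`, `algebraMap K F` is bijective (dimensions over `ℚ`). Step `N ⊂ N' = N(x) ⊂ F`,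
`F = N'(y)`. Let `F₀ = N(y)` (the subfield of `F` of the `a + b y`, `a b` in `N`; it contains the
image of `K`). By induction `TowerK F₀`. `F = F₀(x)`. If `x ∈ F₀` then `F₀ = F`, `TowerK F` (apply
the induction hypothesis directly to `F` as an extension of `N` generated by `y`). Otherwise
`TowerK.step` with `adm_up`. -/
theorem tower_towerK (N F : Type u) [Field N] [NumberField N] [Field F] [NumberField F]
    [Algebra N F] [Algebra K F] (y : F) (hy : y ^ 2 = -3)
    (hgen : ∀ z : F, ∃ a b : N, z = algebraMap N F a + algebraMap N F b * y) (h : Tower N) :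
    TowerK F := by
  exact TW4_main h F y hy hgen

end Pool.Agent.Lib.MP_1a91b9_ntT.S5
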