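import Pool.Agent.Lib.MP_1a91b9_ntT.S5.Defs

/-!
# JOB S5-CubBasic: coordinates with respect to `1, θ, θ²` and the norm

`θ` is not in `N` and `[A : N] = 3` is prime, so `minpoly N θ` has degree 3 (its degree divides
`finrank N A`, `minpoly.degree_dvd`, and is not 1), hence it is `X ^ 3 - 2`, and `1, θ, θ²` is a
basis of `A` over `N`. Norm: determinant of the matrix of multiplication by
`a + b θ + c θ²` in this basis:
`[[a, 2c, 2b], [b, a, 2c], [c, b, a]]`, determinant `a³ + 2 b³ + 4 c³ - 6 a b c`.
-/

set_option autoImplicit false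

namespace Pool.Agent.Lib.MP_1a91b9_ntT.S5

open IsDedekindDomain NumberField WithZero Module

variable {N A : Type*} [Field N] [Field A] [Algebra N A] {θ : A}

private theorem CB_natDegree (h : Cub N A θ) : (minpoly N θ).natDegree = 3 := by
  have hfin : FiniteDimensional N A := FiniteDimensional.of_finrank_pos (by rw [h.deg]; norm_num)
  have h1 : (minpoly N θ).natDegree ∣ finrank N A := minpoly.degree_dvd (IsIntegral.of_finite N θ)
  rw [h.deg] at h1
  rcases (Nat.dvd_prime Nat.prime_three).1 h1 with h2 | h2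
  · exfalso
    obtain ⟨x, hx⟩ := minpoly.natDegree_eq_one_iff.1 h2
    exact h.gen x hx
  · exact h2

private theorem CB_indep (h : Cub N A θ) (a b c : N)
    (e : algebraMap N A a + algebraMap N A b * θ + algebraMap N A c * θ ^ 2 = 0) :
    a = 0 ∧ b = 0 ∧ c = 0 := by
  set p : Polynomial N := Polynomial.C a + Polynomial.C b * Polynomial.X +
    Polynomial.C c * Polynomial.X ^ 2 with hp
  have h1 : Polynomial.aeval θ p = 0 := by
    rw [hp, map_add, map_add, map_mul, map_mul, map_pow, Polynomial.aeval_C, Polynomial.aeval_C,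
      Polynomial.aeval_C, Polynomial.aeval_X]
    exact e
  have h2 : p = 0 := by
    by_contra h0
    have h3 := minpoly.degree_le_of_ne_zero N θ h0 h1
    have h4 := Polynomial.natDegree_le_natDegree h3
    rw [CB_natDegree h] at h4
    have h5 : p.natDegree ≤ 2 := by
      rw [hp]
      compute_degree
    omega
  have c0 := congrArg (fun q => Polynomial.coeff q 0) h2
  have c1 := congrArg (fun q => Polynomial.coeff q 1) h2
  have c2 := congrArg (fun q => Polynomial.coeff q 2) h2
  simp only [hp, Polynomial.coeff_add, Polynomial.coeff_C_mul, Polynomial.coeff_C,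
    Polynomial.coeff_X, Polynomial.coeff_X_pow, Polynomial.coeff_zero] at c0 c1 c2
  norm_num at c0 c1 c2
  exact ⟨c0, c1, c2⟩

private theorem CB_lin (h : Cub N A θ) : LinearIndependent N (fun i : Fin 3 => θ ^ (i : ℕ)) := by
  rw [Fintype.linearIndependent_iff]
  intro g hg
  rw [Fin.sum_univ_three] at hg
  simp only [Algebra.smul_def] at hg
  have h1 := CB_indep h (g 0) (g 1) (g 2) (by
    rw [← hg]
    simp)
  intro i
  fin_cases i
  · exact h1.1
  · exact h1.2.1
  · exact h1.2.2

private noncomputable def CB_basis (h : Cub N A θ) : Basis (Fin 3) N A :=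
  basisOfLinearIndependentOfCardEqFinrank (CB_lin h) (by rw [h.deg]; rfl)

private theorem CB_basis_apply (h : Cub N A θ) (i : Fin 3) : CB_basis h i = θ ^ (i : ℕ) := by
  rw [CB_basis, coe_basisOfLinearIndependentOfCardEqFinrank]

private theorem CB_sum (h : Cub N A θ) (f : Fin 3 → N) :
    ∑ i, f i • CB_basis h i =
      algebraMap N A (f 0) + algebraMap N A (f 1) * θ + algebraMap N A (f 2) * θ ^ 2 := by
  rw [Fin.sum_univ_three]
  simp only [CB_basis_apply, Algebra.smul_def]
  simp

private theorem CB_coord (h : Cub N A θ) (f : Fin 3 → N) (α : A)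
    (e : α = algebraMap N A (f 0) + algebraMap N A (f 1) * θ + algebraMap N A (f 2) * θ ^ 2)
    (i : Fin 3) : (CB_basis h).repr α i = f i := by
  rw [e, ← CB_sum h f, Basis.repr_sum_self]

theorem Cub.repr (h : Cub N A θ) (α : A) : ∃ a b c : N,
    α = algebraMap N A a + algebraMap N A b * θ + algebraMap N A c * θ ^ 2 := by
  refine ⟨(CB_basis h).repr α 0, (CB_basis h).repr α 1, (CB_basis h).repr α 2, ?_⟩
  have h1 := (CB_basis h).sum_repr α
  rw [CB_sum h] at h1
  exact h1.symm

theorem Cub.indep (h : Cub N A θ) (a b c : N)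
    (e : algebraMap N A a + algebraMap N A b * θ + algebraMap N A c * θ ^ 2 = 0) :
    a = 0 ∧ b = 0 ∧ c = 0 := by
  exact CB_indep h a b c e

theorem Cub.norm_eq (h : Cub N A θ) (a b c : N) :
    Algebra.norm N (algebraMap N A a + algebraMap N A b * θ + algebraMap N A c * θ ^ 2) =
      a ^ 3 + 2 * b ^ 3 + 4 * c ^ 3 - 6 * a * b * c := by
  have h3 := h.cube
  rw [Algebra.norm_eq_matrix_det (CB_basis h), Matrix.det_fin_three]
  simp only [Algebra.leftMulMatrix_eq_repr_mul, CB_basis_apply]
  have two : (2 : A) = algebraMap N A 2 := (map_ofNat (algebraMap N A) 2).symm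
  have c0 := CB_coord h ![a, b, c]
    ((algebraMap N A a + algebraMap N A b * θ + algebraMap N A c * θ ^ 2) * θ ^ ((0 : Fin 3) : ℕ))
    (by simp)
  have c1 := CB_coord h ![2 * c, a, b]
    ((algebraMap N A a + algebraMap N A b * θ + algebraMap N A c * θ ^ 2) * θ ^ ((1 : Fin 3) : ℕ))
    (by
      simp only [Matrix.cons_val_zero, Matrix.cons_val_one, Matrix.cons_val, map_mul, map_ofNat]
      show (algebraMap N A a + algebraMap N A b * θ + algebraMap N A c * θ ^ 2) * θ ^ 1 = _
      linear_combination (algebraMap N A c) * h3)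
  have c2 := CB_coord h ![2 * b, 2 * c, a]
    ((algebraMap N A a + algebraMap N A b * θ + algebraMap N A c * θ ^ 2) * θ ^ ((2 : Fin 3) : ℕ))
    (by
      simp only [Matrix.cons_val_zero, Matrix.cons_val_one, Matrix.cons_val, map_mul, map_ofNat]
      show (algebraMap N A a + algebraMap N A b * θ + algebraMap N A c * θ ^ 2) * θ ^ 2 = _
      linear_combination (algebraMap N A b + algebraMap N A c * θ) * h3)
  rw [c0 0, c0 1, c0 2, c1 0, c1 1, c1 2, c2 0, c2 1, c2 2]
  simp only [Matrix.cons_val_zero, Matrix.cons_val_one, Matrix.cons_val]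
  ring

/-- a cube root of two in an extension `A` of degree 3 -/
theorem Cub.ne_zero (h : Cub N A θ) [CharZero N] : θ ≠ 0 := by
  intro h0
  have h1 := h.cube
  rw [h0, zero_pow three_ne_zero] at h1
  have h2 : (2 : A) = algebraMap N A 2 := (map_ofNat (algebraMap N A) 2).symm
  rw [h2, eq_comm, FaithfulSMul.algebraMap_eq_zero_iff] at h1
  exact two_ne_zero h1

end Pool.Agent.Lib.MP_1a91b9_ntT.S5
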