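import Pool.Agent.Lib.MP_1a91b9_ntT.S5.DescTwo
import Pool.Agent.Lib.MP_1a91b9_ntT.S5.CubBasic

/-!
# JOB S5-BaseTwo: places of `ℚ`, and `θ - 1` does not satisfy the condition at 2
-/

set_option autoImplicit false

namespace Pool.Agent.Lib.MP_1a91b9_ntT.S5

open IsDedekindDomain NumberField WithZero Module

/-- `𝓞 ℚ` is isomorphic to `ℤ` (`Rat.ringOfIntegersEquiv`), so `p` is a prime element of `𝓞 ℚ` and a
place containing it is `(p)`; `HeightOneSpectrum.intValuation_singleton`. -/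
theorem rat_val (p : ℕ) (hp : p.Prime) (v : HeightOneSpectrum (𝓞 ℚ))
    (h : v.valuation ℚ (p : ℚ) < 1) : v.valuation ℚ (p : ℚ) = exp (-1 : ℤ) := by
  have hcast : (p : ℚ) = algebraMap (𝓞 ℚ) ℚ (p : 𝓞 ℚ) := by simp
  rw [hcast, HeightOneSpectrum.valuation_of_algebraMap] at h ⊢
  have hmem : (p : 𝓞 ℚ) ∈ v.asIdeal := (v.intValuation_lt_one_iff_mem _).1 h
  have hp0 : (p : 𝓞 ℚ) ≠ 0 := Nat.cast_ne_zero.2 hp.ne_zero
  have hprime : Prime (p : 𝓞 ℚ) := by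
    have h1 : Prime (p : ℤ) := Nat.prime_iff_prime_int.1 hp
    rw [← MulEquiv.prime_iff (Rat.ringOfIntegersEquiv.toMulEquiv)]
    simpa using h1
  apply HeightOneSpectrum.intValuation_singleton v hp0
  have hspan : (Ideal.span {(p : 𝓞 ℚ)}).IsPrime :=
    (Ideal.span_singleton_prime hp0).2 hprime
  have hmax : (Ideal.span {(p : 𝓞 ℚ)}).IsMaximal := by
    refine hspan.isMaximal ?_
    rw [Ne, Ideal.span_singleton_eq_bot]
    exact hp0
  exact (hmax.eq_of_le v.isPrime.ne_top ((Ideal.span_singleton_le_iff_mem _).2 hmem)).symm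

/-- `w(θ)³ = w(2) = exp (-e)`, `0 < e ≤ 3`, so `e = 3`. -/
theorem base_theta_val {A : Type*} [Field A] [NumberField A] {θ : A} (h : Cub ℚ A θ)
    (w : HeightOneSpectrum (𝓞 A)) (h2 : w.valuation A 2 < 1) :
    w.valuation A θ = exp (-1 : ℤ) := by
  have hb : w.valuation A (algebraMap ℚ A ((2 : ℕ) : ℚ)) =
      (below ℚ w).valuation ℚ ((2 : ℕ) : ℚ) ^ ram ℚ w := val_below ℚ w _
  have h2' : algebraMap ℚ A ((2 : ℕ) : ℚ) = 2 := by simp
  rw [h2'] at hb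
  have hv : (below ℚ w).valuation ℚ ((2 : ℕ) : ℚ) < 1 := by
    by_contra hcon
    rw [not_lt] at hcon
    exact absurd (hb ▸ h2) (not_lt.2 (one_le_pow₀ hcon))
  rw [rat_val 2 Nat.prime_two _ hv, ← exp_nsmul] at hb
  have hpos := ram_pos ℚ w
  have hle := ram_le ℚ w
  rw [h.deg] at hle
  have hθ0 : θ ≠ 0 := h.ne_zero
  have hw0 : w.valuation A θ ≠ 0 := (Valuation.ne_zero_iff _).2 hθ0
  have h3 : w.valuation A θ ^ 3 = w.valuation A 2 := by rw [← map_pow, h.cube]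
  obtain ⟨n, hn⟩ : ∃ n : ℤ, w.valuation A θ = exp n := ⟨_, (exp_log hw0).symm⟩
  rw [hb, hn, ← exp_nsmul, exp_inj] at h3
  rw [hn, exp_inj]
  simp only [nsmul_eq_mul] at h3
  push_cast at h3
  omega

/-- Suppose `w((θ - 1) s² - 1) ≤ exp (-2)`. As `w(θ) < 1` and `w(2) < 1`, `w(s) = 1` and
`w(s² - 1) < 1`, so `w(s² - 1) ≤ exp (-2)` by `sq_sub_one`.
`(θ - 1) s² - 1 = (θ - 1) (s² - 1) + (θ - 2)` and `w(θ - 2) = w(θ) = exp (-1)`: contradiction. -/
theorem base_theta {A : Type*} [Field A] [NumberField A] {θ : A} (h : Cub ℚ A θ)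
    (w : HeightOneSpectrum (𝓞 A)) (h2 : w.valuation A 2 < 1) (s : A) :
    ¬ w.valuation A ((θ - 1) * s ^ 2 - 1) ≤ exp (-2 : ℤ) := by
  intro hle
  set ν := w.valuation A with hν
  have hθ : ν θ = exp (-1 : ℤ) := base_theta_val h w h2
  have e21 : (exp (-2 : ℤ) : ℤᵐ⁰) < exp (-1 : ℤ) := exp_lt_exp.mpr (by norm_num)
  have e10 : (exp (-1 : ℤ) : ℤᵐ⁰) < 1 := by
    rw [← exp_zero]
    exact exp_lt_exp.mpr (by norm_num)
  have e31 : (exp (-3 : ℤ) : ℤᵐ⁰) < exp (-1 : ℤ) := exp_lt_exp.mpr (by norm_num)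
  have hθ1 : ν θ < 1 := by rw [hθ]; exact e10
  have h2v : ν 2 = exp (-3 : ℤ) := by
    rw [← h.cube, map_pow, hθ, ← exp_nsmul]
    norm_num
  have hlt : ν ((θ - 1) * s ^ 2 - 1) < 1 := lt_of_le_of_lt hle (e21.trans e10)
  -- the value of `θ - 1`
  have ha : ν (θ - 1) = 1 := by
    have h3 : ν (θ - 1) = ν 1 := by
      rw [Valuation.map_sub_swap]
      exact Valuation.map_sub_eq_of_lt_left ν (by rw [map_one]; exact hθ1)
    rw [h3, map_one]
  have hb : ν ((θ - 1) * s ^ 2) = 1 := by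
    have h3 : (θ - 1) * s ^ 2 = ((θ - 1) * s ^ 2 - 1) + 1 := by ring
    rw [h3, Valuation.map_add_eq_of_lt_right ν (by rw [map_one]; exact hlt), map_one]
  have hs : ν (s ^ 2) = 1 := by
    rw [map_mul, ha, one_mul] at hb
    exact hb
  have hc : ν (s ^ 2 - 1) < 1 := by
    have h3 : s ^ 2 - 1 = (θ * s ^ 2 - 2) - ((θ - 1) * s ^ 2 - 1) := by ring
    rw [h3]
    refine Valuation.map_sub_lt ν (Valuation.map_sub_lt ν ?_ h2) hlt
    rw [map_mul, hs, mul_one]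
    exact hθ1
  have hd : ν (s ^ 2 - 1) ≤ exp (-2 : ℤ) := (sq_sub_one w h2 s hc).2
  have he : ν (θ - 2) ≤ exp (-2 : ℤ) := by
    have h3 : θ - 2 = ((θ - 1) * s ^ 2 - 1) - (θ - 1) * (s ^ 2 - 1) := by ring
    rw [h3]
    refine Valuation.map_sub_le ν hle ?_
    rw [map_mul, ha, one_mul]
    exact hd
  have hf : ν (θ - 2) = ν θ := by
    refine Valuation.map_sub_eq_of_lt_left ν ?_
    rw [hθ, h2v]
    exact e31
  rw [hf, hθ] at he
  exact absurd he (not_le.mpr e21)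

end Pool.Agent.Lib.MP_1a91b9_ntT.S5
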