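import Pool.Agent.Lib.MP_1a91b9_ntT.S5.BaseSig

/-!
# JOB S5-BasePid: the class number of `ℚ(θ)`, `θ³ = 2`, is one

`NumberField/ClassNumber.lean`:
`RingOfIntegers.isPrincipalIdealRing_of_isPrincipal_of_norm_le` (or `..._of_isPrime`). The
Minkowski bound is `(4/π) * (3!/3³) * √|discr| ≤ (4/3.14) * (2/9) * 10.4 < 3` (`√108 < 10.4`).
Ideals of norm 1: the unit ideal. Ideals `I` of norm 2 (prime): `2 ∈ I` (`Ideal.absNorm_mem`), so
`θ³ ∈ I`, `θ ∈ I` (`θ` is integral), and `(θ)` has norm `|norm θ| = 2`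
(`Cub.norm_eq` with `(0, 1, 0)`), so `I = (θ)`.
-/

set_option autoImplicit false

namespace Pool.Agent.Lib.MP_1a91b9_ntT.S5

open IsDedekindDomain NumberField WithZero Module

variable {A : Type*} [Field A] [NumberField A] {θ : A}

private theorem BP_bound (h : Cub ℚ A θ) :
    (4 / Real.pi) ^ InfinitePlace.nrComplexPlaces A *
      ((finrank ℚ A).factorial / (finrank ℚ A) ^ (finrank ℚ A) * √|(discr A : ℝ)|) < 3 := by
  rw [base_complex h, h.deg, pow_one]
  have hd : |(discr A : ℝ)| ≤ 108 := by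
    have := base_discr h
    exact_mod_cast this
  have hs : √|(discr A : ℝ)| ≤ 10.4 := by
    rw [Real.sqrt_le_left (by norm_num)]
    exact hd.trans (by norm_num)
  have hpi : (3.14 : ℝ) < Real.pi := Real.pi_gt_d2
  have h4 : 4 / Real.pi ≤ 4 / 3.14 := div_le_div_of_nonneg_left (by norm_num) (by norm_num) hpi.le
  have hf : ((3 : ℕ).factorial : ℝ) = 6 := by norm_num [Nat.factorial]
  rw [hf]
  have h0 : 0 ≤ √|(discr A : ℝ)| := Real.sqrt_nonneg _
  have h1 : (6 : ℝ) / ((3 : ℕ) : ℝ) ^ 3 * √|(discr A : ℝ)| ≤ 6 / 27 * 10.4 := by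
    have : (6 : ℝ) / ((3 : ℕ) : ℝ) ^ 3 = 6 / 27 := by norm_num
    rw [this]
    exact mul_le_mul_of_nonneg_left hs (by norm_num)
  calc 4 / Real.pi * (6 / ((3 : ℕ) : ℝ) ^ 3 * √|(discr A : ℝ)|)
      ≤ 4 / 3.14 * (6 / 27 * 10.4) := mul_le_mul h4 h1 (by positivity) (by norm_num)
    _ < 3 := by norm_num

theorem base_pid (h : Cub ℚ A θ) : IsPrincipalIdealRing (𝓞 A) := by
  have hint : IsIntegral ℤ θ := by
    refine ⟨Polynomial.X ^ 3 - Polynomial.C 2, Polynomial.monic_X_pow_sub_C _ (by norm_num), ?_⟩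
    simp [h.cube]
  obtain ⟨t, ht⟩ : ∃ t : 𝓞 A, algebraMap (𝓞 A) A t = θ := ⟨⟨θ, hint⟩, rfl⟩
  have ht3 : t ^ 3 = 2 := by
    apply RingOfIntegers.coe_injective
    rw [map_pow, ht, h.cube, map_ofNat]
  have hnorm : Ideal.absNorm (Ideal.span {t}) = 2 := by
    rw [Ideal.absNorm_span_singleton]
    have h1 : (Algebra.norm ℤ t : ℚ) = 2 := by
      rw [Algebra.coe_norm_int, show ((t : 𝓞 A) : A) = θ from ht]
      have := h.norm_eq 0 1 0
      simpa using this
    have h2 : Algebra.norm ℤ t = 2 := by exact_mod_cast h1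
    rw [h2]
    rfl
  refine RingOfIntegers.isPrincipalIdealRing_of_isPrincipal_of_norm_le (fun I hI => ?_)
  have hI' : (Ideal.absNorm (I : Ideal (𝓞 A)) : ℝ) < 3 := lt_of_le_of_lt hI (by
    have := BP_bound h
    simpa using this)
  have hI3 : Ideal.absNorm (I : Ideal (𝓞 A)) < 3 := by exact_mod_cast hI'
  have hI0 : Ideal.absNorm (I : Ideal (𝓞 A)) ≠ 0 := by
    rw [Ne, Ideal.absNorm_eq_zero_iff]
    exact nonZeroDivisors.coe_ne_zero I
  obtain hc | hc : Ideal.absNorm (I : Ideal (𝓞 A)) = 1 ∨ Ideal.absNorm (I : Ideal (𝓞 A)) = 2 := by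
    omega
  · rw [Ideal.absNorm_eq_one_iff.1 hc]
    exact top_isPrincipal
  · have hp : (I : Ideal (𝓞 A)).IsPrime := by
      apply Ideal.isPrime_of_irreducible_absNorm
      rw [hc]
      exact Nat.prime_two
    have h2 : (2 : 𝓞 A) ∈ (I : Ideal (𝓞 A)) := by
      have := Ideal.absNorm_mem (I : Ideal (𝓞 A))
      rw [hc] at this
      exact_mod_cast this
    have htI : t ∈ (I : Ideal (𝓞 A)) := by
      rw [← ht3] at h2
      exact hp.mem_of_pow_mem _ h2
    obtain ⟨J, hJ⟩ := Ideal.dvd_iff_le.2 ((Ideal.span_singleton_le_iff_mem _).2 htI)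
    have hJ1 : Ideal.absNorm J = 1 := by
      rw [hJ, map_mul, hc] at hnorm
      omega
    rw [Ideal.absNorm_eq_one_iff.1 hJ1, Ideal.mul_top] at hJ
    rw [← hJ]
    exact ⟨t, rfl⟩

end Pool.Agent.Lib.MP_1a91b9_ntT.S5
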