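import Pool.Agent.Lib.MP_1a91b9_ntT.S5.Zm

/-!
# JOB S5-EvenPid: class number one and even valuations

If `𝓞 A` is principal and `w(α)` is a square for every place `w`, then `α = ε c²` with a unit `ε`
of `𝓞 A` and `c` in `A`. Proof: multiplying `α` by the square of an integer, one may suppose
`α : 𝓞 A`, `α ≠ 0`; all multiplicities of the factorization of `α` in the UFD `𝓞 A` are even (the
places of `A` are the `(p)`, `p` prime), so `α` is associated to a square. (Or: the fractional
ideal `(α)` is a square of an ideal, which is principal.)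
-/

set_option autoImplicit false

namespace Pool.Agent.Lib.MP_1a91b9_ntT.S5

open IsDedekindDomain NumberField WithZero Module

/-- a nonzero integral element with even valuations is a unit times a square -/
private theorem EP_int {A : Type*} [Field A] [NumberField A]
    (hp : IsPrincipalIdealRing (𝓞 A)) (β : 𝓞 A) (h0 : β ≠ 0)
    (h : ∀ w : HeightOneSpectrum (𝓞 A), IsSquare (w.valuation A (β : A))) :
    ∃ (ε : (𝓞 A)ˣ) (γ : 𝓞 A), β = ε * γ ^ 2 := by
  classical
  have hspan : (Ideal.span {β} : Ideal (𝓞 A)) ≠ 0 := by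
    rw [Ne, Ideal.zero_eq_bot, Ideal.span_singleton_eq_bot]
    exact h0
  have hcount : ∀ p : Associates (Ideal (𝓞 A)), Irreducible p →
      2 ∣ p.count (Associates.mk (Ideal.span {β} : Ideal (𝓞 A))).factors := by
    intro p hpirr
    obtain ⟨P, rfl⟩ := Associates.mk_surjective p
    have hP : Prime P := (Associates.irreducible_mk.1 hpirr).prime
    let w : HeightOneSpectrum (𝓞 A) := ⟨P, Ideal.isPrime_of_prime hP, hP.ne_zero⟩
    have h1 := h w
    rw [HeightOneSpectrum.valuation_of_algebraMap, HeightOneSpectrum.intValuation_if_neg w h0,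
      isSquare_exp, even_neg] at h1
    exact even_iff_two_dvd.1 (by exact_mod_cast h1)
  obtain ⟨b, hb⟩ := Associates.is_pow_of_dvd_count (Associates.mk_ne_zero.2 hspan) hcount
  obtain ⟨J, rfl⟩ := Associates.mk_surjective b
  rw [← Associates.mk_pow, Associates.mk_eq_mk_iff_associated, associated_iff_eq] at hb
  obtain ⟨γ, hγ⟩ := (hp.principal J).principal
  have hγ' : J = Ideal.span {γ} := hγ
  rw [hγ', Ideal.span_singleton_pow, Ideal.span_singleton_eq_span_singleton] at hb
  obtain ⟨u, hu⟩ := hb.symm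
  exact ⟨u, γ, by rw [← hu, mul_comm]⟩

theorem exists_unit_mul_sq {A : Type*} [Field A] [NumberField A]
    (hp : IsPrincipalIdealRing (𝓞 A)) (α : A) (h0 : α ≠ 0)
    (h : ∀ w : HeightOneSpectrum (𝓞 A), IsSquare (w.valuation A α)) :
    ∃ (ε : (𝓞 A)ˣ) (c : A), c ≠ 0 ∧ α = ((ε : 𝓞 A) : A) * c ^ 2 := by
  obtain ⟨a, b, hb, hab⟩ := IsFractionRing.div_surjective (A := 𝓞 A) α
  have hb0 : b ≠ 0 := nonZeroDivisors.ne_zero hb
  have hbA : algebraMap (𝓞 A) A b ≠ 0 := by
    rw [Ne, FaithfulSMul.algebraMap_eq_zero_iff]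
    exact hb0
  have ha0 : a ≠ 0 := by
    rintro rfl
    rw [map_zero, zero_div] at hab
    exact h0 hab.symm
  have hβ : algebraMap (𝓞 A) A (a * b) = α * (algebraMap (𝓞 A) A b) ^ 2 := by
    rw [← hab, map_mul]
    field_simp
  obtain ⟨ε, γ, hγ⟩ := EP_int hp (a * b) (mul_ne_zero ha0 hb0) (fun w => by
    have h1 : w.valuation A ((a * b : 𝓞 A) : A) = w.valuation A α * (w.valuation A (algebraMap (𝓞 A) A b)) ^ 2 := by
      rw [← map_pow, ← map_mul, ← hβ]
    rw [h1]
    exact (h w).mul (IsSquare.sq _))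
  have hγ0 : γ ≠ 0 := by
    rintro rfl
    rw [zero_pow two_ne_zero, mul_zero] at hγ
    exact mul_ne_zero ha0 hb0 hγ
  have hγA : algebraMap (𝓞 A) A γ ≠ 0 := by
    rw [Ne, FaithfulSMul.algebraMap_eq_zero_iff]
    exact hγ0
  refine ⟨ε, algebraMap (𝓞 A) A γ / algebraMap (𝓞 A) A b, div_ne_zero hγA hbA, ?_⟩
  rw [hγ, map_mul, map_pow] at hβ
  rw [div_pow, ← mul_div_assoc, eq_div_iff (pow_ne_zero 2 hbA), ← hβ]

end Pool.Agent.Lib.MP_1a91b9_ntT.S5
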