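import Pool.Agent.Lib.MP_1a91b9_ntT.S5.BaseUnit
import Pool.Agent.Lib.MP_1a91b9_ntT.S5.BasePid
import Pool.Agent.Lib.MP_1a91b9_ntT.S5.EvenPid

/-!
# JOB S5-Base: the base of the tower

`unr`, `tame`: `rat_val`. `sel`: `α = ε c²` (`base_pid`, `exists_unit_mul_sq`), `norm ε > 0` as
`norm α` is a non-zero square. If `ε` is a square, done. If `ε (θ - 1)` is a square, then
`θ - 1 = α r²` with `r ≠ 0`; at a place `w` above 2 the condition `two` of `α` gives `s` with
`w(α s² - 1) ≤ exp (-2)`, so `w((θ - 1) (s / r)² - 1) ≤ exp (-2)`, against `base_theta`.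
-/

set_option autoImplicit false

namespace Pool.Agent.Lib.MP_1a91b9_ntT.S5

open IsDedekindDomain NumberField WithZero Module

universe u

private theorem BA_above (A : Type*) [Field A] [NumberField A] :
    ∃ w : HeightOneSpectrum (𝓞 A), w.valuation A 2 < 1 := by
  have hu : (2 : 𝓞 A) ∈ nonunits (𝓞 A) := by
    intro hu
    obtain ⟨x, hx⟩ := hu.exists_right_inv
    have hxA : (2 : A) * (x : A) = 1 := by
      have h1 := congrArg (algebraMap (𝓞 A) A) hx
      rwa [map_mul, map_one, map_ofNat] at h1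
    have hx2 : (x : A) = algebraMap ℚ A (1 / 2) := by
      have h1 : (2 : A) * algebraMap ℚ A (1 / 2) = 1 := by
        rw [map_div₀, map_one, map_ofNat]
        exact mul_one_div_cancel two_ne_zero
      exact mul_left_cancel₀ (two_ne_zero : (2 : A) ≠ 0) (hxA.trans h1.symm)
    have hxi : IsIntegral ℤ (algebraMap ℚ A (1 / 2)) := by
      rw [← hx2]
      exact RingOfIntegers.isIntegral_coe x
    have hq : IsIntegral ℤ (1 / 2 : ℚ) :=
      (isIntegral_algebraMap_iff (algebraMap ℚ A).injective).1 hxi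
    obtain ⟨n, hn⟩ := IsIntegrallyClosed.isIntegral_iff.1 hq
    have h3 : (2 : ℚ) * n = 1 := by
      have : (algebraMap ℤ ℚ) n = (n : ℚ) := rfl
      rw [this] at hn
      rw [hn]
      norm_num
    have h4 : (2 : ℤ) * n = 1 := by exact_mod_cast h3
    omega
  obtain ⟨M, hM, h2⟩ := exists_max_ideal_of_mem_nonunits hu
  have hne : M ≠ ⊥ := fun h => by
    rw [h] at h2
    exact two_ne_zero (Ideal.mem_bot.1 h2)
  refine ⟨⟨M, hM.isPrime, hne⟩, ?_⟩
  have h5 : (⟨M, hM.isPrime, hne⟩ : HeightOneSpectrum (𝓞 A)).valuation A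
      (algebraMap (𝓞 A) A 2) < 1 :=
    (HeightOneSpectrum.valuation_lt_one_iff_mem _ (2 : 𝓞 A)).2 h2
  rwa [map_ofNat] at h5

theorem rat_sel {A : Type*} [Field A] [NumberField A] {θ : A} (h : Cub ℚ A θ) (α : A)
    (hα : Sel ℚ A α) : IsSquare α := by
  have hα0 := hα.ne_zero
  obtain ⟨ε, c, hc, e⟩ := exists_unit_mul_sq (base_pid h) α hα0 hα.val
  have hn : 0 < Algebra.norm ℚ ((ε : 𝓞 A) : A) := by
    obtain ⟨r, hr⟩ := hα.norm
    have h1 : Algebra.norm ℚ α ≠ 0 := (Algebra.norm_ne_zero_iff).2 hα0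
    have h2 : Algebra.norm ℚ c ≠ 0 := (Algebra.norm_ne_zero_iff).2 hc
    have h3 : Algebra.norm ℚ α = Algebra.norm ℚ ((ε : 𝓞 A) : A) * Algebra.norm ℚ c ^ 2 := by
      rw [e, map_mul, map_pow]
    have h4 : 0 < Algebra.norm ℚ α := by
      rw [hr] at h1 ⊢
      exact lt_of_le_of_ne (mul_self_nonneg r) (Ne.symm h1)
    rw [h3] at h4
    exact (mul_pos_iff_of_pos_right (by positivity)).1 h4
  rcases base_unit h ε hn with ⟨t, ht⟩ | ⟨t, ht⟩
  · exact ⟨t * c, by rw [e, ht]; ring⟩
  · exfalso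
    have hθ : θ - 1 ≠ 0 := fun h1 => by
      have h2 : θ = 1 := sub_eq_zero.1 h1
      have h3 := h.cube
      rw [h2, one_pow] at h3
      have h4 : (1 : ℕ) = 2 := by exact_mod_cast h3
      omega
    have h1 : α * (θ - 1) = (t * c) ^ 2 := by
      rw [e]
      calc ((ε : 𝓞 A) : A) * c ^ 2 * (θ - 1) = (((ε : 𝓞 A) : A) * (θ - 1)) * c ^ 2 := by ring
        _ = _ := by rw [ht]; ring
    have htc : t * c ≠ 0 := fun h2 => by
      rw [h2] at h1
      rcases mul_eq_zero.1 (h1.trans (by ring)) with h3 | h3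
      · exact hα0 h3
      · exact hθ h3
    obtain ⟨w, hw⟩ := BA_above A
    obtain ⟨s, hs⟩ := hα.two w hw
    refine base_theta h w hw (s * α / (t * c)) ?_
    have h2 : (θ - 1) * (s * α / (t * c)) ^ 2 = α * s ^ 2 := by
      rw [div_pow, ← h1]
      field_simp
    rw [h2]
    exact hs

/-- `N` is a copy of `ℚ` (in any universe). `unr`, `tame`: for a place `v` of `N`, `ram ℚ v = 1`
(`ram_pos`, `ram_le`, `finrank ℚ N = 1`), so `v(2)`, `v(3)` are given by `rat_val` at `below ℚ v`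
and `val_below`. `sel`: `Cub N A θ` implies `Cub ℚ A θ` (for the canonical `Algebra ℚ A`), and
`Sel N A α` implies `Sel ℚ A α`: `Algebra.norm ℚ α = Algebra.norm ℚ (Algebra.norm N α)`
(`Algebra.norm_norm`) and the norm of a square is a square; then `rat_sel`. -/
theorem good_base (N : Type u) [Field N] [NumberField N]
    (hb : Function.Bijective (algebraMap ℚ N)) : Good N := by
  have hfr : finrank ℚ N = 1 := by
    rw [finrank_eq_one_iff']
    refine ⟨1, one_ne_zero, fun w => ?_⟩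
    obtain ⟨q, hq⟩ := hb.2 w
    exact ⟨q, by rw [Algebra.smul_def, mul_one, hq]⟩
  have hram : ∀ v : HeightOneSpectrum (𝓞 N), ram ℚ v = 1 := by
    intro v
    have h1 := ram_pos ℚ v
    have h2 := ram_le ℚ v
    omega
  have hval : ∀ (v : HeightOneSpectrum (𝓞 N)) (x : ℚ),
      v.valuation N (algebraMap ℚ N x) = (below ℚ v).valuation ℚ x := by
    intro v x
    rw [val_below, hram, pow_one]
  refine ⟨fun v hv => ?_, fun v hv m hm => ?_, fun A _ _ _ θ h α hα => ?_⟩
  · have h1 := hval v 2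
    rw [map_ofNat] at h1
    rw [h1] at hv ⊢
    have := rat_val 2 Nat.prime_two (below ℚ v) (by exact_mod_cast hv)
    exact_mod_cast this
  · have h1 := hval v 3
    rw [map_ofNat] at h1
    rw [h1] at hv hm
    have h2 := rat_val 3 Nat.prime_three (below ℚ v) (by exact_mod_cast hv)
    have h3 : (below ℚ v).valuation ℚ (3 : ℚ) = exp (-1 : ℤ) := by exact_mod_cast h2
    rw [h3] at hm
    have h4 : (-1 : ℤ) = 3 * m := WithZero.exp_injective hm
    omega
  · have hC : Cub ℚ A θ := by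
      refine ⟨h.cube, ?_, fun x hx => ?_⟩
      · rw [← Module.finrank_mul_finrank ℚ N A, hfr, h.deg]
      · refine h.gen (algebraMap ℚ N x) ?_
        rw [← hx]
        exact (IsScalarTower.algebraMap_apply ℚ N A x).symm
    refine rat_sel hC α ⟨hα.ne_zero, ?_, hα.val, hα.two⟩
    rw [← Algebra.norm_norm (R := ℚ) (S := N)]
    exact hα.norm.map (Algebra.norm ℚ)

end Pool.Agent.Lib.MP_1a91b9_ntT.S5
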