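import Pool.Agent.Lib.MP_1a91b9_ntT.S5.CubBasic

/-!
# JOB S5-BaseSig: signature, discriminant of `ℚ(θ)`, `θ³ = 2`
-/

set_option autoImplicit false

namespace Pool.Agent.Lib.MP_1a91b9_ntT.S5

open IsDedekindDomain NumberField WithZero Module

variable {A : Type*} [Field A] [NumberField A] {θ : A}

/-- two embeddings which agree on `θ` are equal -/
private theorem BS1_ext (h : Cub ℚ A θ) {R : Type*} [Field R] [CharZero R] (φ ψ : A →+* R)
    (e : φ θ = ψ θ) : φ = ψ := by
  ext α
  obtain ⟨a, b, c, hα⟩ := h.repr α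
  have h1 : ∀ q : ℚ, φ (algebraMap ℚ A q) = ψ (algebraMap ℚ A q) := fun q => by
    rw [eq_ratCast (algebraMap ℚ A) q, map_ratCast, map_ratCast]
  rw [hα, map_add, map_add, map_mul, map_mul, map_pow, map_add, map_add, map_mul, map_mul,
    map_pow, h1, h1, h1, e]

private theorem BS1_real_le (h : Cub ℚ A θ) : InfinitePlace.nrRealPlaces A ≤ 1 := by
  classical
  rw [← InfinitePlace.card_real_embeddings]
  refine Fintype.card_le_one_iff.2 fun φ ψ => ?_
  have key : ∀ χ : {φ : A →+* ℂ // ComplexEmbedding.IsReal φ},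
      ∃ r : ℝ, χ.1 θ = (r : ℂ) ∧ r ^ 3 = 2 := fun χ => by
    refine ⟨χ.2.embedding θ, (ComplexEmbedding.IsReal.coe_embedding_apply χ.2 θ).symm, ?_⟩
    rw [← map_pow, h.cube, map_ofNat]
  obtain ⟨r, hr, hr3⟩ := key φ
  obtain ⟨t, ht, ht3⟩ := key ψ
  have hrt : r = t := by
    have h1 : (r - t) * (r ^ 2 + r * t + t ^ 2) = 0 := by
      have : (r - t) * (r ^ 2 + r * t + t ^ 2) = r ^ 3 - t ^ 3 := by ring
      rw [this, hr3, ht3, sub_self]
    rcases mul_eq_zero.1 h1 with h2 | h2
    · linarith
    · exfalso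
      have h3 : r ^ 2 + r * t + t ^ 2 = (r + t / 2) ^ 2 + 3 / 4 * t ^ 2 := by ring
      rw [h3] at h2
      have h4 : t ^ 2 = 0 := by
        have h5 := sq_nonneg (r + t / 2)
        have h6 := sq_nonneg t
        linarith
      have h5 : t = 0 := by simpa using h4
      rw [h5] at ht3
      norm_num at ht3
  apply Subtype.ext
  exact BS1_ext h _ _ (by rw [hr, ht, hrt])

/-- `r₁ + 2 r₂ = 3`. If `r₂ = 0` all three embeddings `A → ℂ` are real; they are determined by
the image of `θ` (`A = ℚ(θ)`), a real number with cube 2, and there is only one such real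
number. So `r₂ = 1`. (`InfinitePlace.card_add_two_mul_card_eq_rank`,
`InfinitePlace.card_real_embeddings`, ...) -/
theorem base_complex (h : Cub ℚ A θ) : InfinitePlace.nrComplexPlaces A = 1 := by
  have h1 := InfinitePlace.card_add_two_mul_card_eq_rank A
  have h2 := BS1_real_le h
  have h3 := h.deg
  omega

theorem base_real (h : Cub ℚ A θ) : InfinitePlace.nrRealPlaces A = 1 := by
  have h1 := InfinitePlace.card_add_two_mul_card_eq_rank A
  have h2 := base_complex h
  have h3 := h.deg
  omega

/-- a real place exists, and `θ ↦` the real cube root of 2, greater than 1 -/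
theorem base_embedding (h : Cub ℚ A θ) : ∃ φ : A →+* ℝ, 1 < φ θ := by
  classical
  have h1 := base_real h
  have h2 : 0 < Fintype.card {w : InfinitePlace A // InfinitePlace.IsReal w} := by
    have h3 : InfinitePlace.nrRealPlaces A =
        Fintype.card {w : InfinitePlace A // InfinitePlace.IsReal w} := by
      unfold InfinitePlace.nrRealPlaces
      exact Fintype.card_congr (Equiv.refl _)
    omega
  obtain ⟨w⟩ := Fintype.card_pos_iff.1 h2
  refine ⟨InfinitePlace.embedding_of_isReal w.2, ?_⟩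
  have h3 : (InfinitePlace.embedding_of_isReal w.2 θ) ^ 3 = 2 := by
    rw [← map_pow, h.cube, map_ofNat]
  by_contra h4
  have h5 : InfinitePlace.embedding_of_isReal w.2 θ ≤ 1 := not_lt.1 h4
  generalize InfinitePlace.embedding_of_isReal w.2 θ = r at h3 h5
  have h6 : r ^ 3 ≤ 1 ^ 3 := (Odd.strictMono_pow (by decide : Odd 3)).monotone h5
  rw [h3] at h6
  norm_num at h6

/-- `NumberField.Units.rank A = card (InfinitePlace A) - 1 = 1` -/
theorem base_rank (h : Cub ℚ A θ) : Units.rank A = 1 := by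
  unfold Units.rank
  rw [InfinitePlace.card_eq_nrRealPlaces_add_nrComplexPlaces, base_real h, base_complex h]

/-- an element whose minimal polynomial is `X ^ 3 - r` has trace zero -/
private theorem BS2_trace {x : A} (r : ℚ) (hx : x ^ 3 = algebraMap ℚ A r)
    (hind : ∀ a b c : ℚ, algebraMap ℚ A a + algebraMap ℚ A b * x + algebraMap ℚ A c * x ^ 2 = 0 →
      a = 0 ∧ b = 0 ∧ c = 0) : Algebra.trace ℚ A x = 0 := by
  have hm : (Polynomial.X ^ 3 - Polynomial.C r : Polynomial ℚ).Monic :=
    Polynomial.monic_X_pow_sub_C r (by norm_num)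
  have hd : (Polynomial.X ^ 3 - Polynomial.C r : Polynomial ℚ).natDegree = 3 :=
    Polynomial.natDegree_X_pow_sub_C
  have hmin : (Polynomial.X ^ 3 - Polynomial.C r : Polynomial ℚ) = minpoly ℚ x := by
    refine minpoly.unique' ℚ x hm ?_ fun q hq => ?_
    · rw [map_sub, map_pow, Polynomial.aeval_X, Polynomial.aeval_C, hx, sub_self]
    · by_cases h0 : Polynomial.aeval x q = 0
      · left
        have hq2 : q.natDegree < 3 := by
          by_cases hq0 : q = 0
          · rw [hq0]; simp
          · rw [← hd]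
            exact Polynomial.natDegree_lt_natDegree hq0 hq
        have hev := Polynomial.aeval_eq_sum_range' (p := q) hq2 x
        rw [h0] at hev
        simp only [Finset.sum_range_succ, Finset.sum_range_zero, zero_add, pow_zero, pow_one,
          Algebra.smul_def, mul_one] at hev
        obtain ⟨h1, h2, h3⟩ := hind _ _ _ hev.symm
        ext i
        rw [Polynomial.coeff_zero]
        rcases Nat.lt_or_ge i 3 with hi | hi
        · interval_cases i
          · exact h1
          · exact h2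
          · exact h3
        · exact Polynomial.coeff_eq_zero_of_natDegree_lt (lt_of_lt_of_le hq2 hi)
      · exact Or.inr h0
  rw [trace_eq_finrank_mul_minpoly_nextCoeff, ← hmin,
    Polynomial.nextCoeff_of_natDegree_pos (by rw [hd]; norm_num), hd]
  simp

private theorem BS2_traces (h : Cub ℚ A θ) (i j : Fin 3) :
    Algebra.trace ℚ A (θ ^ (i : ℕ) * θ ^ (j : ℕ)) =
      (!![(3 : ℚ), 0, 0; 0, 0, 6; 0, 6, 0] : Matrix (Fin 3) (Fin 3) ℚ) i j := by
  have h3 := h.cube
  have t0 : ∀ q : ℚ, Algebra.trace ℚ A (algebraMap ℚ A q) = 3 * q := fun q => by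
    rw [Algebra.trace_algebraMap, h.deg, nsmul_eq_mul]
    norm_num
  have t1 : Algebra.trace ℚ A θ = 0 :=
    BS2_trace 2 (by rw [h3, map_ofNat]) (h.indep)
  have t2 : Algebra.trace ℚ A (θ ^ 2) = 0 := by
    refine BS2_trace 4 ?_ fun a b c e => ?_
    · calc (θ ^ 2) ^ 3 = (θ ^ 3) ^ 2 := by ring
        _ = _ := by rw [h3, map_ofNat]; norm_num
    · have e2 : algebraMap ℚ A a + algebraMap ℚ A (2 * c) * θ + algebraMap ℚ A b * θ ^ 2 = 0 := by
        rw [← e, map_mul, map_ofNat]
        have : (θ ^ 2) ^ 2 = 2 * θ := by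
          calc (θ ^ 2) ^ 2 = θ ^ 3 * θ := by ring
            _ = _ := by rw [h3]
        rw [this]
        ring
      obtain ⟨h4, h5, h6⟩ := h.indep _ _ _ e2
      exact ⟨h4, h6, by linarith⟩
  have t00 : Algebra.trace ℚ A 1 = 3 := by
    have := t0 1
    rwa [map_one, mul_one] at this
  have t3 : Algebra.trace ℚ A (θ ^ 3) = 6 := by
    have := t0 2
    rw [map_ofNat] at this
    rw [h3, this]
    norm_num
  have t4 : Algebra.trace ℚ A (θ ^ 4) = 0 := by
    have : θ ^ 4 = (2 : ℚ) • θ := by
      rw [Algebra.smul_def, map_ofNat]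
      calc θ ^ 4 = θ ^ 3 * θ := by ring
        _ = _ := by rw [h3]
    rw [this, map_smul, t1, smul_zero]
  rw [← pow_add]
  fin_cases i <;> fin_cases j <;> simp [t00, t1, t2, t3, t4]

/-- The family `1, θ, θ²` of integers has discriminant `-108` (trace form: traces of
`1, θ, θ², θ³ = 2, θ⁴ = 2 θ` are `3, 0, 0, 6, 0`), which is `(det)² * discr A` with `det` the
integer determinant of its coordinates in an integral basis (`Algebra.discr_of_matrix_vecMul`,
`NumberField.coe_discr`, `integralBasis`). -/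
theorem base_discr (h : Cub ℚ A θ) : |discr A| ≤ 108 := by
  classical
  have hint : IsIntegral ℤ θ := by
    refine ⟨Polynomial.X ^ 3 - Polynomial.C 2, Polynomial.monic_X_pow_sub_C 2 (by norm_num), ?_⟩
    rw [Polynomial.eval₂_sub, Polynomial.eval₂_pow, Polynomial.eval₂_X, Polynomial.eval₂_C, h.cube]
    simp
  obtain ⟨t, ht⟩ : ∃ t : 𝓞 A, (t : A) = θ := ⟨⟨θ, hint⟩, rfl⟩
  have hcard : Fintype.card (Module.Free.ChooseBasisIndex ℤ (𝓞 A)) = Fintype.card (Fin 3) := by
    rw [← Module.finrank_eq_card_chooseBasisIndex, RingOfIntegers.rank, h.deg, Fintype.card_fin]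
  set b := (RingOfIntegers.basis A).reindex (Fintype.equivOfCardEq hcard) with hb
  set v : Fin 3 → 𝓞 A := fun i => t ^ (i : ℕ) with hv
  have h1 : Algebra.discr ℤ v = (b.toMatrix v).det ^ 2 * discr A := by
    have h2 := Algebra.discr_of_matrix_vecMul (b : Fin 3 → 𝓞 A) (b.toMatrix v)
    rw [Basis.toMatrix_map_vecMul, discr_eq_discr] at h2
    exact h2
  have h3 : ((Algebra.discr ℤ v : ℤ) : ℚ) = -108 := by
    rw [Algebra.discr_def, ← eq_intCast (Int.castRingHom ℚ), RingHom.map_det]
    have h4 : (Int.castRingHom ℚ).mapMatrix (Algebra.traceMatrix ℤ v) =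
        (!![(3 : ℚ), 0, 0; 0, 0, 6; 0, 6, 0] : Matrix (Fin 3) (Fin 3) ℚ) := by
      ext i j
      rw [RingHom.mapMatrix_apply, Matrix.map_apply, Algebra.traceMatrix_apply,
        Algebra.traceForm_apply, eq_intCast, Algebra.coe_trace_int, ← BS2_traces h i j]
      simp only [hv, map_mul, map_pow, ht]
    rw [h4, Matrix.det_fin_three]
    simp
    norm_num
  have h5 : Algebra.discr ℤ v = -108 := by exact_mod_cast h3
  rw [h1] at h5
  have h6 : (b.toMatrix v).det ≠ 0 := fun h0 => by
    rw [h0] at h5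
    norm_num at h5
  have h7 : 1 ≤ (b.toMatrix v).det ^ 2 := by
    have := Int.one_le_abs h6
    rw [← sq_abs]
    nlinarith
  have h8 : |(b.toMatrix v).det ^ 2 * discr A| = 108 := by rw [h5]; norm_num
  rw [abs_mul, abs_of_nonneg (sq_nonneg _)] at h8
  nlinarith [abs_nonneg (discr A)]

end Pool.Agent.Lib.MP_1a91b9_ntT.S5
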