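import Pool.Agent.Lib.MP_1a91b9_ntT.S5.BaseSig
import Pool.Agent.Lib.MP_1a91b9_ntT.S5.BaseTwo

/-!
# JOB S5-BaseUnit: the units of `ℚ(θ)` modulo squares

By Dirichlet (`NumberField.Units.exist_unique_eq_mul_prod`, rank 1 by `base_rank`) every unit is
`ζ u ^ n`, `ζ` a root of unity; the real embedding of `base_embedding` shows `ζ = ± 1`. `θ - 1` is a
unit (`(θ - 1) (θ² + θ + 1) = 1`) of norm 1 (`Cub.norm_eq`), positive in the real embedding.
`θ - 1 = ± u ^ m`; `m` is odd: if `m` is even, `θ - 1` is a square (positivity), `θ - 1 = t²`, which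
contradicts `base_theta` with `s = t⁻¹`, at a place `w` above 2 (`exists_above`). So, modulo
squares, `u = ± (θ - 1)` and every unit is `± 1` or `± (θ - 1)`; positive norm: the sign is `+`
(`norm (-1) = -1`).
-/

set_option autoImplicit false

namespace Pool.Agent.Lib.MP_1a91b9_ntT.S5

open IsDedekindDomain NumberField WithZero Module

/-- roots of unity in a field with a real embedding -/
theorem BU_tors {A : Type*} [Field A] [NumberField A] (φ : A →+* ℝ)
    (ζ : (𝓞 A)ˣ) (hζ : ζ ∈ Units.torsion A) : ζ = 1 ∨ ζ = -1 := by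
  obtain ⟨n, hn, h1⟩ := isOfFinOrder_iff_pow_eq_one.1 (show IsOfFinOrder ζ from hζ)
  have h2 : (φ ((ζ : 𝓞 A) : A)) ^ n = 1 := by
    have h3 : (((ζ ^ n : (𝓞 A)ˣ) : 𝓞 A) : A) = 1 := by rw [h1]; simp
    have h4 := congrArg φ h3
    push_cast at h4
    simpa using h4
  rcases (pow_eq_one_iff_of_ne_zero hn.ne').1 h2 with h3 | ⟨h3, _⟩
  · left
    apply Units.ext
    apply RingOfIntegers.ext
    apply φ.injective
    simpa using h3
  · right
    apply Units.ext
    apply RingOfIntegers.ext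
    apply φ.injective
    simpa using h3

theorem BU_form {A : Type*} [Field A] [NumberField A] {θ : A} (h : Cub ℚ A θ) :
    ∃ u : (𝓞 A)ˣ, ∀ x : (𝓞 A)ˣ, ∃ n : ℤ, x = u ^ n ∨ x = -u ^ n := by
  obtain ⟨φ, _⟩ := base_embedding h
  have hr := base_rank h
  let i0 : Fin (Units.rank A) := ⟨0, by omega⟩
  have hsub : Subsingleton (Fin (Units.rank A)) := by
    rw [hr]
    infer_instance
  refine ⟨Units.fundSystem A i0, fun x => ?_⟩
  obtain ⟨⟨ζ, e⟩, he, _⟩ := Units.exist_unique_eq_mul_prod A x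
  refine ⟨e i0, ?_⟩
  simp only at he
  rw [Fintype.prod_subsingleton _ i0] at he
  rcases BU_tors φ (ζ : (𝓞 A)ˣ) ζ.2 with h1 | h1
  · left
    rw [he, h1, one_mul]
  · right
    rw [he, h1, neg_one_mul]

/-- the sign-free dichotomy -/
theorem BU_dich {A : Type*} [Field A] [NumberField A] {θ : A} (h : Cub ℚ A θ) (x y : (𝓞 A)ˣ) :
    (IsSquare x ∨ IsSquare (-x)) ∨ (IsSquare y ∨ IsSquare (-y)) ∨
      (IsSquare (x * y) ∨ IsSquare (-(x * y))) := by
  obtain ⟨u, hu⟩ := BU_form h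
  obtain ⟨n, hn⟩ := hu x
  obtain ⟨m, hm⟩ := hu y
  have hev : ∀ k : ℤ, Even k → IsSquare (u ^ k) := by
    rintro k ⟨l, rfl⟩
    exact ⟨u ^ l, zpow_add u l l⟩
  rcases Int.even_or_odd n with h1 | h1
  · left
    rcases hn with rfl | rfl
    · exact Or.inl (hev n h1)
    · right
      rw [neg_neg]
      exact hev n h1
  · rcases Int.even_or_odd m with h2 | h2
    · right; left
      rcases hm with rfl | rfl
      · exact Or.inl (hev m h2)
      · right
        rw [neg_neg]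
        exact hev m h2
    · right; right
      have h3 : IsSquare (u ^ n * u ^ m) := by
        rw [← zpow_add]
        exact hev _ (h1.add_odd h2)
      rcases hn with rfl | rfl <;> rcases hm with rfl | rfl
      · exact Or.inl h3
      · right; rw [mul_neg, neg_neg]; exact h3
      · right; rw [neg_mul, neg_neg]; exact h3
      · left; rw [neg_mul_neg]; exact h3

theorem BU_sq {A : Type*} [Field A] [NumberField A] {x : (𝓞 A)ˣ} (hx : IsSquare x) :
    IsSquare ((x : 𝓞 A) : A) := by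
  obtain ⟨r, rfl⟩ := hx
  exact ⟨((r : 𝓞 A) : A), by push_cast; rfl⟩

theorem BU_sq_neg {A : Type*} [Field A] [NumberField A] {x : (𝓞 A)ˣ} (hx : IsSquare (-x)) :
    IsSquare (-((x : 𝓞 A) : A)) := by
  obtain ⟨r, hr⟩ := hx
  refine ⟨((r : 𝓞 A) : A), ?_⟩
  have h1 : x = -(r * r) := by rw [← hr, neg_neg]
  rw [h1, Units.val_neg, Units.val_mul]
  show -(algebraMap (𝓞 A) A (-((r : 𝓞 A) * (r : 𝓞 A)))) =
    algebraMap (𝓞 A) A (r : 𝓞 A) * algebraMap (𝓞 A) A (r : 𝓞 A)
  rw [map_neg, map_mul, neg_neg]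

/-- there is a place above two -/
theorem BU_place (A : Type*) [Field A] [NumberField A] :
    ∃ w : HeightOneSpectrum (𝓞 A), w.valuation A 2 < 1 := by
  have hp0 : (2 : 𝓞 ℚ) ≠ 0 := two_ne_zero
  have hprime : Prime (2 : 𝓞 ℚ) := by
    have h1 : Prime (2 : ℤ) := Int.prime_two
    have h2 : Rat.ringOfIntegersEquiv (2 : 𝓞 ℚ) = (2 : ℤ) := map_ofNat _ 2
    rw [← MulEquiv.prime_iff (Rat.ringOfIntegersEquiv.toMulEquiv)]
    show Prime (Rat.ringOfIntegersEquiv (2 : 𝓞 ℚ))
    rw [h2]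
    exact h1
  let v : HeightOneSpectrum (𝓞 ℚ) := ⟨Ideal.span {(2 : 𝓞 ℚ)},
    (Ideal.span_singleton_prime hp0).2 hprime, by
      rw [Ne, Ideal.span_singleton_eq_bot]; exact hp0⟩
  have hv : v.valuation ℚ 2 < 1 := by
    have hcast : (2 : ℚ) = algebraMap (𝓞 ℚ) ℚ (2 : 𝓞 ℚ) := (map_ofNat (algebraMap (𝓞 ℚ) ℚ) 2).symm
    rw [hcast, HeightOneSpectrum.valuation_of_algebraMap, v.intValuation_lt_one_iff_mem]
    exact Ideal.mem_span_singleton_self _
  obtain ⟨w, hw⟩ := exists_above ℚ A v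
  refine ⟨w, ?_⟩
  have h1 := val_below ℚ w 2
  rw [map_ofNat, hw] at h1
  rw [h1]
  exact pow_lt_one₀ zero_le hv (ram_pos ℚ w).ne'

theorem base_unit {A : Type*} [Field A] [NumberField A] {θ : A} (h : Cub ℚ A θ)
    (ε : (𝓞 A)ˣ) (hn : 0 < Algebra.norm ℚ ((ε : 𝓞 A) : A)) :
    IsSquare ((ε : 𝓞 A) : A) ∨ IsSquare (((ε : 𝓞 A) : A) * (θ - 1)) := by
  obtain ⟨φ, hφ⟩ := base_embedding h
  have hθi : IsIntegral ℤ θ := by
    refine ⟨Polynomial.X ^ 3 - Polynomial.C 2, Polynomial.monic_X_pow_sub_C _ (by norm_num), ?_⟩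
    simp [h.cube]
  let t : 𝓞 A := ⟨θ, hθi⟩
  have ht3 : t ^ 3 = 2 := by
    apply RingOfIntegers.ext
    simp only [t]
    push_cast
    exact h.cube
  let η : (𝓞 A)ˣ := ⟨t - 1, t ^ 2 + t + 1, by linear_combination ht3, by linear_combination ht3⟩
  have hη : ((η : 𝓞 A) : A) = θ - 1 := by
    simp only [η, t]
    push_cast
    rfl
  -- signs by the norm
  have hsign : ∀ x : A, 0 < Algebra.norm ℚ x → IsSquare (-x) → IsSquare x := by
    rintro x hx ⟨r, hr⟩
    exfalso
    have h1 : x = algebraMap ℚ A (-1) * (r * r) := by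
      rw [← hr]; simp
    rw [h1, map_mul, map_mul, Algebra.norm_algebraMap, h.deg] at hx
    nlinarith [mul_self_nonneg (Algebra.norm ℚ r)]
  have hnη : Algebra.norm ℚ (θ - 1) = 1 := by
    have h1 := h.norm_eq (-1) 1 0
    have h2 : algebraMap ℚ A (-1) + algebraMap ℚ A 1 * θ + algebraMap ℚ A 0 * θ ^ 2 = θ - 1 := by
      simp; ring
    rw [h2] at h1
    rw [h1]; norm_num
  rcases BU_dich h ε η with h1 | h1 | h1
  · left
    rcases h1 with h1 | h1
    · exact BU_sq h1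
    · exact hsign _ hn (BU_sq_neg h1)
  · exfalso
    have h2 : IsSquare (θ - 1) := by
      rcases h1 with h1 | h1
      · have h2 := BU_sq h1
        rwa [hη] at h2
      · exfalso
        have h2 := BU_sq_neg h1
        rw [hη] at h2
        obtain ⟨r, hr⟩ := h2
        have h3 := congrArg φ hr
        simp only [map_neg, map_sub, map_one, map_mul] at h3
        nlinarith [mul_self_nonneg (φ r)]
    obtain ⟨r, hr⟩ := h2
    obtain ⟨w, hw⟩ := BU_place A
    have hθ1 : θ - 1 ≠ 0 := by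
      intro h3
      rw [h3] at hnη
      simp at hnη
    have hr0 : r ≠ 0 := by
      rintro rfl
      exact hθ1 (by rw [hr]; ring)
    apply base_theta h w hw r⁻¹
    have h4 : (θ - 1) * r⁻¹ ^ 2 - 1 = 0 := by
      rw [hr]; field_simp; ring
    rw [h4, map_zero]
    exact zero_le
  · right
    have hcoe : ((ε * η : (𝓞 A)ˣ) : 𝓞 A) = (ε : 𝓞 A) * (η : 𝓞 A) := Units.val_mul _ _
    have hcoe2 : (((ε * η : (𝓞 A)ˣ) : 𝓞 A) : A) = ((ε : 𝓞 A) : A) * (θ - 1) := by
      rw [hcoe, ← hη]; push_cast; rfl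
    rcases h1 with h1 | h1
    · have h2 := BU_sq h1
      rwa [hcoe2] at h2
    · have h2 := BU_sq_neg h1
      rw [hcoe2] at h2
      apply hsign _ _ h2
      rw [map_mul, hnη, mul_one]
      exact hn

end Pool.Agent.Lib.MP_1a91b9_ntT.S5
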