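import Pool.Agent.Lib.MP_1a91b9_ntT.S5.Defs

/-!
# JOB S5-Conj: the conjugate of a place

Take `w' = σ⁻¹ w`, i.e. the comap of `w.asIdeal` under the automorphism of `𝓞 L` induced by `σ`
(`NumberField.RingOfIntegers.mapAlgEquiv` or `mapRingEquiv`). `intValuation` is transported by a
ring isomorphism, e.g. through `intValuation_le_pow_iff_mem` (membership in powers of the ideal)
or through multiplicities; then pass to the fraction field (`IsFractionRing.div_surjective`).
-/

set_option autoImplicit false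

namespace Pool.Agent.Lib.MP_1a91b9_ntT.S5

open IsDedekindDomain NumberField WithZero Module

private theorem CJ_int {L : Type*} [Field L] [NumberField L] (φ : 𝓞 L ≃+* 𝓞 L)
    (w w' : HeightOneSpectrum (𝓞 L)) (h : w'.asIdeal = w.asIdeal.comap (φ : 𝓞 L →+* 𝓞 L)) (x : 𝓞 L) :
    w'.intValuation x = w.intValuation (φ x) := by
  have hmem : ∀ n : ℕ, x ∈ w'.asIdeal ^ n ↔ φ x ∈ w.asIdeal ^ n := by
    intro n
    have h1 : w'.asIdeal = w.asIdeal.map (φ.symm : 𝓞 L →+* 𝓞 L) := by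
      rw [h]
      exact (Ideal.map_symm φ).symm
    have h2 : w'.asIdeal ^ n = (w.asIdeal ^ n).comap (φ : 𝓞 L →+* 𝓞 L) := by
      rw [h1, ← Ideal.map_pow]
      exact Ideal.map_symm φ
    rw [h2]
    exact Iff.rfl
  have hle : ∀ n : ℕ, w'.intValuation x ≤ exp (-(n : ℤ)) ↔ w.intValuation (φ x) ≤ exp (-(n : ℤ)) := by
    intro n
    rw [w'.intValuation_le_pow_iff_mem, w.intValuation_le_pow_iff_mem, hmem]
  by_cases hx : x = 0
  · subst hx
    simp
  · have hx' : φ x ≠ 0 := by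
      intro h0
      exact hx (by simpa using h0)
    apply le_antisymm
    · rw [w.intValuation_eq_exp_neg_multiplicity hx']
      rw [hle, w.intValuation_eq_exp_neg_multiplicity hx']
    · rw [w'.intValuation_eq_exp_neg_multiplicity hx]
      rw [← hle, w'.intValuation_eq_exp_neg_multiplicity hx]

theorem exists_conj_place {K L : Type*} [Field K] [NumberField K] [Field L] [NumberField L]
    [Algebra K L] (σ : L ≃ₐ[K] L) (w : HeightOneSpectrum (𝓞 L)) :
    ∃ w' : HeightOneSpectrum (𝓞 L), below K w' = below K w ∧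
      ∀ x : L, w'.valuation L x = w.valuation L (σ x) := by
  let φ : 𝓞 L ≃+* 𝓞 L := RingOfIntegers.mapRingEquiv (σ : L ≃+* L)
  have hφ : ∀ x : 𝓞 L, ((φ x : 𝓞 L) : L) = σ (x : L) := fun x => rfl
  let w' : HeightOneSpectrum (𝓞 L) :=
    HeightOneSpectrum.comap (φ : 𝓞 L →+* 𝓞 L) φ.surjective w
  have hw' : w'.asIdeal = w.asIdeal.comap (φ : 𝓞 L →+* 𝓞 L) := rfl
  refine ⟨w', ?_, ?_⟩
  · apply HeightOneSpectrum.ext
    ext x
    have hfix : φ (algebraMap (𝓞 K) (𝓞 L) x) = algebraMap (𝓞 K) (𝓞 L) x := by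
      apply RingOfIntegers.ext
      rw [hφ]
      exact σ.commutes (x : K)
    change algebraMap (𝓞 K) (𝓞 L) x ∈ w'.asIdeal ↔ algebraMap (𝓞 K) (𝓞 L) x ∈ w.asIdeal
    rw [hw', Ideal.mem_comap]
    change φ (algebraMap (𝓞 K) (𝓞 L) x) ∈ w.asIdeal ↔ _
    rw [hfix]
  · intro x
    obtain ⟨a, b, hb, rfl⟩ := IsFractionRing.div_surjective (A := 𝓞 L) x
    rw [map_div₀, map_div₀, map_div₀]
    have e : ∀ c : 𝓞 L, w'.valuation L (algebraMap (𝓞 L) L c) = w.valuation L (σ (algebraMap (𝓞 L) L c)) := by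
      intro c
      have e1 : σ (algebraMap (𝓞 L) L c) = algebraMap (𝓞 L) L (φ c) := rfl
      rw [e1, HeightOneSpectrum.valuation_of_algebraMap, HeightOneSpectrum.valuation_of_algebraMap]
      exact CJ_int φ w w' hw' c
    rw [e, e]

end Pool.Agent.Lib.MP_1a91b9_ntT.S5
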