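import Pool.Agent.Lib.MP_1a91b9_ntT.S5.Places
import Pool.Agent.Lib.MP_1a91b9_ntT.S5.Zm

/-!
# JOB S5-DescTwo: the condition at 2 goes down through an unramified place

`w` is a place of `L` above 2, `v = below K w`, `ram K w = 1`, so `v(x) = w(x)` for `x : K`
(`val_below`). Given `α : K`, `s' : L` with `w(α s'² - 1) ≤ exp (-2)`. Then `w(α s'²) = 1`, so
`v(α) = w(s')⁻²` is a square; choose `s₀ : K` with `v(s₀) = w(s')`: `v(α s₀²) = 1`.
The residue field at `v` is a finite field of characteristic 2, so there is `a : 𝓞 K`, `a ∉ v`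
with `v(α (s₀ a)² - 1) < 1`: write `(α s₀²)⁻¹ ≡ r mod v` with `r : 𝓞 K`
(`HeightOneSpectrum.exists_valuation_sub_lt_of_integer`) and `r ≡ a² mod v` (the quotient
`𝓞 K ⧸ v` is finite of characteristic 2, hence perfect: `frobenius` bijective, see
`perfect_residue` in Pool/Agent/Lib/MP_1a91b9_nt/Splitting.lean). Put `s = s₀ a`, `t = s' / s`
(`w(t) = 1`): `α s'² = (α s²) t²`, so `w(t² - 1) < 1`; `t² - 1 = (t - 1)² + 2 (t - 1)`, so
`w(t - 1) < 1` (otherwise `w((t-1)²) = w(t-1)^2 ≥ w(t - 1) > w(2 (t-1))` and `w(t²-1) ≥ 1`),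
i.e. `w(t - 1) ≤ exp (-1)`, and `w(2) ≤ exp (-1)`, so `w(t² - 1) ≤ exp (-2)`. Hence
`α s² - 1 = (α s'² - 1) t⁻² + (t⁻² - 1)` has `w ≤ exp (-2)`.
-/

set_option autoImplicit false

namespace Pool.Agent.Lib.MP_1a91b9_ntT.S5

open IsDedekindDomain NumberField WithZero Module

/-- a place above 2: every element of the ring of integers is a square modulo the place -/
private theorem S5_DT_int {K : Type*} [Field K] [NumberField K] (v : HeightOneSpectrum (𝓞 K))
    (h2 : v.valuation K 2 < 1) (r : 𝓞 K) : ∃ a : 𝓞 K, a ^ 2 - r ∈ v.asIdeal := by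
  have hm : v.asIdeal.IsMaximal := v.isMaximal
  have hfin : Finite (𝓞 K ⧸ v.asIdeal) := Ideal.finiteQuotientOfFreeOfNeBot _ v.ne_bot
  let _ : Field (𝓞 K ⧸ v.asIdeal) := Ideal.Quotient.field _
  have h2' : (2 : 𝓞 K) ∈ v.asIdeal := by
    apply (HeightOneSpectrum.valuation_lt_one_iff_mem (K := K) v (2 : 𝓞 K)).mp
    have e : algebraMap (𝓞 K) K (2 : 𝓞 K) = 2 := map_ofNat _ 2
    change v.valuation K (algebraMap (𝓞 K) K (2 : 𝓞 K)) < 1
    rw [e]
    exact h2
  have hz : ((2 : ℕ) : 𝓞 K ⧸ v.asIdeal) = 0 := by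
    have : ((2 : ℕ) : 𝓞 K ⧸ v.asIdeal) = Ideal.Quotient.mk v.asIdeal (2 : 𝓞 K) :=
      (map_ofNat (Ideal.Quotient.mk v.asIdeal) 2).symm
    rw [this]
    exact Ideal.Quotient.eq_zero_iff_mem.mpr h2'
  have hchar : CharP (𝓞 K ⧸ v.asIdeal) 2 := by
    refine CharTwo.of_one_ne_zero_of_two_eq_zero one_ne_zero ?_
    simpa using hz
  have hsq : IsSquare (Ideal.Quotient.mk v.asIdeal r) :=
    FiniteField.isSquare_of_char_two (ringChar.eq _ 2) _
  obtain ⟨b, hb⟩ := hsq
  obtain ⟨a, rfl⟩ := Ideal.Quotient.mk_surjective b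
  refine ⟨a, ?_⟩
  rw [← Ideal.Quotient.eq_zero_iff_mem, map_sub, map_pow, hb]
  ring

/-- a place above 2: every unit is a square modulo the place -/
theorem exists_sq_mod {K : Type*} [Field K] [NumberField K] (v : HeightOneSpectrum (𝓞 K))
    (h2 : v.valuation K 2 < 1) (x : K) (hx : v.valuation K x = 1) :
    ∃ a : K, v.valuation K a = 1 ∧ v.valuation K (x * a ^ 2 - 1) < 1 := by
  have hx0 : x ≠ 0 := by
    rintro rfl
    simp at hx
  have hxi : v.valuation K x⁻¹ = 1 := by rw [map_inv₀, hx, inv_one]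
  obtain ⟨r, hr⟩ := HeightOneSpectrum.exists_valuation_sub_lt_of_integer v (K := K)
    hxi.le (1 : (ℤᵐ⁰)ˣ)
  rw [Units.val_one] at hr
  obtain ⟨a, ha⟩ := S5_DT_int v h2 r
  have ha' : v.valuation K (algebraMap (𝓞 K) K (a ^ 2 - r)) < 1 :=
    (HeightOneSpectrum.valuation_lt_one_iff_mem (K := K) v _).mpr ha
  -- `a² - x⁻¹` is small
  have h3 : v.valuation K ((algebraMap (𝓞 K) K a) ^ 2 - x⁻¹) < 1 := by
    have : (algebraMap (𝓞 K) K a) ^ 2 - x⁻¹ =
        algebraMap (𝓞 K) K (a ^ 2 - r) + (algebraMap (𝓞 K) K r - x⁻¹) := by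
      rw [map_sub, map_pow]; ring
    rw [this]
    exact Valuation.map_add_lt _ ha' hr
  have h4 : v.valuation K ((algebraMap (𝓞 K) K a) ^ 2) = 1 := by
    have : (algebraMap (𝓞 K) K a) ^ 2 = x⁻¹ + ((algebraMap (𝓞 K) K a) ^ 2 - x⁻¹) := by ring
    rw [this, Valuation.map_add_eq_of_lt_left _ (by rw [hxi]; exact h3), hxi]
  refine ⟨algebraMap (𝓞 K) K a, ?_, ?_⟩
  · rw [map_pow] at h4
    exact (pow_eq_one_iff_of_nonneg zero_le (by norm_num)).mp h4
  · have : x * (algebraMap (𝓞 K) K a) ^ 2 - 1 = x * ((algebraMap (𝓞 K) K a) ^ 2 - x⁻¹) := by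
      rw [mul_sub, mul_inv_cancel₀ hx0]
    rw [this, map_mul, hx, one_mul]
    exact h3

/-- a square which is `≡ 1` modulo a place above 2 is `≡ 1` modulo the square of the place -/
theorem sq_sub_one {K : Type*} [Field K] [NumberField K] (v : HeightOneSpectrum (𝓞 K))
    (h2 : v.valuation K 2 < 1) (t : K) (ht : v.valuation K (t ^ 2 - 1) < 1) :
    v.valuation K (t - 1) < 1 ∧ v.valuation K (t ^ 2 - 1) ≤ exp (-2 : ℤ) := by
  have key : t ^ 2 - 1 = (t - 1) ^ 2 + 2 * (t - 1) := by ring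
  have h1 : v.valuation K (t - 1) < 1 := by
    by_contra hcon
    rw [not_lt] at hcon
    have hpos : (0 : ℤᵐ⁰) < v.valuation K (t - 1) := lt_of_lt_of_le zero_lt_one hcon
    have hlt : v.valuation K (2 * (t - 1)) < v.valuation K ((t - 1) ^ 2) := by
      rw [map_mul, map_pow, sq]
      exact mul_lt_mul_of_pos_right (lt_of_lt_of_le h2 hcon) hpos
    rw [key, Valuation.map_add_eq_of_lt_left _ hlt, map_pow] at ht
    exact absurd ht (not_lt.mpr (one_le_pow₀ hcon))
  refine ⟨h1, ?_⟩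
  have h1' : v.valuation K (t - 1) ≤ exp (-1 : ℤ) := lt_one_iff.mp h1
  have h2' : v.valuation K 2 ≤ exp (-1 : ℤ) := lt_one_iff.mp h2
  have hexp : (exp (-2 : ℤ) : ℤᵐ⁰) = exp (-1 : ℤ) * exp (-1 : ℤ) := by
    rw [← exp_add]; norm_num
  rw [key, hexp]
  refine Valuation.map_add_le _ ?_ ?_
  · rw [map_pow, sq]
    exact mul_le_mul' h1' h1'
  · rw [map_mul]
    exact mul_le_mul' h2' h1'

theorem two_descend {K L : Type*} [Field K] [NumberField K] [Field L] [NumberField L]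
    [Algebra K L] (w : HeightOneSpectrum (𝓞 L)) (h2 : w.valuation L 2 < 1) (hr : ram K w = 1)
    (α : K) (s' : L) (hs : w.valuation L (algebraMap K L α * s' ^ 2 - 1) ≤ exp (-2 : ℤ)) :
    ∃ s : K, (below K w).valuation K (α * s ^ 2 - 1) ≤ exp (-2 : ℤ) := by
  have hval : ∀ x : K, w.valuation L (algebraMap K L x) = (below K w).valuation K x := by
    intro x
    rw [val_below, hr, pow_one]
  have hlt1 : (exp (-2 : ℤ) : ℤᵐ⁰) < 1 := by
    rw [← exp_zero, exp_lt_exp]; norm_num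
  -- `w(α s'²) = 1`
  have h1 : w.valuation L (algebraMap K L α * s' ^ 2) = 1 := by
    have : algebraMap K L α * s' ^ 2 = 1 + (algebraMap K L α * s' ^ 2 - 1) := by ring
    rw [this, Valuation.map_add_eq_of_lt_left _ (by
      rw [map_one]; exact lt_of_le_of_lt hs hlt1), map_one]
  have hs0 : s' ≠ 0 := by
    rintro rfl
    simp at h1
  have hws : w.valuation L s' ≠ 0 := (Valuation.ne_zero_iff _).mpr hs0
  -- an element `s₀` of `K` of the same valuation
  obtain ⟨s₀, hs₀⟩ := HeightOneSpectrum.valuation_surjective K (below K w) (w.valuation L s')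
  have hs₀0 : s₀ ≠ 0 := by
    rintro rfl
    rw [map_zero] at hs₀
    exact hws hs₀.symm
  have h3 : (below K w).valuation K (α * s₀ ^ 2) = 1 := by
    rw [map_mul, map_pow, hs₀, ← hval, ← map_pow, ← map_mul, h1]
  have h2K : (below K w).valuation K 2 < 1 := by
    rw [← hval, map_ofNat]
    exact h2
  obtain ⟨a, ha1, ha2⟩ := exists_sq_mod (below K w) h2K _ h3
  have ha0 : a ≠ 0 := by
    rintro rfl
    simp at ha1
  have hsK0 : s₀ * a ≠ 0 := mul_ne_zero hs₀0 ha0
  have hsL0 : algebraMap K L (s₀ * a) ≠ 0 := by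
    intro h
    exact hsK0 ((map_eq_zero _).mp h)
  -- `t = s' / s`
  set t : L := s' / algebraMap K L (s₀ * a) with htdef
  have hst : s' = t * algebraMap K L (s₀ * a) := by
    rw [htdef, div_mul_cancel₀ _ hsL0]
  have hwt : w.valuation L t = 1 := by
    rw [htdef, map_div₀, hval, map_mul, ha1, mul_one, hs₀]
    exact div_self hws
  have ht0 : t ≠ 0 := by
    rintro h
    rw [h, map_zero] at hwt
    exact zero_ne_one hwt
  -- `u = α s²`
  have hu : w.valuation L (algebraMap K L (α * (s₀ * a) ^ 2) - 1) < 1 := by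
    have : algebraMap K L (α * (s₀ * a) ^ 2) - 1 = algebraMap K L (α * s₀ ^ 2 * a ^ 2 - 1) := by
      rw [map_sub, map_one]; ring_nf
    rw [this, hval]
    exact ha2
  have hu1 : w.valuation L (algebraMap K L (α * (s₀ * a) ^ 2)) = 1 := by
    have : algebraMap K L (α * (s₀ * a) ^ 2) =
      1 + (algebraMap K L (α * (s₀ * a) ^ 2) - 1) := by ring
    rw [this, Valuation.map_add_eq_of_lt_left _ (by rw [map_one]; exact hu), map_one]
  have hus : algebraMap K L α * s' ^ 2 = algebraMap K L (α * (s₀ * a) ^ 2) * t ^ 2 := by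
    rw [hst]
    simp only [map_mul, map_pow]
    ring
  have ht2 : w.valuation L (t ^ 2 - 1) < 1 := by
    have e : algebraMap K L (α * (s₀ * a) ^ 2) * (t ^ 2 - 1) =
        (algebraMap K L α * s' ^ 2 - 1) - (algebraMap K L (α * (s₀ * a) ^ 2) - 1) := by
      rw [hus]; ring
    have e2 : w.valuation L (t ^ 2 - 1) =
        w.valuation L (algebraMap K L (α * (s₀ * a) ^ 2) * (t ^ 2 - 1)) := by
      rw [map_mul, hu1, one_mul]
    rw [e2, e]
    exact Valuation.map_sub_lt _ (lt_of_le_of_lt hs hlt1) hu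
  obtain ⟨-, ht3⟩ := sq_sub_one w h2 t ht2
  refine ⟨s₀ * a, ?_⟩
  rw [← hval, map_sub, map_one]
  have e : algebraMap K L (α * (s₀ * a) ^ 2) - 1 =
      ((algebraMap K L α * s' ^ 2 - 1) - (t ^ 2 - 1)) * (t ^ 2)⁻¹ := by
    rw [hus]
    field_simp
    ring
  rw [e, map_mul, map_inv₀, map_pow, hwt, one_pow, inv_one, mul_one]
  exact Valuation.map_sub_le _ hs ht3

end Pool.Agent.Lib.MP_1a91b9_ntT.S5
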