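import Pool.Agent.Lib.MP_1a91b9_ntT.S5.Places

/-!
# JOB S5-Resid: if 2 is not a cube modulo `v`, only one place of `A` lies over `v`

Let `w` be a place of `A`, `v = below N w`, `k = 𝓞 N / v`, `l = 𝓞 A / w`. `θ` is an algebraic
integer (`θ ^ 3 = 2`), its image `t` in `l` satisfies `t ^ 3 = 2`. The polynomial `X ^ 3 - 2` has
no root in `k` (an element of `k` is the class of some `x : 𝓞 N`), so it is irreducible over `k`
(degree 3, `Polynomial.irreducible_iff_roots_eq_zero_of_degree_le_three`), it is the minimal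
polynomial of `t` and `3 = natDegree` divides `finrank k l = f`. As `Σ e f = finrank N A = 3`, the
place `w` is the only one over `v`.
-/

set_option autoImplicit false

namespace Pool.Agent.Lib.MP_1a91b9_ntT.S5

open IsDedekindDomain NumberField WithZero Module

private theorem RE_dvd {R S : Type*} [CommRing R] [CommRing S] [Algebra R S]
    (p : Ideal R) (P : Ideal S) [p.IsMaximal] [P.IsMaximal] [P.LiesOver p] (t : S)
    (ht : t ^ 3 = 2) (hr : ∀ x : R, x ^ 3 - 2 ∉ p) :
    3 ∣ Ideal.inertiaDeg' p P := by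
  let _ : Field (R ⧸ p) := Ideal.Quotient.field p
  let _ : Field (S ⧸ P) := Ideal.Quotient.field P
  rw [Ideal.inertiaDeg'_algebraMap]
  have hdeg : (Polynomial.X ^ 3 - Polynomial.C 2 : Polynomial (R ⧸ p)).natDegree = 3 :=
    Polynomial.natDegree_X_pow_sub_C
  have hirr : Irreducible (Polynomial.X ^ 3 - Polynomial.C 2 : Polynomial (R ⧸ p)) := by
    apply Polynomial.irreducible_of_degree_le_three_of_not_isRoot
    · rw [hdeg]
      simp
    · intro x hx
      obtain ⟨y, rfl⟩ := Ideal.Quotient.mk_surjective x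
      apply hr y
      rw [← Ideal.Quotient.eq_zero_iff_mem]
      have h1 := hx
      rw [Polynomial.IsRoot.def] at h1
      simp only [Polynomial.eval_sub, Polynomial.eval_pow, Polynomial.eval_X,
        Polynomial.eval_C] at h1
      rw [map_sub, map_pow, map_ofNat]
      exact h1
  have hroot : Polynomial.aeval (Ideal.Quotient.mk P t)
      (Polynomial.X ^ 3 - Polynomial.C 2 : Polynomial (R ⧸ p)) = 0 := by
    have h1 : (Ideal.Quotient.mk P t) ^ 3 = 2 := by
      rw [← map_pow, ht]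
      exact map_ofNat (Ideal.Quotient.mk P) 2
    have h2 : algebraMap (R ⧸ p) (S ⧸ P) 2 = 2 := map_ofNat (algebraMap (R ⧸ p) (S ⧸ P)) 2
    rw [map_sub, map_pow, Polynomial.aeval_X, Polynomial.aeval_C, h1, h2, sub_self]
  have hmin := minpoly.Irreducible.eq_minpoly hirr hroot
  have hmin2 : (minpoly (R ⧸ p) (Ideal.Quotient.mk P t)).natDegree = 3 := by
    have h2 := congrArg Polynomial.natDegree hmin
    rw [hdeg, Polynomial.natDegree_C_mul] at h2
    · exact h2.symm
    · rw [Polynomial.leadingCoeff_ne_zero]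
      exact hirr.ne_zero
  have hint : IsIntegral (R ⧸ p) (Ideal.Quotient.mk P t) := by
    refine ⟨Polynomial.X ^ 3 - Polynomial.C 2, Polynomial.monic_X_pow_sub_C _ (by norm_num), ?_⟩
    rw [← Polynomial.aeval_def]
    exact hroot
  have := minpoly.degree_dvd hint
  rwa [hmin2] at this

theorem unique_of_resid {N A : Type*} [Field N] [NumberField N] [Field A] [NumberField A]
    [Algebra N A] {θ : A} (h : Cub N A θ) (w w' : HeightOneSpectrum (𝓞 A))
    (hr : ∀ x : 𝓞 N, x ^ 3 - 2 ∉ (below N w).asIdeal)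
    (h' : below N w' = below N w) : w' = w := by
  classical
  by_contra hne
  have hpm : (below N w).asIdeal.IsMaximal := (below N w).isMaximal
  have hp0 : (below N w).asIdeal ≠ ⊥ := (below N w).ne_bot
  have hwm : w.asIdeal.IsMaximal := w.isMaximal
  have hw1 : w.asIdeal.LiesOver (below N w).asIdeal := ⟨rfl⟩
  have hw2 : w'.asIdeal.LiesOver (below N w).asIdeal := ⟨by rw [← h']; rfl⟩
  have hmem1 : w.asIdeal ∈ IsDedekindDomain.primesOverFinset (below N w).asIdeal (𝓞 A) :=
    (IsDedekindDomain.mem_primesOverFinset_iff hp0 _).mpr ⟨w.isPrime, hw1⟩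
  have hmem2 : w'.asIdeal ∈ IsDedekindDomain.primesOverFinset (below N w).asIdeal (𝓞 A) :=
    (IsDedekindDomain.mem_primesOverFinset_iff hp0 _).mpr ⟨w'.isPrime, hw2⟩
  have hne2 : w'.asIdeal ≠ w.asIdeal := fun h3 => hne (HeightOneSpectrum.ext h3)
  have hsum := Ideal.sum_ramification_inertia (𝓞 A) N A hp0
  rw [h.deg, ← Finset.add_sum_erase _ _ hmem1,
    ← Finset.add_sum_erase _ _ (Finset.mem_erase.2 ⟨hne2, hmem2⟩)] at hsum
  have hint : IsIntegral ℤ θ := by
    refine ⟨Polynomial.X ^ 3 - Polynomial.C 2, Polynomial.monic_X_pow_sub_C _ (by norm_num), ?_⟩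
    rw [Polynomial.eval₂_sub, Polynomial.eval₂_pow, Polynomial.eval₂_X, Polynomial.eval₂_C,
      h.cube]
    simp
  have ht : (⟨θ, hint⟩ : 𝓞 A) ^ 3 = 2 := by
    apply NumberField.RingOfIntegers.ext
    exact h.cube
  have hdvd := RE_dvd (below N w).asIdeal w.asIdeal ⟨θ, hint⟩ ht hr
  have hf1 : Ideal.inertiaDeg' (below N w).asIdeal w.asIdeal ≠ 0 :=
    Ideal.inertiaDeg'_ne_zero _ _
  have hf2 : Ideal.inertiaDeg' (below N w).asIdeal w'.asIdeal ≠ 0 :=
    Ideal.inertiaDeg'_ne_zero _ _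
  have he1 : Ideal.ramificationIdx' (below N w).asIdeal w.asIdeal ≠ 0 :=
    Ideal.IsDedekindDomain.ramificationIdx'_ne_zero_of_liesOver _ hp0
  have he2 : Ideal.ramificationIdx' (below N w).asIdeal w'.asIdeal ≠ 0 := by
    have : w'.asIdeal.IsPrime := w'.isPrime
    exact Ideal.IsDedekindDomain.ramificationIdx'_ne_zero_of_liesOver _ hp0
  have hf3 : 3 ≤ Ideal.inertiaDeg' (below N w).asIdeal w.asIdeal :=
    Nat.le_of_dvd (Nat.pos_of_ne_zero hf1) hdvd
  have h1 : 3 ≤ Ideal.ramificationIdx' (below N w).asIdeal w.asIdeal *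
      Ideal.inertiaDeg' (below N w).asIdeal w.asIdeal :=
    hf3.trans (Nat.le_mul_of_pos_left _ (Nat.pos_of_ne_zero he1))
  have h2 : 0 < Ideal.ramificationIdx' (below N w).asIdeal w'.asIdeal *
      Ideal.inertiaDeg' (below N w).asIdeal w'.asIdeal :=
    Nat.mul_pos (Nat.pos_of_ne_zero he2) (Nat.pos_of_ne_zero hf2)
  omega

end Pool.Agent.Lib.MP_1a91b9_ntT.S5
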