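import Pool.Agent.Lib.MP_1a91b9_ntT.S5.StepDefs
import Pool.Agent.Lib.MP_1a91b9_ntT.S5.Zm
import Pool.Agent.Lib.MP_1a91b9_ntT.S5.Conj
import Pool.Agent.Lib.MP_1a91b9_ntT.S5.CubBasic

/-!
# JOB S5-SelBasic: the Selmer condition is stable under products, square factors, conjugation
-/

set_option autoImplicit false

namespace Pool.Agent.Lib.MP_1a91b9_ntT.S5

open IsDedekindDomain NumberField WithZero Module

/-- `two`: if `w(α s² - 1) ≤ exp (-2)` and `w(β t² - 1) ≤ exp (-2)` then
`α β (s t)² - 1 = (α s² - 1) β t² + (β t² - 1)` and `w(β t²) = 1`. -/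
theorem Sel.mul {N A : Type*} [Field N] [Field A] [NumberField A] [Algebra N A] {α β : A}
    (h : Sel N A α) (h' : Sel N A β) : Sel N A (α * β) := by
  refine ⟨mul_ne_zero h.ne_zero h'.ne_zero, ?_, fun w => ?_, fun w hw => ?_⟩
  · rw [map_mul]
    exact h.norm.mul h'.norm
  · rw [map_mul]
    exact (h.val w).mul (h'.val w)
  · obtain ⟨s, hs⟩ := h.two w hw
    obtain ⟨t, ht⟩ := h'.two w hw
    refine ⟨s * t, ?_⟩
    have h2 : (exp (-2 : ℤ) : ℤᵐ⁰) ≤ 1 := by
      rw [← exp_zero, exp_le_exp]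
      norm_num
    have h3 : w.valuation A (β * t ^ 2) ≤ 1 := by
      have h4 : β * t ^ 2 = (β * t ^ 2 - 1) + 1 := by ring
      rw [h4]
      refine (Valuation.map_add _ _ _).trans (max_le (ht.trans h2) ?_)
      rw [map_one]
    have h5 : α * β * (s * t) ^ 2 - 1 = (α * s ^ 2 - 1) * (β * t ^ 2) + (β * t ^ 2 - 1) := by ring
    rw [h5]
    refine (Valuation.map_add _ _ _).trans (max_le ?_ ht)
    rw [map_mul]
    calc w.valuation A (α * s ^ 2 - 1) * w.valuation A (β * t ^ 2) ≤ exp (-2 : ℤ) * 1 :=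
          mul_le_mul' hs h3
      _ = exp (-2 : ℤ) := mul_one _

theorem Sel.mul_sq {N A : Type*} [Field N] [Field A] [NumberField A] [Algebra N A] {α s : A}
    (h : Sel N A α) (hs : s ≠ 0) : Sel N A (α * s ^ 2) := by
  refine ⟨mul_ne_zero h.ne_zero (pow_ne_zero 2 hs), ?_, fun w => ?_, fun w hw => ?_⟩
  · rw [map_mul, map_pow]
    exact h.norm.mul (IsSquare.sq _)
  · rw [map_mul, map_pow]
    exact (h.val w).mul (IsSquare.sq _)
  · obtain ⟨t, ht⟩ := h.two w hw
    refine ⟨t / s, ?_⟩
    have h5 : α * s ^ 2 * (t / s) ^ 2 = α * t ^ 2 := by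
      field_simp
    rw [h5]
    exact ht

section step

variable {N N' A A' : Type*} [Field N] [Field N'] [Field A] [Field A']
    [Algebra N N'] [Algebra N A] [Algebra N' A'] [Algebra A A'] [Algebra N A']
    {θ : A} {d : N} {δ : N'} {σ : N' ≃ₐ[N] N'} {τ : A' ≃ₐ[A] A'}

/-- coordinates `α = a + b θ + c θ²` and the formula `Cub.norm_eq`, both for `A / N` and
`A' / N'` -/
theorem StepData.norm_base (D : StepData θ d δ σ τ) (α : A) :
    Algebra.norm N' (algebraMap A A' α) = algebraMap N N' (Algebra.norm N α) := by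
  have := D.towN
  have := D.towA
  have hmap : ∀ x : N, algebraMap A A' (algebraMap N A x) = algebraMap N' A' (algebraMap N N' x) := by
    intro x
    rw [← IsScalarTower.algebraMap_apply N A A', ← IsScalarTower.algebraMap_apply N N' A']
  obtain ⟨a, b, c, rfl⟩ := D.cub.repr α
  have h1 : algebraMap A A' (algebraMap N A a + algebraMap N A b * θ + algebraMap N A c * θ ^ 2) =
      algebraMap N' A' (algebraMap N N' a) + algebraMap N' A' (algebraMap N N' b) * algebraMap A A' θ +
        algebraMap N' A' (algebraMap N N' c) * algebraMap A A' θ ^ 2 := by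
    rw [map_add, map_add, map_mul, map_mul, map_pow, hmap, hmap, hmap]
  rw [h1, D.cub'.norm_eq, D.cub.norm_eq]
  simp only [map_add, map_sub, map_mul, map_pow, map_ofNat]

/-- coordinates over `N'`; `τ` fixes `θ` and acts on the coordinates by `σ` (`D.comm`) -/
theorem StepData.norm_conj (D : StepData θ d δ σ τ) (α : A') :
    Algebra.norm N' (τ α) = σ (Algebra.norm N' α) := by
  obtain ⟨a, b, c, rfl⟩ := D.cub'.repr α
  have h1 : τ (algebraMap N' A' a + algebraMap N' A' b * algebraMap A A' θ +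
      algebraMap N' A' c * algebraMap A A' θ ^ 2) =
      algebraMap N' A' (σ a) + algebraMap N' A' (σ b) * algebraMap A A' θ +
        algebraMap N' A' (σ c) * algebraMap A A' θ ^ 2 := by
    rw [map_add, map_add, map_mul, map_mul, map_pow, τ.commutes, D.comm, D.comm, D.comm]
  rw [h1, D.cub'.norm_eq, D.cub'.norm_eq]
  simp only [map_add, map_sub, map_mul, map_pow, map_ofNat]

variable [NumberField A] [NumberField A']

/-- norm: `norm_conj`; places: `exists_conj_place` (`w'(x) = w(τ x)`) -/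
theorem Sel.conj (D : StepData θ d δ σ τ) {α : A'} (h : Sel N' A' α) : Sel N' A' (τ α) := by
  refine ⟨?_, ?_, fun w => ?_, fun w hw => ?_⟩
  · rw [Ne, map_eq_zero_iff τ τ.injective]
    exact h.ne_zero
  · rw [D.norm_conj]
    exact h.norm.map σ
  · obtain ⟨w', -, hw'⟩ := exists_conj_place τ w
    rw [← hw']
    exact h.val w'
  · obtain ⟨w', -, hw'⟩ := exists_conj_place τ w
    have h2 : w'.valuation A' 2 < 1 := by
      rw [hw', map_ofNat]
      exact hw
    obtain ⟨s, hs⟩ := h.two w' h2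
    refine ⟨τ s, ?_⟩
    have h3 : τ α * τ s ^ 2 - 1 = τ (α * s ^ 2 - 1) := by
      rw [map_sub, map_mul, map_pow, map_one]
    rw [h3, ← hw']
    exact hs

end step

end Pool.Agent.Lib.MP_1a91b9_ntT.S5
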