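import Pool.Agent.Lib.MP_1a91b9_ntT.S5.Places
import Pool.Agent.Lib.MP_1a91b9_ntT.S5.Conj
import Pool.Agent.Lib.MP_1a91b9_ntT.S5.QuadBasic
import Pool.Agent.Lib.MP_1a91b9_ntT.S5.Zm

/-!
# JOB S5-QuadRam: ramification in a quadratic extension, by valuations only
-/

set_option autoImplicit false

namespace Pool.Agent.Lib.MP_1a91b9_ntT.S5

open IsDedekindDomain NumberField WithZero Module

variable {K L : Type*} [Field K] [NumberField K] [Field L] [NumberField L] [Algebra K L]
  {d : K} {δ : L} {σ : L ≃ₐ[K] L}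

/-- `ram_pos`, `ram_le`, and in the case `ram K w = 2 = finrank K L` the place `w` is the only one
over `below K w` (`unique_of_ram`), so the place of `exists_conj_place` is `w` itself. -/
theorem Quad.ram_cases (h : Quad K L d δ σ) (w : HeightOneSpectrum (𝓞 L)) :
    ram K w = 1 ∨ (ram K w = 2 ∧ ∀ x : L, w.valuation L (σ x) = w.valuation L x) := by
  have h1 := ram_pos K w
  have h2 := ram_le K w
  rw [h.deg] at h2
  have h3 : ram K w = 1 ∨ ram K w = 2 := by omega
  rcases h3 with h3 | h3
  · exact Or.inl h3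
  · refine Or.inr ⟨h3, ?_⟩
    obtain ⟨w', hw', hv⟩ := exists_conj_place σ w
    have h4 : w' = w := unique_of_ram K w w' (by rw [h3, h.deg]) hw'
    intro x
    rw [← hv x, h4]

/-- Suppose `ram K w = 2`. Then `w` is `σ`-invariant and `w(x)` is a square for `x : K`. As
`w(τ - σ τ) = 1`, `τ ≠ σ τ`, so `τ` is not in `K` and `L = K + K τ`. Let `π : L` have
`w(π) = exp (-1)`, `π = x + y τ` with `x y : K` (images in `L`). `π - σ π = y (τ - σ τ)`, so
`w(y) = w(π - σ π) ≤ exp (-1)`; being a square, `w(y) ≤ exp (-2)`. So `w(x) = w(π - y τ) = exp (-1)`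
is not a square: contradiction. -/
theorem Quad.ram_one (h : Quad K L d δ σ) (w : HeightOneSpectrum (𝓞 L)) (τ : L)
    (hτ : w.valuation L τ ≤ 1) (hd : w.valuation L (τ - σ τ) = 1) : ram K w = 1 := by
  rcases h.ram_cases w with h1 | ⟨h2, hinv⟩
  · exact h1
  exfalso
  obtain ⟨a, b, hab⟩ := h.repr τ
  have hconj : σ δ = -δ := h.conj
  have hδ : δ ≠ 0 := h.ne
  have hστ : τ - σ τ = 2 * (algebraMap K L b * δ) := by
    rw [hab, map_add, map_mul, AlgEquiv.commutes, AlgEquiv.commutes, hconj]
    ring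
  have hb : algebraMap K L b ≠ 0 := by
    intro hb
    rw [hστ, hb, zero_mul, mul_zero, map_zero] at hd
    exact zero_ne_one hd
  have hsq : ∀ x : K, IsSquare (w.valuation L (algebraMap K L x)) := by
    intro x
    rw [val_below K w x, h2]
    exact ⟨(below K w).valuation K x, by rw [pow_two]⟩
  obtain ⟨π, hπ⟩ := w.valuation_exists_uniformizer L
  obtain ⟨a', b', hab'⟩ := h.repr π
  have hπ2 : π = algebraMap K L (a' - b' * a / b) + algebraMap K L (b' / b) * τ := by
    rw [hab', hab]
    simp only [map_sub, map_mul, map_div₀]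
    field_simp
    ring
  generalize hx : a' - b' * a / b = x at hπ2
  generalize hy : b' / b = y at hπ2
  have hdiff : π - σ π = algebraMap K L y * (τ - σ τ) := by
    rw [hπ2, map_add, map_mul, AlgEquiv.commutes, AlgEquiv.commutes]
    ring
  have hlt : (exp (-2 : ℤ) : ℤᵐ⁰) < exp (-1 : ℤ) := by
    rw [exp_lt_exp]
    norm_num
  have hπ' : w.valuation L π = exp (-1 : ℤ) := hπ
  have hwy : w.valuation L (algebraMap K L y) ≤ exp (-1 : ℤ) := by
    have e1 : w.valuation L (π - σ π) = w.valuation L (algebraMap K L y) := by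
      rw [hdiff, map_mul, hd, mul_one]
    rw [← e1]
    refine le_trans (Valuation.map_sub _ _ _) ?_
    rw [hinv, max_self, hπ']
  have hwy1 : w.valuation L (algebraMap K L y) < 1 := lt_one_iff.mpr hwy
  have hwy2 : w.valuation L (algebraMap K L y) ≤ exp (-2 : ℤ) := isSquare_lt_one (hsq y) hwy1
  have hyτ : w.valuation L (algebraMap K L y * τ) < w.valuation L π := by
    rw [map_mul, hπ']
    exact lt_of_le_of_lt (le_trans (mul_le_mul' hwy2 hτ) (by rw [mul_one])) hlt
  have hwx : w.valuation L (algebraMap K L x) = exp (-1 : ℤ) := by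
    have e2 : algebraMap K L x = π - algebraMap K L y * τ := by
      rw [hπ2]
      ring
    rw [e2, Valuation.map_sub_eq_of_lt_left _ hyτ, hπ']
  have h5 := hsq x
  rw [hwx, isSquare_exp] at h5
  revert h5
  decide

/-- `(below K w)(d) = m ^ 2` is a square; choose `c : K` with value `m`
(`HeightOneSpectrum.valuation_surjective`), `τ = δ / c`; `w(τ) ^ 2 = w(d) / w(c) ^ 2 = 1`,
`τ - σ τ = 2 τ`. (`d ≠ 0` as `δ ≠ 0`.) -/
theorem Quad.ram_one_odd (h : Quad K L d δ σ) (w : HeightOneSpectrum (𝓞 L))
    (h2 : w.valuation L 2 = 1) (hd : IsSquare ((below K w).valuation K d)) : ram K w = 1 := by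
  have hδ : δ ≠ 0 := h.ne
  have hd0 : d ≠ 0 := by
    intro h0
    have e := h.sq
    rw [h0, map_zero] at e
    exact hδ (pow_eq_zero_iff (two_ne_zero)|>.mp e)
  obtain ⟨m, hm⟩ := hd
  obtain ⟨c, hc⟩ := (below K w).valuation_surjective K m
  have hm0 : m ≠ 0 := by
    intro h0
    rw [h0, mul_zero] at hm
    exact hd0 ((Valuation.zero_iff _).mp hm)
  have hc0 : c ≠ 0 := by
    intro h0
    rw [h0, map_zero] at hc
    exact hm0 hc.symm
  have hcL : algebraMap K L c ≠ 0 := by
    simpa using hc0
  have hsq : w.valuation L (δ / algebraMap K L c) ^ 2 = 1 ^ 2 := by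
    rw [← map_pow, div_pow, h.sq, ← map_pow, ← map_div₀, val_below K w, map_div₀, map_pow, hm, hc,
      ← pow_two, div_self (pow_ne_zero 2 hm0), one_pow, one_pow]
  have hτ : w.valuation L (δ / algebraMap K L c) = 1 := pow_left_inj' two_ne_zero hsq
  refine h.ram_one w (δ / algebraMap K L c) hτ.le ?_
  have e : δ / algebraMap K L c - σ (δ / algebraMap K L c) = 2 * (δ / algebraMap K L c) := by
    rw [map_div₀, AlgEquiv.commutes, h.conj]
    ring
  rw [e, map_mul, h2, hτ, one_mul]

/-- `τ = (a + δ) / 2` satisfies `τ² - a τ + (a² - d) / 4 = 0` with integral coefficients at `w`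
(use `val_below` to go from `below K w` to `w`), so `w(τ) ≤ 1`; `τ - σ τ = δ`, `w(δ)² = w(d) = 1`
(`w(d - a²) ≤ w(4) < 1`, `w(a) = 1`). -/
theorem Quad.ram_one_two (h : Quad K L d δ σ) (w : HeightOneSpectrum (𝓞 L))
    (h2 : w.valuation L 2 < 1) (a : K) (ha : (below K w).valuation K a = 1)
    (hd : (below K w).valuation K (d - a ^ 2) ≤ (below K w).valuation K 4) : ram K w = 1 := by
  have h4 : w.valuation L 4 < 1 := by
    have e : (4 : L) = 2 * 2 := by norm_num
    rw [e, map_mul]
    exact mul_lt_one_of_nonneg_of_lt_one_left zero_le h2 h2.le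
  have h4K : w.valuation L (algebraMap K L 4) = w.valuation L 4 := by
    rw [map_ofNat]
  have hle : w.valuation L (algebraMap K L (d - a ^ 2)) ≤ w.valuation L 4 := by
    rw [← h4K, val_below K w, val_below K w]
    exact pow_le_pow_left' hd _
  have hwa : w.valuation L (algebraMap K L a) = 1 := by
    rw [val_below K w, ha, one_pow]
  have hwd : w.valuation L (algebraMap K L d) = 1 := by
    have e : algebraMap K L d = algebraMap K L (d - a ^ 2) + (algebraMap K L a) ^ 2 := by
      simp
    have e2 : w.valuation L ((algebraMap K L a) ^ 2) = 1 := by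
      rw [map_pow, hwa, one_pow]
    rw [e, Valuation.map_add_eq_of_lt_right _ (by rw [e2]; exact lt_of_le_of_lt hle h4), e2]
  have hwδ : w.valuation L δ = 1 := by
    refine pow_left_inj' two_ne_zero ?_
    rw [← map_pow, h.sq, hwd, one_pow]
  have h20 : (2 : L) ≠ 0 := two_ne_zero
  have h40 : (4 : L) ≠ 0 := by norm_num
  have hc : w.valuation L ((algebraMap K L a ^ 2 - algebraMap K L d) / 4) ≤ 1 := by
    have h40' : w.valuation L 4 ≠ 0 := (Valuation.ne_zero_iff _).mpr h40
    have e : algebraMap K L a ^ 2 - algebraMap K L d = - algebraMap K L (d - a ^ 2) := by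
      simp
    rw [map_div₀, e, Valuation.map_neg, div_le_one₀ (zero_lt_iff.mpr h40')]
    exact hle
  have hτeq : ((algebraMap K L a + δ) / 2) ^ 2 = algebraMap K L a * ((algebraMap K L a + δ) / 2) -
      (algebraMap K L a ^ 2 - algebraMap K L d) / 4 := by
    rw [← h.sq]
    ring
  have hτ : w.valuation L ((algebraMap K L a + δ) / 2) ≤ 1 := by
    by_contra hcon
    rw [not_le] at hcon
    generalize (algebraMap K L a + δ) / 2 = τ at hτeq hcon
    have e1 : w.valuation L (τ ^ 2) ≤ w.valuation L τ := by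
      rw [hτeq]
      refine le_trans (Valuation.map_sub _ _ _) ?_
      rw [map_mul, hwa, one_mul]
      exact max_le le_rfl (le_trans hc hcon.le)
    rw [map_pow, pow_two] at e1
    have e2 : w.valuation L τ * 1 < w.valuation L τ * w.valuation L τ :=
      mul_lt_mul_of_pos_left hcon (lt_trans zero_lt_one hcon)
    rw [mul_one] at e2
    exact absurd e1 (not_le.mpr e2)
  refine h.ram_one w _ hτ ?_
  have e : (algebraMap K L a + δ) / 2 - σ ((algebraMap K L a + δ) / 2) = δ := by
    rw [map_div₀, map_add, AlgEquiv.commutes, h.conj, map_ofNat]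
    ring
  rw [e, hwδ]

end Pool.Agent.Lib.MP_1a91b9_ntT.S5
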