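import Pool.Agent.Lib.MP_1a91b9_ntT.S5.SelBasic
import Pool.Agent.Lib.MP_1a91b9_ntT.S5.QuadRam
import Pool.Agent.Lib.MP_1a91b9_ntT.S5.Resid
import Pool.Agent.Lib.MP_1a91b9_ntT.S5.Three
import Pool.Agent.Lib.MP_1a91b9_ntT.S5.NormPar
import Pool.Agent.Lib.MP_1a91b9_ntT.S5.DescTwo

/-!
# JOB S5-SelDesc: descent of the Selmer condition from `A'` to `A`

Let `w` be a place of `A`, `w'` a place of `A'` with `below A w' = w` (`exists_above`),
`v = below N w` (so `v = below N w'`, `below_below`; the towers are `D.towN`, `D.towA`).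

(a) `w(2) < 1`: then `v(2) < 1`. `hc.two v` gives `a : N`; the image of `a` in `A` satisfies the
hypotheses of `Quad.ram_one_two` for `D.quad'` and `w'` (values at `w` are `ram N w`-th powers of
values at `v`, `val_below`), so `ram A w' = 1`; `two_descend` gives the condition `two` at `w`, and
`w'(α) = w(α)` is a square.
(b) `w(2) = 1` and `v(d)` is a square: then `w(d)` is a square, `Quad.ram_one_odd` gives
`ram A w' = 1` and `w(α) = w'(α)` is a square.
(c) `w(2) = 1`, `v(d)` is not a square: `w` is the only place over `v`: if `w(3) < 1` by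
`unique_three`, if `w(3) = 1` (`v(3) = 1`, `v(2) = 1`) by `hc.odd` and `unique_of_resid`. Then
`even_of_unique` gives that `w(α)` is a square, as `norm α` is a square.
-/

set_option autoImplicit false

namespace Pool.Agent.Lib.MP_1a91b9_ntT.S5

open IsDedekindDomain NumberField WithZero Module

private theorem sd_pow_lt {a : ℤᵐ⁰} {r : ℕ} (h : a ^ r < 1) : a < 1 := by
  by_contra hcon
  exact absurd (one_le_pow₀ (not_lt.1 hcon)) (not_le.2 h)

private theorem sd_eq_one {a : ℤᵐ⁰} {r : ℕ} (hr : 0 < r) (h1 : a ≤ 1) (h : a ^ r = 1) : a = 1 := by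
  rcases lt_or_eq_of_le h1 with h2 | h2
  · exact absurd h (pow_lt_one₀ zero_le h2 hr.ne').ne
  · exact h2

private theorem sd_two_le {K : Type*} [Field K] [NumberField K] (v : HeightOneSpectrum (𝓞 K)) :
    v.valuation K 2 ≤ 1 := by
  have h : v.valuation K (algebraMap (𝓞 K) K (2 : 𝓞 K)) ≤ 1 := v.valuation_le_one (2 : 𝓞 K)
  have e : algebraMap (𝓞 K) K (2 : 𝓞 K) = 2 := map_ofNat (algebraMap (𝓞 K) K) 2
  rwa [e] at h

private theorem sd_three_le {K : Type*} [Field K] [NumberField K] (v : HeightOneSpectrum (𝓞 K)) :
    v.valuation K 3 ≤ 1 := by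
  have h : v.valuation K (algebraMap (𝓞 K) K (3 : 𝓞 K)) ≤ 1 := v.valuation_le_one (3 : 𝓞 K)
  have e : algebraMap (𝓞 K) K (3 : 𝓞 K) = 3 := map_ofNat (algebraMap (𝓞 K) K) 3
  rwa [e] at h

section sdval

variable (K : Type*) {L : Type*} [Field K] [NumberField K] [Field L] [NumberField L] [Algebra K L]

private theorem sd_val_two (w : HeightOneSpectrum (𝓞 L)) :
    w.valuation L 2 = (below K w).valuation K 2 ^ ram K w := by
  have h := val_below K w (2 : K)
  rwa [map_ofNat] at h

private theorem sd_val_three (w : HeightOneSpectrum (𝓞 L)) :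
    w.valuation L 3 = (below K w).valuation K 3 ^ ram K w := by
  have h := val_below K w (3 : K)
  rwa [map_ofNat] at h

private theorem sd_val_four (w : HeightOneSpectrum (𝓞 L)) :
    w.valuation L 4 = (below K w).valuation K 4 ^ ram K w := by
  have h := val_below K w (4 : K)
  rwa [map_ofNat] at h

end sdval

theorem sel_descend {N N' A A' : Type*} [Field N] [NumberField N] [Field N'] [NumberField N']
    [Field A] [NumberField A] [Field A'] [NumberField A']
    [Algebra N N'] [Algebra N A] [Algebra N' A'] [Algebra A A'] [Algebra N A']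
    {θ : A} {d : N} {δ : N'} {σ : N' ≃ₐ[N] N'} {τ : A' ≃ₐ[A] A'} (D : StepData θ d δ σ τ)
    (ht : ∀ v : HeightOneSpectrum (𝓞 N), v.valuation N 3 < 1 →
      ∀ m : ℤ, v.valuation N 3 ≠ exp (3 * m))
    (hc : StepCond N d) (α : A) (h : Sel N' A' (algebraMap A A' α))
    (hn : IsSquare (Algebra.norm N α)) : Sel N A α := by
  have := D.towN
  have := D.towA
  have hα : α ≠ 0 := by
    intro h0
    apply h.ne_zero
    rw [h0, map_zero]
  -- the places above 2
  have key : ∀ w' : HeightOneSpectrum (𝓞 A'), (below A w').valuation A 2 < 1 →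
      w'.valuation A' 2 < 1 ∧ ram A w' = 1 := by
    intro w' h2
    have h2' : w'.valuation A' 2 < 1 := by
      rw [sd_val_two A w']
      exact pow_lt_one₀ zero_le h2 (ram_pos A w').ne'
    refine ⟨h2', ?_⟩
    have hv2 : (below N (below A w')).valuation N 2 < 1 := by
      rw [sd_val_two N (below A w')] at h2
      exact sd_pow_lt h2
    obtain ⟨a, ha, hd⟩ := hc.two _ hv2
    refine D.quad'.ram_one_two w' h2' (algebraMap N A a) ?_ ?_
    · rw [val_below, ha, one_pow]
    · have e : algebraMap N A d - algebraMap N A a ^ 2 = algebraMap N A (d - a ^ 2) := by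
        rw [map_sub, map_pow]
      rw [e, val_below, sd_val_four N (below A w')]
      exact pow_le_pow_left₀ zero_le hd _
  have hsq : ∀ w' : HeightOneSpectrum (𝓞 A'), ram A w' = 1 →
      IsSquare ((below A w').valuation A α) := by
    intro w' hr
    have h1 := h.val w'
    rwa [val_below, hr, pow_one] at h1
  refine ⟨hα, hn, ?_, ?_⟩
  · intro w
    obtain ⟨w', hw'⟩ := exists_above A A' w
    rcases lt_or_eq_of_le (sd_two_le w) with h2 | h2
    · rw [← hw'] at h2 ⊢
      exact hsq w' (key w' h2).2
    · by_cases hd : IsSquare ((below N w).valuation N d)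
      · have h2' : w'.valuation A' 2 = 1 := by
          rw [sd_val_two A w', hw', h2, one_pow]
        have hd' : IsSquare ((below A w').valuation A (algebraMap N A d)) := by
          rw [hw', val_below]
          exact isSquare_pow_odd _ _ hd
        rw [← hw']
        exact hsq w' (D.quad'.ram_one_odd w' h2' hd')
      · refine even_of_unique D.cub.deg w ?_ α hα hn
        intro w1 hw1
        rcases lt_or_eq_of_le (sd_three_le w) with h3 | h3
        · have hv3 : (below N w).valuation N 3 < 1 := by
            rw [sd_val_three N w] at h3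
            exact sd_pow_lt h3
          exact unique_three D.cub w w1 h3 (ht _ hv3) hw1
        · have hv3 : (below N w).valuation N 3 = 1 := by
            rw [sd_val_three N w] at h3
            exact sd_eq_one (ram_pos N w) (sd_three_le _) h3
          have hv2 : (below N w).valuation N 2 = 1 := by
            rw [sd_val_two N w] at h2
            exact sd_eq_one (ram_pos N w) (sd_two_le _) h2
          exact unique_of_resid D.cub w w1 (hc.odd _ hv2 hv3 hd) hw1
  · intro w h2
    obtain ⟨w', hw'⟩ := exists_above A A' w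
    rw [← hw'] at h2 ⊢
    obtain ⟨h2', hr⟩ := key w' h2
    obtain ⟨s', hs'⟩ := h.two w' h2'
    exact two_descend w' h2' hr α s' hs'

end Pool.Agent.Lib.MP_1a91b9_ntT.S5
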