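import Pool.Agent.Lib.MP_1a91b9_ntT.S5.Defs

/-!
# The square of fields of one step of the tower

`N' = N(δ)`, `δ² = d`, `A = N(θ)`, `A' = N'(θ) = A(δ)`; `σ` is the automorphism of `N' / N`, `τ`
the one of `A' / A`.
-/

set_option autoImplicit false

namespace Pool.Agent.Lib.MP_1a91b9_ntT.S5

open IsDedekindDomain NumberField WithZero Module

structure StepData {N N' A A' : Type*} [Field N] [Field N'] [Field A] [Field A']
    [Algebra N N'] [Algebra N A] [Algebra N' A'] [Algebra A A'] [Algebra N A']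
    (θ : A) (d : N) (δ : N') (σ : N' ≃ₐ[N] N') (τ : A' ≃ₐ[A] A') : Prop where
  towN : IsScalarTower N N' A'
  towA : IsScalarTower N A A'
  cub : Cub N A θ
  cub' : Cub N' A' (algebraMap A A' θ)
  quad : Quad N N' d δ σ
  quad' : Quad A A' (algebraMap N A d) (algebraMap N' A' δ) τ
  comm : ∀ x : N', τ (algebraMap N' A' x) = algebraMap N' A' (σ x)

end Pool.Agent.Lib.MP_1a91b9_ntT.S5
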