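import Pool.Agent.Lib.MP_1a91b9_ntT.S5.Zm
import Pool.Agent.Lib.MP_1a91b9_ntT.S5.Places
import Pool.Agent.Lib.MP_1a91b9_ntT.S5.Conj
import Pool.Agent.Lib.MP_1a91b9_ntT.S5.Resid
import Pool.Agent.Lib.MP_1a91b9_ntT.S5.CubBasic
import Pool.Agent.Lib.MP_1a91b9_ntT.S5.NormPar
import Pool.Agent.Lib.MP_1a91b9_ntT.S5.Three
import Pool.Agent.Lib.MP_1a91b9_ntT.S5.QuadBasic
import Pool.Agent.Lib.MP_1a91b9_ntT.S5.QuadRam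
import Pool.Agent.Lib.MP_1a91b9_ntT.S5.StepDefs
import Pool.Agent.Lib.MP_1a91b9_ntT.S5.CubExist
import Pool.Agent.Lib.MP_1a91b9_ntT.S5.SelBasic
import Pool.Agent.Lib.MP_1a91b9_ntT.S5.SelFixed
import Pool.Agent.Lib.MP_1a91b9_ntT.S5.DescTwo
import Pool.Agent.Lib.MP_1a91b9_ntT.S5.SelDesc
import Pool.Agent.Lib.MP_1a91b9_ntT.S5.Step
import Pool.Agent.Lib.MP_1a91b9_ntT.S5.Half
import Pool.Agent.Lib.MP_1a91b9_ntT.S5.Heights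
import Pool.Agent.Lib.MP_1a91b9_ntT.S5.Image
import Pool.Agent.Lib.MP_1a91b9_ntT.S5.BaseSig
import Pool.Agent.Lib.MP_1a91b9_ntT.S5.BasePid
import Pool.Agent.Lib.MP_1a91b9_ntT.S5.EvenPid
import Pool.Agent.Lib.MP_1a91b9_ntT.S5.BaseTwo
import Pool.Agent.Lib.MP_1a91b9_ntT.S5.BaseUnit
import Pool.Agent.Lib.MP_1a91b9_ntT.S5.Base
import Pool.Agent.Lib.MP_1a91b9_ntT.S5.Main
import Pool.Agent.Lib.MP_1a91b9_ntT.S5.Tower
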