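import Mathlib

/-!
# 2-descent along a tower: definitions

Stream S5 of the project MP_1a91b9_nt (tower). All fields are number fields, places are elements
of `HeightOneSpectrum (𝓞 K)`, with values in `ℤᵐ⁰` (multiplicative notation: `exp (-n)` is the
value of an element of order `n`).
-/

set_option autoImplicit false

namespace Pool.Agent.Lib.MP_1a91b9_ntT.S5

open IsDedekindDomain NumberField WithZero Module

universe u

/-- The curve `y² + y = x³`. -/
abbrev E27 (K : Type*) [Field K] : WeierstrassCurve K := ⟨0, 0, 1, 0, 0⟩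

/-- The place of `K` below the place `w` of `L`. -/
noncomputable def below (K : Type*) {L : Type*} [Field K] [NumberField K] [Field L] [NumberField L]
    [Algebra K L] (w : HeightOneSpectrum (𝓞 L)) : HeightOneSpectrum (𝓞 K) where
  asIdeal := w.asIdeal.under (𝓞 K)
  isPrime := inferInstance
  ne_bot := fun h => w.ne_bot (Ideal.eq_bot_of_comap_eq_bot h)

/-- The ramification index of `w` over `K`. -/
noncomputable def ram (K : Type*) {L : Type*} [Field K] [NumberField K] [Field L] [NumberField L]
    [Algebra K L] (w : HeightOneSpectrum (𝓞 L)) : ℕ :=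
  (below K w).asIdeal.ramificationIdx' w.asIdeal

/-- `A` is a cubic extension of `N` generated by a cube root `θ` of two. -/
structure Cub (N A : Type*) [Field N] [Field A] [Algebra N A] (θ : A) : Prop where
  cube : θ ^ 3 = 2
  deg : finrank N A = 3
  gen : ∀ x : N, algebraMap N A x ≠ θ

/-- The Selmer condition on `α` in `A`. -/
structure Sel (N A : Type*) [Field N] [Field A] [NumberField A] [Algebra N A] (α : A) : Prop where
  ne_zero : α ≠ 0
  norm : IsSquare (Algebra.norm N α)
  val : ∀ w : HeightOneSpectrum (𝓞 A), IsSquare (w.valuation A α)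
  two : ∀ w : HeightOneSpectrum (𝓞 A), w.valuation A 2 < 1 →
    ∃ s : A, w.valuation A (α * s ^ 2 - 1) ≤ exp (-2 : ℤ)

/-- The property which is carried through the tower. -/
structure Good (N : Type u) [Field N] [NumberField N] : Prop where
  unr : ∀ v : HeightOneSpectrum (𝓞 N), v.valuation N 2 < 1 → v.valuation N 2 = exp (-1 : ℤ)
  tame : ∀ v : HeightOneSpectrum (𝓞 N), v.valuation N 3 < 1 →
    ∀ m : ℤ, v.valuation N 3 ≠ exp (3 * m)
  sel : ∀ (A : Type u) [Field A] [NumberField A] [Algebra N A] (θ : A), Cub N A θ →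
    ∀ α : A, Sel N A α → IsSquare α

/-- The conditions on `d` at a step `N' = N(√d)` of the tower. -/
structure StepCond (N : Type*) [Field N] [NumberField N] (d : N) : Prop where
  two : ∀ v : HeightOneSpectrum (𝓞 N), v.valuation N 2 < 1 →
    ∃ a : N, v.valuation N a = 1 ∧ v.valuation N (d - a ^ 2) ≤ v.valuation N 4
  odd : ∀ v : HeightOneSpectrum (𝓞 N), v.valuation N 2 = 1 → v.valuation N 3 = 1 →
    ¬ IsSquare (v.valuation N d) → ∀ x : 𝓞 N, x ^ 3 - 2 ∉ v.asIdeal

/-- `L = K(δ)`, `δ² = d`, is a quadratic extension with non-trivial automorphism `σ`. -/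
structure Quad (K L : Type*) [Field K] [Field L] [Algebra K L] (d : K) (δ : L)
    (σ : L ≃ₐ[K] L) : Prop where
  sq : δ ^ 2 = algebraMap K L d
  deg : finrank K L = 2
  conj : σ δ = -δ
  ne : δ ≠ 0
  invol : ∀ x : L, σ (σ x) = x
  fixed : ∀ x : L, σ x = x → ∃ y : K, algebraMap K L y = x
  repr : ∀ x : L, ∃ a b : K, x = algebraMap K L a + algebraMap K L b * δ

end Pool.Agent.Lib.MP_1a91b9_ntT.S5
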